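import Mathlib

set_option autoImplicit false

open MeasureTheory Filter Topology Metric Set

namespace Pool.Agent.Lib.MP_34b615_gt

/-- Holomorphy of a parametric integral under a locally uniform integrable bound. -/
theorem differentiableOn_param_integral {α : Type*} [MeasurableSpace α] (μ : Measure α)
    (F : ℂ → α → ℂ) (U : Set ℂ) (hU : IsOpen U)
    (hm : ∀ z ∈ U, AEStronglyMeasurable (F z) μ)
    (hd : ∀ᵐ a ∂μ, DifferentiableOn ℂ (fun z => F z a) U)
    (hb : ∀ z₀ ∈ U, ∃ ε > 0, ∃ bound : α → ℝ, Integrable bound μ ∧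
      ∀ᵐ a ∂μ, ∀ z ∈ ball z₀ ε, z ∈ U → ‖F z a‖ ≤ bound a) :
    DifferentiableOn ℂ (fun z => ∫ a, F z a ∂μ) U := by
  intro z₀ hz₀
  obtain ⟨ε₁, hε₁, bound, hbi, hbb⟩ := hb z₀ hz₀
  obtain ⟨ε₂, hε₂, hsub⟩ := Metric.isOpen_iff.mp hU z₀ hz₀
  set ε := min ε₁ ε₂ with hε
  have hεpos : 0 < ε := lt_min hε₁ hε₂
  have hsubU : ball z₀ ε ⊆ U := (ball_subset_ball (min_le_right _ _)).trans hsub
  have hsub1 : ball z₀ ε ⊆ ball z₀ ε₁ := ball_subset_ball (min_le_left _ _)
  have hr : 0 < ε / 2 / 2 := by positivity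
  have hsmall : ∀ z ∈ ball z₀ (ε / 2), closedBall z (ε / 2 / 2) ⊆ ball z₀ ε := by
    intro z hz w hw
    rw [mem_ball] at hz ⊢
    rw [mem_closedBall] at hw
    have := dist_triangle w z z₀
    linarith
  have hmeas' : AEStronglyMeasurable (fun a => deriv (fun z => F z a) z₀) μ := by
    let t : ℕ → ℂ := fun n => ((ε / 2 * (1 / ((n : ℝ) + 1)) : ℝ) : ℂ)
    have ht0 : Tendsto t atTop (𝓝[≠] 0) := by
      apply tendsto_nhdsWithin_of_tendsto_nhds_of_eventually_within
      · have h1 := (tendsto_one_div_add_atTop_nhds_zero_nat (𝕜 := ℝ)).const_mul (ε / 2)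
        rw [mul_zero] at h1
        have h2 := (Complex.continuous_ofReal.tendsto 0).comp h1
        simpa [t, Function.comp_def] using h2
      · refine Eventually.of_forall fun n => ?_
        simp only [t, mem_compl_iff, mem_singleton_iff, Complex.ofReal_eq_zero]
        positivity
    have htU : ∀ n, z₀ + t n ∈ U := by
      intro n
      apply hsubU
      rw [mem_ball, dist_eq_norm, add_sub_cancel_left]
      simp only [t, Complex.norm_real, Real.norm_eq_abs]
      rw [abs_of_pos (by positivity)]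
      have : 1 / ((n : ℝ) + 1) ≤ 1 := by
        rw [div_le_one (by positivity)]
        linarith [Nat.cast_nonneg (α := ℝ) n]
      nlinarith
    refine aestronglyMeasurable_of_tendsto_ae atTop
      (f := fun n a => (t n)⁻¹ • (F (z₀ + t n) a - F z₀ a)) (fun n => ?_) ?_
    · exact ((hm _ (htU n)).sub (hm _ hz₀)).const_smul (t n)⁻¹
    · filter_upwards [hd] with a ha
      have h1 := (ha.differentiableAt (hU.mem_nhds hz₀)).hasDerivAt
      exact (hasDerivAt_iff_tendsto_slope_zero.mp h1).comp ht0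
  have key := hasDerivAt_integral_of_dominated_loc_of_deriv_le (μ := μ) (F := F) (x₀ := z₀)
    (s := ball z₀ (ε / 2)) (bound := fun a => bound a / (ε / 2 / 2))
    (F' := fun z a => deriv (fun z => F z a) z)
    (ball_mem_nhds _ (by positivity))
    (by filter_upwards [hU.mem_nhds hz₀] with z hz using hm z hz)
    (by
      refine hbi.mono' (hm _ hz₀) ?_
      filter_upwards [hbb] with a ha using ha z₀ (mem_ball_self hε₁) hz₀)
    hmeas'
    (by
      filter_upwards [hd, hbb] with a ha hb' z hz
      apply Complex.norm_deriv_le_of_forall_mem_sphere_norm_le hr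
      · apply DifferentiableOn.diffContOnCl
        rw [closure_ball _ hr.ne']
        exact ha.mono ((hsmall z hz).trans hsubU)
      · intro w hw
        have hw' := hsmall z hz (sphere_subset_closedBall hw)
        exact hb' w (hsub1 hw') (hsubU hw'))
    (hbi.div_const _)
    (by
      filter_upwards [hd] with a ha z hz
      have : z ∈ U := hsubU (ball_subset_ball (by linarith) hz)
      exact (ha.differentiableAt (hU.mem_nhds this)).hasDerivAt)
  exact key.2.differentiableAt.differentiableWithinAt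

/-- Gluing holomorphic extensions on growing half planes to an entire function. -/
theorem glue_entire (s : ℝ) (f : ℂ → ℂ)
    (h : ∀ J : ℕ, ∃ e : ℂ → ℂ, DifferentiableOn ℂ e {z | -(s + 2 * J) < z.re} ∧
      ∀ z : ℂ, -s < z.re → e z = f z) :
    ∃ e : ℂ → ℂ, Differentiable ℂ e ∧ ∀ z : ℂ, -s < z.re → e z = f z := by
  choose e he hef using h
  have hopen : ∀ J : ℕ, IsOpen {z : ℂ | -(s + 2 * J) < z.re} := fun J =>
    isOpen_lt continuous_const Complex.continuous_re
  have agree : ∀ J J' : ℕ, J ≤ J' → EqOn (e J) (e J') {z | -(s + 2 * J) < z.re} := by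
    intro J J' hJ
    have hsub : {z : ℂ | -(s + 2 * J) < z.re} ⊆ {z : ℂ | -(s + 2 * J') < z.re} := by
      intro z hz
      have : (J : ℝ) ≤ J' := by exact_mod_cast hJ
      simp only [mem_ofPred_eq] at hz ⊢
      linarith
    have h1 := (he J).analyticOnNhd (hopen J)
    have h2 := ((he J').mono hsub).analyticOnNhd (hopen J)
    have hz0 : ((-s + 1 : ℝ) : ℂ) ∈ {z : ℂ | -(s + 2 * J) < z.re} := by
      simp only [mem_ofPred_eq, Complex.ofReal_re]
      have : (0 : ℝ) ≤ J := Nat.cast_nonneg _
      linarith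
    refine h1.eqOn_of_preconnected_of_eventuallyEq h2 (convex_halfSpace_re_gt _).isPreconnected
      hz0 ?_
    have : {z : ℂ | -s < z.re} ∈ 𝓝 ((-s + 1 : ℝ) : ℂ) := by
      apply (isOpen_lt continuous_const Complex.continuous_re).mem_nhds
      simp
    filter_upwards [this] with z hz
    rw [hef J z hz, hef J' z hz]
  have hJ : ∀ z : ℂ, ∃ J : ℕ, -(s + 2 * J) < z.re := by
    intro z
    obtain ⟨J, hJ⟩ := exists_nat_gt (-s - z.re)
    refine ⟨J, ?_⟩
    have : (0 : ℝ) ≤ J := Nat.cast_nonneg _
    linarith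
  choose J hJ using hJ
  have key : ∀ K : ℕ, EqOn (fun z => e (J z) z) (e K) {z | -(s + 2 * K) < z.re} := by
    intro K z hz
    rcases le_total (J z) K with h | h
    · exact agree _ _ h (hJ z)
    · exact (agree _ _ h hz).symm
  refine ⟨fun z => e (J z) z, fun z => ?_, fun z hz => hef _ z hz⟩
  have hmem := (hopen (J z)).mem_nhds (hJ z)
  exact ((he (J z)).differentiableAt hmem).congr_of_eventuallyEq
    (eventuallyEq_of_mem hmem (key (J z)))

end Pool.Agent.Lib.MP_34b615_gt
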