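import Mathlib

set_option autoImplicit false

open MeasureTheory Filter Topology Set

namespace Pool.Agent.Lib.MP_34b615_gt

/-- Euclidean space of dimension `n`. -/
abbrev E (n : ℕ) : Type := EuclideanSpace ℝ (Fin n)

/-- `φ : U → M` is a smooth local parametrization of `M`: a smooth injective immersion of the open
set `U` which sends open subsets of `U` to relatively open subsets of `M`. -/
def IsChart {m n : ℕ} (M : Set (E n)) (U : Set (E m)) (φ : E m → E n) : Prop :=
  IsOpen U ∧ ContDiffOn ℝ (⊤ : ℕ∞) φ U ∧ InjOn φ U ∧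
    (∀ u ∈ U, Function.Injective (fderiv ℝ φ u)) ∧
    ∀ V : Set (E m), V ⊆ U → IsOpen V → ∃ W : Set (E n), IsOpen W ∧ φ '' V = M ∩ W

/-- The determinant of the matrix of inner products of two `m`-tuples of vectors. -/
noncomputable def pairing {m n : ℕ} (v w : Fin m → E n) : ℝ :=
  (Matrix.of fun i j => inner ℝ (v i) (w j)).det

/-- `M` is a compact boundaryless smooth `m`-dimensional submanifold, oriented by declaring the
orthonormal basis `e x` of the tangent space at `x` to be positive, locally consistently. -/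
def IsOrientedClosedSubmanifold {n : ℕ} (m : ℕ) (M : Set (E n)) (e : E n → Fin m → E n) : Prop :=
  IsCompact M ∧ ∀ x ∈ M, Orthonormal ℝ (e x) ∧
    ∃ (U : Set (E m)) (φ : E m → E n), IsChart M U φ ∧ x ∈ φ '' U ∧
      ∀ u ∈ U, (∀ i, e (φ u) i ∈ Set.range (fderiv ℝ φ u)) ∧
        0 < pairing (e (φ u)) fun j => fderiv ℝ φ u (EuclideanSpace.single j 1)

/-- The volume measure of an `m`-dimensional submanifold. -/
noncomputable def vol {n : ℕ} (m : ℕ) (M : Set (E n)) : Measure (E n) :=
  (Measure.euclideanHausdorffMeasure m).restrict M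

/-- The weighted energy integral. -/
noncomputable def energy {n : ℕ} (m : ℕ) (M : Set (E n)) (e : E n → Fin m → E n) (z : ℂ) : ℂ :=
  ∫ p : E n × E n, (pairing (e p.1) (e p.2) : ℂ) * ((‖p.1 - p.2‖ : ℝ) : ℂ) ^ z
    ∂((vol m M).prod (vol m M))

/-- `B` is a meromorphic continuation of the energy integral from `Re z > -m` to the plane. -/
def IsContinuation {n : ℕ} (m : ℕ) (M : Set (E n)) (e : E n → Fin m → E n) (B : ℂ → ℂ) : Prop :=
  MeromorphicOn B univ ∧ ∀ z : ℂ, -(m : ℝ) < z.re → B z = energy m M e z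

/-- `W` is the value of `B` at `-2m` (`m` odd), or the residue of `B` at its at most simple pole
`-2m` (`m` even). -/
def HasW (m : ℕ) (B : ℂ → ℂ) (W : ℂ) : Prop :=
  (Odd m → Tendsto B (𝓝[≠] (-2 * (m : ℂ))) (𝓝 W)) ∧
  (Even m → Tendsto (fun z => (z + 2 * (m : ℂ)) * B z) (𝓝[≠] (-2 * (m : ℂ))) (𝓝 W))

open Classical in
/-- Inversion in the sphere with centre `c` and radius `r`, on the one-point compactification. -/
noncomputable def sphereInversion {n : ℕ} (c : E n) (r : ℝ) (p : OnePoint (E n)) :
    OnePoint (E n) :=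
  OnePoint.elim p (c : OnePoint (E n))
    fun x => if x = c then OnePoint.infty
      else ((c + (r ^ 2 / ‖x - c‖ ^ 2) • (x - c) : E n) : OnePoint (E n))

/-- Reflection in the hyperplane `⟪x, a⟫ = t` (`a` a unit vector), fixing infinity. -/
noncomputable def hyperplaneReflection {n : ℕ} (a : E n) (t : ℝ) (p : OnePoint (E n)) :
    OnePoint (E n) :=
  OnePoint.elim p OnePoint.infty
    fun x => ((x - (2 * (inner ℝ x a - t)) • a : E n) : OnePoint (E n))

/-- Moebius transformations: finite compositions of inversions in spheres and reflections in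
hyperplanes. -/
def IsMoebius {n : ℕ} (T : OnePoint (E n) → OnePoint (E n)) : Prop :=
  ∃ l : List (OnePoint (E n) → OnePoint (E n)),
    (∀ g ∈ l, (∃ (c : E n) (r : ℝ), 0 < r ∧ g = sphereInversion c r) ∨
      (∃ (a : E n) (t : ℝ), ‖a‖ = 1 ∧ g = hyperplaneReflection a t)) ∧
    T = l.foldr (fun g f => g ∘ f) id

/-- The finite part of `T`: equal to `T x` whenever `T x` is not infinity. -/
noncomputable def finitePart {n : ℕ} (T : OnePoint (E n) → OnePoint (E n)) (x : E n) : E n :=
  OnePoint.elim (T x) 0 id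

/-- `e'` is a field of orthonormal bases of the tangent spaces of `t(M)` that are positive for the
orientation transported by `t`. -/
def IsTransported {n : ℕ} (m : ℕ) (M : Set (E n)) (e : E n → Fin m → E n) (t : E n → E n)
    (e' : E n → Fin m → E n) : Prop :=
  ∀ x ∈ M, Orthonormal ℝ (e' (t x)) ∧
    (∀ i, e' (t x) i ∈ Submodule.span ℝ (Set.range fun j => fderiv ℝ t x (e x j))) ∧
    0 < pairing (e' (t x)) fun j => fderiv ℝ t x (e x j)

end Pool.Agent.Lib.MP_34b615_gt
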