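import Mathlib
import Pool.Agent.Lib.MP_34b615_gt.Defs

set_option autoImplicit false
set_option linter.unusedSectionVars false
set_option linter.unusedVariables false

open MeasureTheory Filter Topology Metric Set
open scoped ENNReal NNReal

namespace Pool.Agent.Lib.MP_34b615_gt

variable {m n : ℕ}

/-- The coordinate tangent vectors of a parametrization. -/
noncomputable def tang (φ : E m → E n) (u : E m) : Fin m → E n :=
  fun j => fderiv ℝ φ u (EuclideanSpace.single j 1)

/-- The Jacobian of a parametrization. -/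
noncomputable def jac (φ : E m → E n) (u : E m) : ℝ :=
  Real.sqrt (pairing (tang φ u) (tang φ u))

lemma jac_eq (φ : E m → E n) (u : E m) :
    jac φ u = (fderiv ℝ φ u).toLinearMap.normDet := by
  have h := (fderiv ℝ φ u).toLinearMap.normDet_sq_eq_det_gram
    (EuclideanSpace.basisFun (Fin m) ℝ)
  have h2 : pairing (tang φ u) (tang φ u) = (fderiv ℝ φ u).toLinearMap.normDet ^ 2 := by
    have h' : (fderiv ℝ φ u).toLinearMap.normDet ^ 2 = (Matrix.gram ℝ
      (fun i => (fderiv ℝ φ u).toLinearMap (EuclideanSpace.basisFun (Fin m) ℝ i))).det := h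
    rw [h', pairing]
    congr 1
    ext i j
    simp [Matrix.gram, tang]
  rw [jac, h2, Real.sqrt_sq (LinearMap.normDet_nonneg _)]

lemma tang_continuous {φ : E m → E n} (hφ : ContDiff ℝ 1 φ) (j : Fin m) :
    Continuous fun u => tang φ u j :=
  (hφ.continuous_fderiv one_ne_zero).clm_apply continuous_const

lemma jac_continuous {φ : E m → E n} (hφ : ContDiff ℝ 1 φ) : Continuous (jac φ) := by
  refine Real.continuous_sqrt.comp (Continuous.matrix_det ?_)
  refine continuous_matrix fun i j => ?_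
  exact (tang_continuous hφ i).inner (tang_continuous hφ j)

lemma jac_nonneg (φ : E m → E n) (u : E m) : 0 ≤ jac φ u := Real.sqrt_nonneg _

lemma jac_pos {φ : E m → E n} {u : E m} (h : Function.Injective (fderiv ℝ φ u)) :
    0 < jac φ u := by
  rw [jac_eq]
  refine lt_of_le_of_ne (LinearMap.normDet_nonneg _) fun h0 => ?_
  exact LinearMap.normDet_eq_zero_iff_ker_ne_bot.mp h0.symm (LinearMap.ker_eq_bot.mpr h)

lemma haus_le_of_dist_le {X : Type*} [Nonempty X] (f g : X → E n) (A : Set X) (C : ℝ≥0)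
    (h : ∀ x ∈ A, ∀ y ∈ A, dist (f x) (f y) ≤ C * dist (g x) (g y)) :
    Measure.euclideanHausdorffMeasure m (f '' A) ≤
      (C : ℝ≥0∞) ^ m * Measure.euclideanHausdorffMeasure m (g '' A) := by
  let k : E n → E n := fun y => f (Function.invFunOn g A y)
  have hk : ∀ x ∈ A, k (g x) = f x := by
    intro x hx
    have h1 : Function.invFunOn g A (g x) ∈ A := Function.invFunOn_apply_mem hx
    have h2 : g (Function.invFunOn g A (g x)) = g x := Function.invFunOn_apply_eq hx
    have h3 := h _ h1 x hx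
    rw [h2, dist_self, mul_zero] at h3
    exact dist_le_zero.mp h3
  have hL : LipschitzOnWith C k (g '' A) := by
    refine LipschitzOnWith.of_dist_le_mul ?_
    rintro _ ⟨x, hx, rfl⟩ _ ⟨y, hy, rfl⟩
    rw [hk x hx, hk y hy]
    exact h x hx y hy
  have him : k '' (g '' A) = f '' A := by
    rw [image_image]
    exact image_congr hk
  have := hL.hausdorffMeasure_image_le (d := (m : ℝ)) (Nat.cast_nonneg m)
  rw [him, ENNReal.rpow_natCast] at this
  simp only [Measure.euclideanHausdorffMeasure_def, Measure.smul_apply, ENNReal.smul_def,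
    smul_eq_mul]
  rw [mul_left_comm]
  exact mul_le_mul_right this _

lemma exists_piece {X : Type*} [TopologicalSpace X] [SecondCountableTopology X]
    [MeasurableSpace X] [OpensMeasurableSpace X] {U : Set X} (P : Set X → Prop)
    (hP : ∀ A B, A ⊆ B → P B → P A) (h0 : P ∅)
    (h : ∀ x ∈ U, ∃ N ∈ 𝓝 x, P N) :
    ∃ D : ℕ → Set X, (∀ i, MeasurableSet (D i)) ∧ Pairwise (Function.onFun Disjoint D) ∧
      U ⊆ ⋃ i, D i ∧ ∀ i, P (D i) := by
  choose! N hN hPN using h
  obtain ⟨t, htU, htc, hcov⟩ := TopologicalSpace.countable_cover_nhdsWithin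
    (f := fun x => interior (N x)) (s := U)
    (fun x hx => mem_nhdsWithin_of_mem_nhds (interior_mem_nhds.mpr (hN x hx)))
  rcases t.eq_empty_or_nonempty with rfl | hne
  · refine ⟨fun _ => ∅, fun _ => MeasurableSet.empty, fun i j _ => by simp [Function.onFun],
      by simpa using hcov, fun _ => h0⟩
  obtain ⟨s, hs⟩ := htc.exists_eq_range hne
  refine ⟨disjointed fun i => interior (N (s i)),
    MeasurableSet.disjointed fun i => isOpen_interior.measurableSet, disjoint_disjointed _, ?_,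
    fun i => hP _ _ ((disjointed_subset _ i).trans interior_subset)
      (hPN _ (htU (hs ▸ mem_range_self i)))⟩
  rw [iUnion_disjointed]
  intro x hx
  have := hcov hx
  rw [hs, biUnion_range] at this
  exact this

lemma local_compare {φ : E m → E n} (hφ : ContDiff ℝ 1 φ) {u₀ : E m}
    (h : Function.Injective (fderiv ℝ φ u₀)) {c : ℝ≥0} (hc : 1 < c) :
    ∃ N ∈ 𝓝 u₀, ∀ A ⊆ N, MeasurableSet A →
      Measure.euclideanHausdorffMeasure m (φ '' A) ≤
        (c : ℝ≥0∞) ^ (m + 1) * ∫⁻ u in A, ENNReal.ofReal (jac φ u) ∧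
      ∫⁻ u in A, ENNReal.ofReal (jac φ u) ≤
        (c : ℝ≥0∞) ^ (m + 1) * Measure.euclideanHausdorffMeasure m (φ '' A) := by
  set A₀ := fderiv ℝ φ u₀ with hA₀
  obtain ⟨K, hK0, hK⟩ := A₀.toLinearMap.exists_antilipschitzWith (LinearMap.ker_eq_bot.mpr h)
  have hc' : (1 : ℝ) < c := hc
  have hK0' : (0 : ℝ) < K := hK0
  have hε : (0 : ℝ) < (1 - 1 / c) / K := by
    apply div_pos _ hK0'
    rw [sub_pos, div_lt_one (by linarith)]
    exact hc'
  obtain ⟨N₁, hN₁, hap⟩ := (hφ.contDiffAt.hasStrictFDerivAt (x := u₀)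
    one_ne_zero).approximates_deriv_on_nhds (c := ⟨_, hε.le⟩) (Or.inr hε)
  have hJ := jac_pos h
  have hJc := (jac_continuous hφ).continuousAt (x := u₀)
  have hN₂ : ∀ᶠ u in 𝓝 u₀, jac φ u ≤ c * jac φ u₀ :=
    hJc.eventually (ge_mem_nhds (by nlinarith))
  have hN₃ : ∀ᶠ u in 𝓝 u₀, jac φ u₀ ≤ c * jac φ u :=
    (continuousAt_const.mul hJc).eventually (le_mem_nhds (by
      show jac φ u₀ < c * jac φ u₀
      nlinarith))
  refine ⟨_, inter_mem hN₁ (inter_mem hN₂ hN₃), fun A hA hAm => ?_⟩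
  have key : ∀ x ∈ A, ∀ y ∈ A, |‖φ x - φ y‖ - ‖A₀ x - A₀ y‖| ≤ (1 - 1 / c) * ‖A₀ x - A₀ y‖ := by
    intro x hx y hy
    have h1 := hap x (hA hx).1 y (hA hy).1
    have h2 := hK.le_mul_dist x y
    rw [dist_eq_norm, dist_eq_norm] at h2
    have h3 := abs_norm_sub_norm_le (φ x - φ y) (A₀ x - A₀ y)
    rw [← map_sub] at h3 ⊢
    refine h3.trans (h1.trans ?_)
    have h4 : ‖x - y‖ ≤ K * ‖A₀ (x - y)‖ := by
      rw [map_sub]
      exact h2
    calc _ = (1 - 1 / c) / K * ‖x - y‖ := rfl
      _ ≤ (1 - 1 / c) / K * (K * ‖A₀ (x - y)‖) := mul_le_mul_of_nonneg_left h4 hε.le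
      _ = _ := by field_simp
  have hlin : Measure.euclideanHausdorffMeasure m (A₀ '' A) =
      ENNReal.ofReal (jac φ u₀) * volume A := by
    have := A₀.toLinearMap.euclideanHausdorffMeasure_image_eq_normDet_mul_volume A
    rw [finrank_euclideanSpace_fin] at this
    rw [jac_eq]
    exact this
  have hc1 : 1 - 1 / (c : ℝ) ≤ c - 1 := by
    have : (0 : ℝ) < c := by linarith
    have h2 : (c : ℝ) - 1 - (1 - 1 / c) = (c - 1) ^ 2 / c := by
      field_simp
    have h3 : 0 ≤ ((c : ℝ) - 1) ^ 2 / c := by positivity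
    linarith
  have u1 := haus_le_of_dist_le (m := m) φ A₀ A c (fun x hx y hy => by
    rw [dist_eq_norm, dist_eq_norm]
    have := (abs_le.mp (key x hx y hy)).2
    nlinarith [norm_nonneg (A₀ x - A₀ y)])
  have u2 := haus_le_of_dist_le (m := m) A₀ φ A c (fun x hx y hy => by
    rw [dist_eq_norm, dist_eq_norm]
    have h1 := (abs_le.mp (key x hx y hy)).1
    have h2 : 1 / c * ‖A₀ x - A₀ y‖ ≤ ‖φ x - φ y‖ := by linarith
    have h3 := mul_le_mul_of_nonneg_left h2 (by linarith : (0 : ℝ) ≤ c)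
    rwa [← mul_assoc, mul_one_div_cancel (by linarith), one_mul] at h3)
  have v1 : ENNReal.ofReal (jac φ u₀) * volume A ≤ c * ∫⁻ u in A, ENNReal.ofReal (jac φ u) := by
    rw [← setLIntegral_const, ← lintegral_const_mul' _ _ ENNReal.coe_ne_top]
    refine setLIntegral_mono' hAm fun u hu => ?_
    rw [← ENNReal.ofReal_coe_nnreal, ← ENNReal.ofReal_mul (NNReal.coe_nonneg c)]
    exact ENNReal.ofReal_le_ofReal (hA hu).2.2
  have v2 : ∫⁻ u in A, ENNReal.ofReal (jac φ u) ≤ c * (ENNReal.ofReal (jac φ u₀) * volume A) := by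
    rw [← mul_assoc, ← setLIntegral_const]
    refine setLIntegral_mono' hAm fun u hu => ?_
    rw [← ENNReal.ofReal_coe_nnreal, ← ENNReal.ofReal_mul (NNReal.coe_nonneg c)]
    exact ENNReal.ofReal_le_ofReal (hA hu).2.1
  constructor
  · rw [hlin] at u1
    refine u1.trans ?_
    rw [pow_succ, mul_assoc]
    exact mul_le_mul_right v1 _
  · refine v2.trans ?_
    rw [← hlin, pow_succ', mul_assoc]
    exact mul_le_mul_right u2 _

lemma le_of_forall_pow_mul {a b : ℝ≥0∞} (k : ℕ) (h : ∀ c : ℝ≥0, 1 < c → a ≤ (c : ℝ≥0∞) ^ k * b) :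
    a ≤ b := by
  have h1 : Tendsto (fun c : ℝ≥0 => (c : ℝ≥0∞) ^ k * b) (𝓝[>] 1) (𝓝 (((1 : ℝ≥0) : ℝ≥0∞) ^ k * b)) := by
    apply Tendsto.mono_left _ nhdsWithin_le_nhds
    refine ENNReal.Tendsto.mul_const ?_ (Or.inl (by simp))
    exact ((ENNReal.continuous_pow k).comp ENNReal.continuous_coe).tendsto 1
  simp only [ENNReal.coe_one, one_pow, one_mul] at h1
  exact ge_of_tendsto h1 (eventually_nhdsWithin_of_forall h)

theorem area_formula {φ : E m → E n} (hφ : ContDiff ℝ 1 φ) {A : Set (E m)} (hA : MeasurableSet A)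
    (hinj : InjOn φ A) (himm : ∀ u ∈ A, Function.Injective (fderiv ℝ φ u)) :
    Measure.euclideanHausdorffMeasure m (φ '' A) = ∫⁻ u in A, ENNReal.ofReal (jac φ u) := by
  have key : ∀ c : ℝ≥0, 1 < c → Measure.euclideanHausdorffMeasure m (φ '' A) ≤
        (c : ℝ≥0∞) ^ (m + 1) * ∫⁻ u in A, ENNReal.ofReal (jac φ u) ∧
      ∫⁻ u in A, ENNReal.ofReal (jac φ u) ≤
        (c : ℝ≥0∞) ^ (m + 1) * Measure.euclideanHausdorffMeasure m (φ '' A) := by
    intro c hc
    obtain ⟨D, hDm, hDd, hcov, hP⟩ := exists_piece (U := A) (fun N => ∀ B ⊆ N, MeasurableSet B →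
      Measure.euclideanHausdorffMeasure m (φ '' B) ≤
        (c : ℝ≥0∞) ^ (m + 1) * ∫⁻ u in B, ENNReal.ofReal (jac φ u) ∧
      ∫⁻ u in B, ENNReal.ofReal (jac φ u) ≤
        (c : ℝ≥0∞) ^ (m + 1) * Measure.euclideanHausdorffMeasure m (φ '' B))
      (fun N N' hN h B hB => h B (hB.trans hN))
      (fun B hB _ => by rw [subset_empty_iff.mp hB]; simp)
      (fun u hu => local_compare hφ (himm u hu) hc)
    have hAe : A = ⋃ i, A ∩ D i := by
      rw [← inter_iUnion, inter_eq_left.mpr hcov]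
    have hm : ∀ i, MeasurableSet (A ∩ D i) := fun i => hA.inter (hDm i)
    have hd : Pairwise (Function.onFun Disjoint fun i => A ∩ D i) := fun i j hij =>
      (hDd hij).mono inter_subset_right inter_subset_right
    have e1 : ∫⁻ u in A, ENNReal.ofReal (jac φ u) =
        ∑' i, ∫⁻ u in A ∩ D i, ENNReal.ofReal (jac φ u) := by
      rw [← lintegral_iUnion hm hd, ← hAe]
    have e2 : Measure.euclideanHausdorffMeasure m (φ '' A) =
        ∑' i, Measure.euclideanHausdorffMeasure m (φ '' (A ∩ D i)) := by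
      rw [← measure_iUnion, ← image_iUnion, ← hAe]
      · intro i j hij
        exact (hd hij).image hinj inter_subset_left inter_subset_left
      · intro i
        exact (hm i).image_of_continuousOn_injOn hφ.continuous.continuousOn
          (hinj.mono inter_subset_left)
    rw [e1, e2, ← ENNReal.tsum_mul_left, ← ENNReal.tsum_mul_left]
    exact ⟨ENNReal.tsum_le_tsum fun i => (hP i _ inter_subset_right (hm i)).1,
      ENNReal.tsum_le_tsum fun i => (hP i _ inter_subset_right (hm i)).2⟩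
  exact le_antisymm (le_of_forall_pow_mul _ fun c hc => (key c hc).1)
    (le_of_forall_pow_mul _ fun c hc => (key c hc).2)

theorem area_map {φ : E m → E n} (hφ : ContDiff ℝ 1 φ) {A : Set (E m)} (hA : MeasurableSet A)
    (hinj : InjOn φ A) (himm : ∀ u ∈ A, Function.Injective (fderiv ℝ φ u)) :
    (Measure.euclideanHausdorffMeasure m).restrict (φ '' A) =
      Measure.map φ ((volume.restrict A).withDensity fun u => ENNReal.ofReal (jac φ u)) := by
  ext S hS
  have hm := hφ.continuous.measurable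
  rw [Measure.restrict_apply hS, Measure.map_apply hm hS, withDensity_apply _ (hm hS),
    Measure.restrict_restrict (hm hS), ← area_formula hφ ((hm hS).inter hA)
      (hinj.mono inter_subset_right) (fun u hu => himm u hu.2), image_preimage_inter]

end Pool.Agent.Lib.MP_34b615_gt
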