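import Mathlib
import Pool.Agent.Lib.MP_34b615_gt.Area

set_option autoImplicit false
set_option linter.unusedSectionVars false
set_option linter.unusedVariables false

open MeasureTheory Filter Topology Metric Set
open scoped ENNReal NNReal

namespace Pool.Agent.Lib.MP_34b615_gt

variable {m n : ℕ}

lemma det_frame {e v : Fin m → E n} (he : Orthonormal ℝ e)
    (hv : ∀ j, v j ∈ Submodule.span ℝ (range e)) (L : Fin m → E n → ℂ)
    (hL : ∀ i, IsLinearMap ℝ (L i)) :
    (Matrix.of fun i j => L i (v j)).det =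
      (pairing e v : ℂ) * (Matrix.of fun i j => L i (e j)).det := by
  have h1 : ∀ j, v j = ∑ k, inner ℝ (e k) (v j) • e k := by
    intro j
    obtain ⟨c, hc⟩ := (Submodule.mem_span_range_iff_exists_fun ℝ).mp (hv j)
    have : ∀ k, inner ℝ (e k) (v j) = c k := fun k => by
      rw [← hc]
      exact he.inner_right_fintype c k
    simp only [this]
    exact hc.symm
  have h2 : (Matrix.of fun i j => L i (v j)) = (Matrix.of fun i j => L i (e j)) *
      (Matrix.of fun i j => inner ℝ (e i) (v j)).map Complex.ofRealHom := by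
    ext i j
    simp only [Matrix.of_apply, Matrix.mul_apply, Matrix.map_apply, Complex.ofRealHom_eq_coe]
    have := map_sum ((hL i).mk' _) (fun k => inner ℝ (e k) (v j) • e k) Finset.univ
    simp only [IsLinearMap.mk'_apply, (hL i).map_smul] at this
    rw [← h1 j] at this
    rw [this]
    refine Finset.sum_congr rfl fun k _ => ?_
    rw [Complex.real_smul, mul_comm]
  rw [h2, Matrix.det_mul, mul_comm]
  congr 1
  rw [pairing]
  exact (Complex.ofRealHom.map_det _).symm

lemma pairing_comm (v w : Fin m → E n) : pairing v w = pairing w v := by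
  rw [pairing, pairing, ← Matrix.det_transpose]
  congr 1
  ext i j
  simp [real_inner_comm]

/-- Determinant of a bilinear form on two tuples. -/
noncomputable def bdet (A : E n → E n → ℂ) (v w : Fin m → E n) : ℂ :=
  (Matrix.of fun i j => A (v i) (w j)).det

lemma pairing_cast (v w : Fin m → E n) :
    (pairing v w : ℂ) = bdet (fun a b => ((inner ℝ a b : ℝ) : ℂ)) v w := by
  rw [pairing, bdet]
  exact Complex.ofRealHom.map_det _

lemma bdet_frame {A : E n → E n → ℂ} (h1 : ∀ w, IsLinearMap ℝ fun v => A v w)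
    (h2 : ∀ v, IsLinearMap ℝ (A v)) {e e' v w : Fin m → E n} (he : Orthonormal ℝ e)
    (he' : Orthonormal ℝ e') (hv : ∀ j, v j ∈ Submodule.span ℝ (range e))
    (hw : ∀ j, w j ∈ Submodule.span ℝ (range e')) :
    bdet A v w = (pairing e v : ℂ) * (pairing e' w : ℂ) * bdet A e e' := by
  rw [bdet, det_frame he' hw (fun i => A (v i)) (fun i => h2 _), ← Matrix.det_transpose]
  have := det_frame he hv (fun i x => A x (e' i)) (fun i => h1 _)
  have e1 : (Matrix.of fun i j => A (v i) (e' j)).transpose =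
      Matrix.of fun i j => A (v j) (e' i) := rfl
  rw [e1, this, bdet, ← Matrix.det_transpose (Matrix.of fun i j => A (e i) (e' j))]
  have e2 : (Matrix.of fun i j => A (e i) (e' j)).transpose =
      Matrix.of fun i j => A (e j) (e' i) := rfl
  rw [e2]
  ring

lemma inner_lin1 (w : E n) : IsLinearMap ℝ fun v : E n => ((inner ℝ v w : ℝ) : ℂ) :=
  ⟨fun a b => by simp [inner_add_left], fun c a => by simp [inner_smul_left]⟩

lemma inner_lin2 (v : E n) : IsLinearMap ℝ fun w : E n => ((inner ℝ v w : ℝ) : ℂ) :=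
  ⟨fun a b => by simp [inner_add_right], fun c a => by simp [inner_smul_right]⟩

lemma pairing_self {e : Fin m → E n} (he : Orthonormal ℝ e) : pairing e e = 1 := by
  rw [pairing, ← Matrix.det_one (n := Fin m)]
  congr 1
  ext i j
  simp [orthonormal_iff_ite.mp he, Matrix.one_apply]

lemma sqrt_pairing {e v : Fin m → E n} (he : Orthonormal ℝ e)
    (hv : ∀ j, v j ∈ Submodule.span ℝ (range e)) (hpos : 0 < pairing e v) :
    Real.sqrt (pairing v v) = pairing e v := by
  have h := bdet_frame inner_lin1 inner_lin2 he he hv hv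
  rw [← pairing_cast, ← pairing_cast, pairing_self he] at h
  have h2 : pairing v v = pairing e v ^ 2 := by
    have : ((pairing v v : ℝ) : ℂ) = ((pairing e v ^ 2 : ℝ) : ℂ) := by
      rw [h]
      push_cast
      ring
    exact_mod_cast this
  rw [h2, Real.sqrt_sq hpos.le]

lemma span_eq_of_le {e : Fin m → E n} (he : Orthonormal ℝ e) {S : Submodule ℝ (E n)}
    (hS : Module.finrank ℝ S ≤ m) (h : ∀ i, e i ∈ S) : Submodule.span ℝ (range e) = S := by
  apply Submodule.eq_of_le_of_finrank_le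
  · rw [Submodule.span_le]
    rintro _ ⟨i, rfl⟩
    exact h i
  · rw [finrank_span_eq_card he.linearIndependent, Fintype.card_fin]
    exact hS

/-- A normalized chart. -/
structure GC (M : Set (E n)) (e : E n → Fin m → E n) (φ : E m → E n) (u₀ : E m) (r : ℝ)
    (W : Set (E n)) (γ : E m → ℝ) : Prop where
  smooth : ContDiff ℝ (⊤ : ℕ∞) φ
  rpos : 0 < r
  inj : InjOn φ (ball u₀ (2 * r))
  imm : ∀ u ∈ ball u₀ (2 * r), Function.Injective (fderiv ℝ φ u)
  sub : ∀ u ∈ ball u₀ (2 * r), φ u ∈ M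
  Wopen : IsOpen W
  img : φ '' ball u₀ r = M ∩ W
  nhds : ∀ u ∈ ball u₀ (2 * r), 𝓝[M] (φ u) ≤ Filter.map φ (𝓝 u)
  orth : ∀ u ∈ ball u₀ (2 * r), Orthonormal ℝ (e (φ u))
  tan : ∀ u ∈ ball u₀ (2 * r), ∀ i, e (φ u) i ∈ range (fderiv ℝ φ u)
  span : ∀ u ∈ ball u₀ (2 * r), ∀ j, tang φ u j ∈ Submodule.span ℝ (range (e (φ u)))
  jac_eq : ∀ u ∈ ball u₀ (2 * r), jac φ u = pairing (e (φ u)) (tang φ u)
  gsmooth : ContDiff ℝ (⊤ : ℕ∞) γ
  g0 : ∀ u, 0 ≤ γ u
  g1 : ∀ u, γ u ≤ 1
  gone : ∀ u ∈ closedBall u₀ r, γ u = 1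
  gsupp : ∀ u, γ u ≠ 0 → u ∈ ball u₀ (2 * r)

lemma contDiff_cut {V F : Type*} [NormedAddCommGroup V] [NormedSpace ℝ V] [NormedAddCommGroup F]
    [NormedSpace ℝ F] {k : WithTop ℕ∞} {U : Set V} (hU : IsOpen U) {f : V → F}
    (hf : ContDiffOn ℝ k f U) {b : V → ℝ} (hb : ContDiff ℝ k b) (hs : tsupport b ⊆ U) :
    ContDiff ℝ k fun x => b x • f x := by
  rw [contDiff_iff_contDiffAt]
  intro x
  by_cases hx : x ∈ tsupport b
  · exact hb.contDiffAt.smul (hf.contDiffAt (hU.mem_nhds (hs hx)))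
  · have h := notMem_tsupport_iff_eventuallyEq.mp hx
    refine (contDiffAt_const (c := (0 : F))).congr_of_eventuallyEq ?_
    filter_upwards [h] with y hy
    simp [hy]

theorem exists_GC {M : Set (E n)} {e : E n → Fin m → E n}
    (hM : IsOrientedClosedSubmanifold m M e) {x : E n} (hx : x ∈ M) :
    ∃ (φ : E m → E n) (u₀ : E m) (r : ℝ) (W : Set (E n)) (γ : E m → ℝ),
      GC M e φ u₀ r W γ ∧ x ∈ W ∧ φ u₀ = x := by
  obtain ⟨-, U, φ, ⟨hU, hφ, hinj, himm, hopen⟩, ⟨u₀, hu₀, rfl⟩, hor⟩ := hM.2 x hx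
  obtain ⟨R, hR, hRU⟩ := Metric.isOpen_iff.mp hU u₀ hu₀
  set r := R / 4 with hr
  have hr0 : 0 < r := by positivity
  let b : ContDiffBump u₀ := ⟨2 * r, 3 * r, by positivity, by linarith⟩
  let g : ContDiffBump u₀ := ⟨r, 2 * r, hr0, by linarith⟩
  have hbU : tsupport b ⊆ U := by
    rw [b.tsupport_eq]
    exact (closedBall_subset_ball (by show 3 * r < R; linarith)).trans hRU
  have hsub : ball u₀ (2 * r) ⊆ U := (ball_subset_ball (by linarith)).trans hRU
  let ψ : E m → E n := fun u => b u • φ u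
  have hψ : ∀ u ∈ ball u₀ (2 * r), ψ u = φ u := fun u hu => by
    simp only [ψ]
    rw [b.one_of_mem_closedBall (ball_subset_closedBall hu), one_smul]
  have hψe : ∀ u ∈ ball u₀ (2 * r), ψ =ᶠ[𝓝 u] φ := fun u hu =>
    eventually_of_mem (isOpen_ball.mem_nhds hu) hψ
  have hD : ∀ u ∈ ball u₀ (2 * r), fderiv ℝ ψ u = fderiv ℝ φ u := fun u hu =>
    (hψe u hu).fderiv_eq
  have hT : ∀ u ∈ ball u₀ (2 * r), tang ψ u = tang φ u := fun u hu => by
    funext j
    simp only [tang, hD u hu]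
  have hMs : ∀ u ∈ U, φ u ∈ M := fun u hu => by
    obtain ⟨W, -, hW⟩ := hopen U subset_rfl hU
    exact (hW ▸ mem_image_of_mem φ hu : φ u ∈ M ∩ W).1
  obtain ⟨W, hWo, hW⟩ := hopen (ball u₀ r) ((ball_subset_ball (by linarith)).trans hsub) isOpen_ball
  have hsp : ∀ u ∈ ball u₀ (2 * r), ∀ j, tang φ u j ∈ Submodule.span ℝ (range (e (φ u))) := by
    intro u hu j
    rw [span_eq_of_le (hM.2 _ (hMs u (hsub hu))).1 (S := (fderiv ℝ φ u).toLinearMap.range)
      ((LinearMap.finrank_range_le _).trans (by simp)) ((hor u (hsub hu)).1)]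
    exact ⟨_, rfl⟩
  refine ⟨ψ, u₀, r, W, g, ⟨contDiff_cut hU hφ b.contDiff hbU, hr0, ?_, ?_, ?_, hWo, ?_, ?_, ?_, ?_,
    ?_, ?_, g.contDiff, fun u => g.nonneg, fun u => g.le_one, fun u hu => g.one_of_mem_closedBall hu,
    ?_⟩, ?_, hψ _ (mem_ball_self (by positivity))⟩
  · intro u hu v hv h
    rw [hψ u hu, hψ v hv] at h
    exact hinj (hsub hu) (hsub hv) h
  · intro u hu
    rw [hD u hu]
    exact himm u (hsub hu)
  · intro u hu
    rw [hψ u hu]
    exact hMs u (hsub hu)
  · rw [← hW]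
    exact image_congr fun u hu => hψ u (ball_subset_ball (by linarith) hu)
  · intro u hu
    rw [Filter.map_congr (hψe u hu), hψ u hu]
    intro S hS
    rw [Filter.mem_map] at hS
    obtain ⟨V, hV1, hV2, hV3⟩ := _root_.mem_nhds_iff.mp (inter_mem hS (hU.mem_nhds (hsub hu)))
    obtain ⟨W', hW'o, hW'⟩ := hopen V (fun v hv => (hV1 hv).2) hV2
    have h1 : φ u ∈ M ∩ W' := hW' ▸ mem_image_of_mem φ hV3
    refine mem_of_superset (inter_mem_nhdsWithin M (hW'o.mem_nhds h1.2)) ?_
    rw [← hW']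
    rintro _ ⟨v, hv, rfl⟩
    exact (hV1 hv).1
  · intro u hu
    rw [hψ u hu]
    exact (hM.2 _ (hMs u (hsub hu))).1
  · intro u hu
    rw [hψ u hu, hD u hu]
    exact (hor u (hsub hu)).1
  · intro u hu
    rw [hψ u hu, hT u hu]
    exact hsp u hu
  · intro u hu
    rw [jac, hψ u hu, hT u hu]
    exact sqrt_pairing (hM.2 _ (hMs u (hsub hu))).1 (hsp u hu) (hor u (hsub hu)).2
  · intro u hu
    have : u ∈ Function.support g := hu
    rwa [g.support_eq] at this
  · exact (hW ▸ mem_image_of_mem φ (mem_ball_self hr0) : φ u₀ ∈ M ∩ W).2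

section
variable {M : Set (E n)} {e : E n → Fin m → E n} {φ : E m → E n} {u₀ : E m} {r : ℝ}
  {W : Set (E n)} {γ : E m → ℝ}

lemma GC.bsub (h : GC M e φ u₀ r W γ) : ball u₀ r ⊆ ball u₀ (2 * r) :=
  ball_subset_ball (by linarith [h.rpos])

lemma GC.c1 (h : GC M e φ u₀ r W γ) : ContDiff ℝ 1 φ := h.smooth.of_le (by simp)

lemma GC.vol_restrict (h : GC M e φ u₀ r W γ) : (vol m M).restrict W =
    Measure.map φ ((volume.restrict (ball u₀ r)).withDensity fun u => ENNReal.ofReal (jac φ u)) := by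
  rw [vol, Measure.restrict_restrict h.Wopen.measurableSet, inter_comm, ← h.img]
  exact area_map h.c1 measurableSet_ball (h.inj.mono h.bsub) fun u hu => h.imm u (h.bsub hu)

lemma GC.mem_ball (h : GC M e φ u₀ r W γ) {u : E m} (hu : γ u ≠ 0) (hW : φ u ∈ W) :
    u ∈ ball u₀ r := by
  have h1 := h.gsupp u hu
  obtain ⟨v, hv, hvu⟩ : φ u ∈ φ '' ball u₀ r := h.img ▸ ⟨h.sub u h1, hW⟩
  rw [← h.inj (h.bsub hv) h1 hvu]
  exact hv

end

theorem vol_finite {M : Set (E n)} {e : E n → Fin m → E n}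
    (hM : IsOrientedClosedSubmanifold m M e) : IsFiniteMeasure (vol m M) := by
  rw [vol, isFiniteMeasure_restrict]
  refine (hM.1.measure_lt_top_of_nhdsWithin fun x hx => ?_).ne
  obtain ⟨φ, u₀, r, W, γ, h, hxW, -⟩ := exists_GC hM hx
  refine ⟨M ∩ W, inter_mem_nhdsWithin M (h.Wopen.mem_nhds hxW), ?_⟩
  rw [← h.img, area_formula h.c1 measurableSet_ball (h.inj.mono h.bsub)
    fun u hu => h.imm u (h.bsub hu)]
  have := ((jac_continuous h.c1).continuousOn.integrableOn_compact (μ := volume)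
    (isCompact_closedBall u₀ r)).mono_set ball_subset_closedBall
  exact this.lintegral_lt_top

lemma ae_mem_vol {M : Set (E n)} (hM : IsCompact M) : ∀ᵐ x ∂(vol m M), x ∈ M :=
  ae_restrict_mem hM.measurableSet

lemma ae_mem_vol2 {M : Set (E n)} (hM : IsCompact M) [SFinite (vol m M)] :
    ∀ᵐ p ∂((vol m M).prod (vol m M)), p ∈ M ×ˢ M := by
  filter_upwards [Measure.quasiMeasurePreserving_fst.ae (ae_mem_vol (m := m) hM),
    Measure.quasiMeasurePreserving_snd.ae (ae_mem_vol (m := m) hM)] with p h1 h2 using ⟨h1, h2⟩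

lemma integral_map_injOn {X Y : Type*} [TopologicalSpace X] [PolishSpace X] [MeasurableSpace X]
    [BorelSpace X] [TopologicalSpace Y] [T2Space Y] [MeasurableSpace Y] [BorelSpace Y]
    {f : X → Y} (hf : Continuous f) {s : Set X} (hs : MeasurableSet s) (hinj : InjOn f s)
    {ν : Measure X} (hν : ∀ᵐ x ∂ν, x ∈ s) (g : Y → ℂ) :
    (Integrable g (Measure.map f ν) ↔ Integrable (fun x => g (f x)) ν) ∧
      ∫ y, g y ∂(Measure.map f ν) = ∫ x, g (f x) ∂ν := by
  have h1 : ν = Measure.map ((↑) : s → X) (Measure.comap (↑) ν) := by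
    rw [map_comap_subtype_coe hs, Measure.restrict_eq_self_of_ae_mem hν]
  have h2 := hf.continuousOn.measurableEmbedding hs hinj
  have h3 := MeasurableEmbedding.subtype_coe hs
  have h4 : Measure.map f ν = Measure.map (s.domRestrict f) (Measure.comap (↑) ν) := by
    conv_lhs => rw [h1]
    rw [Measure.map_map hf.measurable h3.measurable]
    rfl
  constructor
  · rw [h4, h2.integrable_map_iff]
    conv_rhs => rw [h1]
    rw [h3.integrable_map_iff]
    rfl
  · rw [h4, h2.integral_map]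
    conv_rhs => rw [h1]
    rw [h3.integral_map]
    rfl

end Pool.Agent.Lib.MP_34b615_gt
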