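import Mathlib
import Pool.Agent.Lib.MP_34b615_gt.Holo

set_option autoImplicit false

open MeasureTheory Filter Topology Metric Set

namespace Pool.Agent.Lib.MP_34b615_gt

variable {X : Type*} [TopologicalSpace X]

/-- Jointly continuous and holomorphic in the first variable. -/
def Base (F : ℂ → X → ℝ → ℂ) : Prop :=
  Continuous (fun p : ℂ × X × ℝ => F p.1 p.2.1 p.2.2) ∧
    ∀ ξ t, Differentiable ℂ (fun z => F z ξ t)

/-- Derivative in the last variable. -/
noncomputable def Dt (F : ℂ → X → ℝ → ℂ) : ℂ → X → ℝ → ℂ := fun z ξ t => deriv (F z ξ) t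

/-- `k` derivatives in the last variable, all of them in `Base`. -/
def Cls : ℕ → (ℂ → X → ℝ → ℂ) → Prop
  | 0, F => Base F
  | k + 1, F => Base F ∧ (∀ z ξ t, DifferentiableAt ℝ (F z ξ) t) ∧ Cls k (Dt F)

lemma Cls.base {k : ℕ} {F : ℂ → X → ℝ → ℂ} (h : Cls k F) : Base F := by
  cases k with
  | zero => exact h
  | succ k => exact h.1

lemma Cls.of_succ {k : ℕ} {F : ℂ → X → ℝ → ℂ} (h : Cls (k + 1) F) : Cls k F := by
  induction k generalizing F with
  | zero => exact h.1
  | succ k ih => exact ⟨h.1, h.2.1, ih h.2.2⟩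

lemma cls_succ_of {k : ℕ} {F F' : ℂ → X → ℝ → ℂ} (hb : Base F)
    (hd : ∀ z ξ t, HasDerivAt (F z ξ) (F' z ξ t) t) (h : Cls k F') : Cls (k + 1) F := by
  refine ⟨hb, fun z ξ t => (hd z ξ t).differentiableAt, ?_⟩
  have : Dt F = F' := by
    funext z ξ t
    exact (hd z ξ t).deriv
  rwa [this]

lemma Cls.hasDerivAt {k : ℕ} {F : ℂ → X → ℝ → ℂ} (h : Cls (k + 1) F) (z : ℂ) (ξ : X) (t : ℝ) :
    HasDerivAt (F z ξ) (Dt F z ξ t) t := (h.2.1 z ξ t).hasDerivAt

lemma Base.add {F G : ℂ → X → ℝ → ℂ} (hF : Base F) (hG : Base G) :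
    Base (fun z ξ t => F z ξ t + G z ξ t) :=
  ⟨hF.1.add hG.1, fun ξ t => (hF.2 ξ t).add (hG.2 ξ t)⟩

lemma Base.mul {F G : ℂ → X → ℝ → ℂ} (hF : Base F) (hG : Base G) :
    Base (fun z ξ t => F z ξ t * G z ξ t) :=
  ⟨hF.1.mul hG.1, fun ξ t => (hF.2 ξ t).mul (hG.2 ξ t)⟩

lemma Cls.add {k : ℕ} {F G : ℂ → X → ℝ → ℂ} (hF : Cls k F) (hG : Cls k G) :
    Cls k (fun z ξ t => F z ξ t + G z ξ t) := by
  induction k generalizing F G with
  | zero => exact Base.add hF hG
  | succ k ih =>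
    exact cls_succ_of (hF.1.add hG.1)
      (fun z ξ t => (hF.hasDerivAt z ξ t).add (hG.hasDerivAt z ξ t)) (ih hF.2.2 hG.2.2)

lemma Cls.mul {k : ℕ} {F G : ℂ → X → ℝ → ℂ} (hF : Cls k F) (hG : Cls k G) :
    Cls k (fun z ξ t => F z ξ t * G z ξ t) := by
  induction k generalizing F G with
  | zero => exact Base.mul hF hG
  | succ k ih =>
    exact cls_succ_of (hF.1.mul hG.1)
      (fun z ξ t => (hF.hasDerivAt z ξ t).mul (hG.hasDerivAt z ξ t))
      ((ih hF.2.2 hG.of_succ).add (ih hF.of_succ hG.2.2))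

lemma cls_entire (k : ℕ) (g : ℂ → ℂ) (hg : Differentiable ℂ g) :
    Cls k (fun z (_ : X) (_ : ℝ) => g z) := by
  induction k generalizing g with
  | zero => exact ⟨hg.continuous.comp continuous_fst, fun _ _ => hg⟩
  | succ k ih =>
    exact cls_succ_of (F' := fun _ _ _ => 0) ⟨hg.continuous.comp continuous_fst, fun _ _ => hg⟩
      (fun z ξ t => hasDerivAt_const t _) (ih (fun _ => 0) (differentiable_const _))

lemma Cls.sum {k : ℕ} {ι : Type*} (s : Finset ι) {F : ι → ℂ → X → ℝ → ℂ}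
    (h : ∀ i ∈ s, Cls k (F i)) : Cls k (fun z ξ t => ∑ i ∈ s, F i z ξ t) := by
  classical
  induction s using Finset.induction_on with
  | empty => simpa using cls_entire k (fun _ => 0) (differentiable_const _)
  | insert a s ha ih =>
    simp only [Finset.sum_insert ha]
    exact (h a (Finset.mem_insert_self _ _)).add
      (ih fun i hi => h i (Finset.mem_insert_of_mem hi))

lemma Cls.comp {k : ℕ} {F : ℂ → X → ℝ → ℂ} (hF : Cls k F) {V : Set ℂ} (hV : IsOpen V)
    (hFV : ∀ z ξ t, F z ξ t ∈ V) {g : ℂ → ℂ} (hg : DifferentiableOn ℂ g V) :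
    Cls k (fun z ξ t => g (F z ξ t)) := by
  have hbase : ∀ g : ℂ → ℂ, DifferentiableOn ℂ g V → Base (fun z ξ t => g (F z ξ t)) := by
    intro g hg
    refine ⟨hg.continuousOn.comp_continuous hF.base.1 (fun p => hFV _ _ _), fun ξ t z => ?_⟩
    exact (hg.differentiableAt (hV.mem_nhds (hFV z ξ t))).comp z (hF.base.2 ξ t z)
  induction k generalizing g with
  | zero => exact hbase g hg
  | succ k ih =>
    refine cls_succ_of (F' := fun z ξ t => deriv g (F z ξ t) * Dt F z ξ t) (hbase g hg)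
      (fun z ξ t => ?_) ((ih hF.of_succ (hg.deriv hV)).mul hF.2.2)
    have h1 := (hg.differentiableAt (hV.mem_nhds (hFV z ξ t))).hasDerivAt
    exact h1.comp_of_eq t (hF.hasDerivAt z ξ t) rfl

lemma Cls.pullback {Y : Type*} [TopologicalSpace Y] {k : ℕ} {F : ℂ → X → ℝ → ℂ} (hF : Cls k F)
    {p : Y → X} (hp : Continuous p) : Cls k (fun z η t => F z (p η) t) := by
  have hb : ∀ F : ℂ → X → ℝ → ℂ, Base F → Base (fun z η t => F z (p η) t) := by
    intro F hF
    refine ⟨?_, fun η t => hF.2 (p η) t⟩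
    exact hF.1.comp (continuous_fst.prodMk ((hp.comp continuous_snd.fst).prodMk
      continuous_snd.snd))
  induction k generalizing F with
  | zero => exact hb F hF
  | succ k ih => exact ⟨hb F hF.1, fun z η t => hF.2.1 z (p η) t, ih hF.2.2⟩

lemma Cls.neg_arg {k : ℕ} {F : ℂ → X → ℝ → ℂ} (hF : Cls k F) :
    Cls k (fun z ξ t => F z ξ (-t)) := by
  have hb : ∀ F : ℂ → X → ℝ → ℂ, Base F → Base (fun z ξ t => F z ξ (-t)) := by
    intro F hF
    refine ⟨?_, fun ξ t => hF.2 ξ (-t)⟩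
    exact hF.1.comp (continuous_fst.prodMk (continuous_snd.fst.prodMk continuous_snd.snd.neg))
  induction k generalizing F with
  | zero => exact hb F hF
  | succ k ih =>
    refine cls_succ_of (F' := fun z ξ t => (-1 : ℂ) * Dt F z ξ (-t)) (hb F hF.1)
      (fun z ξ t => ?_) ((cls_entire k (fun _ => -1) (differentiable_const _)).mul (ih hF.2.2))
    have h1 := (hF.hasDerivAt z ξ (-t)).scomp t (hasDerivAt_neg t)
    simpa [Function.comp_def] using h1

/-- Smooth functions of the parameter and the last variable are in the class. -/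
lemma cls_smooth {V : Type*} [NormedAddCommGroup V] [NormedSpace ℝ V] (k : ℕ)
    (Θ : V × ℝ → ℂ) (hΘ : ContDiff ℝ (⊤ : ℕ∞) Θ) :
    Cls k (fun (_ : ℂ) (ξ : V) (t : ℝ) => Θ (ξ, t)) := by
  induction k generalizing Θ with
  | zero => exact ⟨hΘ.continuous.comp continuous_snd, fun _ _ => differentiable_const _⟩
  | succ k ih =>
    have h1 : ContDiff ℝ (⊤ : ℕ∞) (fun p : V × ℝ => fderiv ℝ Θ p (0, 1)) :=
      (hΘ.fderiv_right (m := (⊤ : ℕ∞)) (by simp)).clm_apply contDiff_const
    refine cls_succ_of (F' := fun _ ξ t => fderiv ℝ Θ (ξ, t) (0, 1))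
      ⟨hΘ.continuous.comp continuous_snd, fun _ _ => differentiable_const _⟩
      (fun z ξ t => ?_) (ih _ h1)
    have h2 := ((hΘ.differentiable (by simp)) (ξ, t)).hasFDerivAt
    have h3 : HasDerivAt (fun t : ℝ => ((ξ, t) : V × ℝ)) (0, 1) t :=
      (hasDerivAt_const t ξ).prodMk (hasDerivAt_id t)
    exact h2.comp_hasDerivAt t h3

/-- Weighted Hadamard averaging. -/
noncomputable def Had (g : ℝ → ℂ) (F : ℂ → X → ℝ → ℂ) : ℂ → X → ℝ → ℂ :=
  fun z ξ t => ∫ s in (0 : ℝ)..1, g s * F z ξ (s * t)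

lemma Base.had {g : ℝ → ℂ} (hg : Continuous g) {F : ℂ → X → ℝ → ℂ} (hF : Base F) :
    Base (Had g F) := by
  have hc : Continuous (fun q : (ℂ × X × ℝ) × ℝ => g q.2 * F q.1.1 q.1.2.1 (q.2 * q.1.2.2)) := by
    refine (hg.comp continuous_snd).mul ?_
    exact hF.1.comp (continuous_fst.fst.prodMk (continuous_fst.snd.fst.prodMk
      (continuous_snd.mul continuous_fst.snd.snd)))
  refine ⟨?_, fun ξ t => ?_⟩
  · exact intervalIntegral.continuous_parametric_intervalIntegral_of_continuous'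
      (f := fun (p : ℂ × X × ℝ) (s : ℝ) => g s * F p.1 p.2.1 (s * p.2.2)) hc 0 1
  · simp only [Had, intervalIntegral.integral_of_le zero_le_one]
    rw [← differentiableOn_univ]
    have hc2 : Continuous (fun q : ℂ × ℝ => g q.2 * F q.1 ξ (q.2 * t)) :=
      hc.comp (f := fun q : ℂ × ℝ => ((q.1, ξ, t), q.2)) (by fun_prop)
    apply differentiableOn_param_integral _ _ _ isOpen_univ
    · intro z _
      exact (hc2.comp (f := fun s : ℝ => (z, s)) (by fun_prop)).aestronglyMeasurable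
    · exact Eventually.of_forall fun s =>
        ((differentiable_const _).mul (hF.2 ξ (s * t))).differentiableOn
    · intro z₀ _
      obtain ⟨C, hC⟩ := ((isCompact_closedBall z₀ 1).prod (isCompact_Icc (a := (0 : ℝ))
        (b := 1))).exists_bound_of_continuousOn hc2.continuousOn
      refine ⟨1, one_pos, fun _ => C, integrable_const _, ?_⟩
      filter_upwards [ae_restrict_mem measurableSet_Ioc] with s hs z hz _
      exact hC (z, s) ⟨ball_subset_closedBall hz, Ioc_subset_Icc_self hs⟩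

lemma hasDerivAt_had {g : ℝ → ℂ} (hg : Continuous g) {k : ℕ} {F : ℂ → X → ℝ → ℂ}
    (hF : Cls (k + 1) F) (z : ℂ) (ξ : X) (t : ℝ) :
    HasDerivAt (Had g F z ξ) (Had (fun s => g s * s) (Dt F) z ξ t) t := by
  have hc0 : Continuous (F z ξ) :=
    hF.1.1.comp (f := fun t : ℝ => (z, ξ, t)) (by fun_prop)
  have hc1 : Continuous (Dt F z ξ) :=
    hF.2.2.base.1.comp (f := fun t : ℝ => (z, ξ, t)) (by fun_prop)
  have hc2 : Continuous (fun q : ℝ × ℝ => g q.2 * q.2 * Dt F z ξ (q.2 * q.1)) := by fun_prop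
  obtain ⟨C, hC⟩ := ((isCompact_closedBall t 1).prod (isCompact_Icc (a := (0 : ℝ))
    (b := 1))).exists_bound_of_continuousOn hc2.continuousOn
  have key := intervalIntegral.hasDerivAt_integral_of_dominated_loc_of_deriv_le
    (μ := volume) (a := 0) (b := 1) (bound := fun _ => C)
    (F := fun (x : ℝ) (s : ℝ) => g s * F z ξ (s * x))
    (F' := fun (x : ℝ) (s : ℝ) => g s * s * Dt F z ξ (s * x)) (x₀ := t)
    (ball_mem_nhds t one_pos)
    (Eventually.of_forall fun x => Continuous.aestronglyMeasurable (by fun_prop))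
    (Continuous.intervalIntegrable (by fun_prop) _ _)
    (Continuous.aestronglyMeasurable (by fun_prop))
    (Eventually.of_forall fun s hs x hx => by
      rw [uIoc_of_le zero_le_one] at hs
      exact hC (x, s) ⟨ball_subset_closedBall hx, Ioc_subset_Icc_self hs⟩)
    intervalIntegrable_const
    (Eventually.of_forall fun s _ x _ => by
      have h1 := (hF.hasDerivAt z ξ (s * x)).scomp x ((hasDerivAt_id x).const_mul s)
      have h2 := h1.const_mul (g s)
      simpa [Function.comp_def, mul_assoc] using h2)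
  exact key.2

lemma Cls.had {k : ℕ} {g : ℝ → ℂ} (hg : Continuous g) {F : ℂ → X → ℝ → ℂ} (hF : Cls k F) :
    Cls k (Had g F) := by
  induction k generalizing g F with
  | zero => exact Base.had hg hF
  | succ k ih =>
    exact cls_succ_of (hF.1.had hg) (hasDerivAt_had hg hF)
      (ih (hg.mul Complex.continuous_ofReal) hF.2.2)

lemma had_spec {k : ℕ} {F : ℂ → X → ℝ → ℂ} (hF : Cls (k + 1) F) (z : ℂ) (ξ : X) (t : ℝ) :
    (t : ℂ) * Had (fun _ => 1) (Dt F) z ξ t = F z ξ t - F z ξ 0 := by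
  have hc1 : Continuous (Dt F z ξ) :=
    hF.2.2.base.1.comp (f := fun t : ℝ => (z, ξ, t)) (by fun_prop)
  have h := intervalIntegral.integral_eq_sub_of_hasDerivAt (a := 0) (b := 1)
    (f := fun s : ℝ => F z ξ (s * t)) (f' := fun s => (t : ℂ) * Dt F z ξ (s * t))
    (fun s _ => by
      have h1 := (hF.hasDerivAt z ξ (s * t)).scomp s ((hasDerivAt_id s).mul_const t)
      simpa [Function.comp_def] using h1)
    (Continuous.intervalIntegrable (by fun_prop) _ _)
  simp only [Had, one_mul]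
  rw [← intervalIntegral.integral_const_mul, h]
  simp

omit [TopologicalSpace X] in
lemma had_zero (F : ℂ → X → ℝ → ℂ) (z : ℂ) (ξ : X) :
    Had (fun _ => 1) F z ξ 0 = F z ξ 0 := by
  simp [Had]

end Pool.Agent.Lib.MP_34b615_gt
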