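import Mathlib
import Pool.Agent.Lib.MP_34b615_gt.Cls

set_option autoImplicit false
set_option linter.unusedSectionVars false
set_option linter.unusedVariables false

open MeasureTheory Filter Topology Metric Set

namespace Pool.Agent.Lib.MP_34b615_gt

variable {X : Type*} [TopologicalSpace X] [MeasurableSpace X] [BorelSpace X]
  [SecondCountableTopology X]

/-- The Mellin integrand. -/
noncomputable def melI (s : ℝ) (F : ℂ → X → ℝ → ℂ) (z : ℂ) (p : X × ℝ) : ℂ :=
  (p.2 : ℂ) ^ (z + s - 1) * F z p.1 p.2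

lemma melI_meas (ν : Measure X) (s : ℝ) {F : ℂ → X → ℝ → ℂ} (hF : Base F) (z : ℂ) :
    AEStronglyMeasurable (melI s F z) (ν.prod (volume.restrict (Ioi 0))) := by
  apply Measurable.aestronglyMeasurable
  unfold melI
  apply Measurable.mul
  · exact (Complex.measurable_ofReal.comp measurable_snd).pow_const _
  · exact (hF.1.comp (f := fun p : X × ℝ => (z, p)) (by fun_prop)).measurable

lemma melI_bound (ν : Measure X) [IsFiniteMeasure ν] {K : Set X} (hK : IsCompact K)
    (hν : ∀ᵐ ξ ∂ν, ξ ∈ K) {R : ℝ} (hR : 0 < R) (s : ℝ) {F : ℂ → X → ℝ → ℂ} (hF : Base F)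
    (hs : ∀ z ξ t, R < t → F z ξ t = 0) (z₀ : ℂ) (hz₀ : -s < z₀.re) :
    ∃ ε > 0, ∃ bound : X × ℝ → ℝ, Integrable bound (ν.prod (volume.restrict (Ioi 0))) ∧
      ∀ᵐ p ∂(ν.prod (volume.restrict (Ioi 0))), ∀ z ∈ ball z₀ ε, ‖melI s F z p‖ ≤ bound p := by
  set ε := (z₀.re + s) / 2 with hε
  have hεpos : 0 < ε := by rw [hε]; linarith
  obtain ⟨C, hC⟩ := ((isCompact_closedBall z₀ ε).prod (hK.prod (isCompact_Icc (a := (0 : ℝ))
    (b := R)))).exists_bound_of_continuousOn hF.1.continuousOn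
  let b : ℝ → ℝ := (Ioc 0 R).indicator fun t => t ^ (ε - 1) + t ^ (3 * ε - 1)
  have hb : Integrable b (volume.restrict (Ioi 0)) := by
    apply Integrable.restrict
    rw [integrable_indicator_iff measurableSet_Ioc]
    have h1 := (intervalIntegral.intervalIntegrable_rpow' (r := ε - 1) (a := 0) (b := R)
      (by linarith)).1
    have h2 := (intervalIntegral.intervalIntegrable_rpow' (r := 3 * ε - 1) (a := 0) (b := R)
      (by linarith)).1
    exact h1.add h2
  refine ⟨ε, hεpos, fun p => C * b p.2, (integrable_const C).mul_prod hb, ?_⟩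
  have h1 : ∀ᵐ p ∂(ν.prod (volume.restrict (Ioi (0 : ℝ)))), p.1 ∈ K :=
    Measure.quasiMeasurePreserving_fst.ae hν
  have h2 : ∀ᵐ p ∂(ν.prod (volume.restrict (Ioi (0 : ℝ)))), p.2 ∈ Ioi (0 : ℝ) :=
    Measure.quasiMeasurePreserving_snd.ae (ae_restrict_mem measurableSet_Ioi)
  filter_upwards [h1, h2] with p hp1 hp2 z hz
  have ht : 0 < p.2 := hp2
  by_cases hR' : R < p.2
  · have : b p.2 = 0 := by
      simp only [b]
      rw [indicator_of_notMem]
      intro h
      exact absurd h.2 (not_le.mpr hR')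
    simp [melI, hs z p.1 p.2 hR', this]
  · push Not at hR'
    have hbv : b p.2 = p.2 ^ (ε - 1) + p.2 ^ (3 * ε - 1) := by
      simp only [b]
      rw [indicator_of_mem (show p.2 ∈ Ioc 0 R from ⟨ht, hR'⟩)]
    have hFb : ‖F z p.1 p.2‖ ≤ C :=
      hC (z, p.1, p.2) ⟨ball_subset_closedBall hz, hp1, ht.le, hR'⟩
    have hre : |z.re - z₀.re| < ε := by
      have := Complex.abs_re_le_norm (z - z₀)
      rw [mem_ball, dist_eq_norm] at hz
      simp only [Complex.sub_re] at this
      linarith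
    rw [abs_lt] at hre
    have hpow : ‖(p.2 : ℂ) ^ (z + s - 1)‖ ≤ p.2 ^ (ε - 1) + p.2 ^ (3 * ε - 1) := by
      rw [Complex.norm_cpow_eq_rpow_re_of_pos ht]
      simp only [Complex.sub_re, Complex.add_re, Complex.ofReal_re, Complex.one_re]
      have p1 : 0 ≤ p.2 ^ (ε - 1) := Real.rpow_nonneg ht.le _
      have p2 : 0 ≤ p.2 ^ (3 * ε - 1) := Real.rpow_nonneg ht.le _
      rcases le_total p.2 1 with h | h
      · have := Real.rpow_le_rpow_of_exponent_ge ht h
          (show ε - 1 ≤ z.re + s - 1 by linarith)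
        linarith
      · have := Real.rpow_le_rpow_of_exponent_le h
          (show z.re + s - 1 ≤ 3 * ε - 1 by linarith)
        linarith
    rw [melI, norm_mul, hbv, mul_comm C]
    exact mul_le_mul hpow hFb (norm_nonneg _) ((norm_nonneg _).trans hpow)

lemma melI_integrable (ν : Measure X) [IsFiniteMeasure ν] {K : Set X} (hK : IsCompact K)
    (hν : ∀ᵐ ξ ∂ν, ξ ∈ K) {R : ℝ} (hR : 0 < R) (s : ℝ) {F : ℂ → X → ℝ → ℂ} (hF : Base F)
    (hs : ∀ z ξ t, R < t → F z ξ t = 0) (z : ℂ) (hz : -s < z.re) :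
    Integrable (melI s F z) (ν.prod (volume.restrict (Ioi 0))) := by
  obtain ⟨ε, hε, bound, hb, hbb⟩ := melI_bound ν hK hν hR s hF hs z hz
  refine hb.mono' (melI_meas ν s hF z) ?_
  filter_upwards [hbb] with p hp using hp z (mem_ball_self hε)

lemma melI_holo (ν : Measure X) [IsFiniteMeasure ν] {K : Set X} (hK : IsCompact K)
    (hν : ∀ᵐ ξ ∂ν, ξ ∈ K) {R : ℝ} (hR : 0 < R) (s : ℝ) {F : ℂ → X → ℝ → ℂ} (hF : Base F)
    (hs : ∀ z ξ t, R < t → F z ξ t = 0) :
    DifferentiableOn ℂ (fun z => ∫ p, melI s F z p ∂(ν.prod (volume.restrict (Ioi 0))))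
      {z | -s < z.re} := by
  apply differentiableOn_param_integral _ _ _ (isOpen_lt continuous_const Complex.continuous_re)
  · exact fun z _ => melI_meas ν s hF z
  · have h2 : ∀ᵐ p ∂(ν.prod (volume.restrict (Ioi (0 : ℝ)))), p.2 ∈ Ioi (0 : ℝ) :=
      Measure.quasiMeasurePreserving_snd.ae (ae_restrict_mem measurableSet_Ioi)
    filter_upwards [h2] with p hp
    have ht : (p.2 : ℂ) ≠ 0 := by exact_mod_cast (ne_of_gt hp)
    apply Differentiable.differentiableOn
    unfold melI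
    refine Differentiable.mul ?_ (hF.2 _ _)
    exact Differentiable.const_cpow (by fun_prop) (Or.inl ht)
  · intro z₀ hz₀
    obtain ⟨ε, hε, bound, hb, hbb⟩ := melI_bound ν hK hν hR s hF hs z₀ hz₀
    refine ⟨ε, hε, bound, hb, ?_⟩
    filter_upwards [hbb] with p hp z hz _ using hp z hz

/-- The operator `F ↦ F' / t` on even functions. -/
noncomputable def nextF (F : ℂ → X → ℝ → ℂ) : ℂ → X → ℝ → ℂ := Had (fun _ => 1) (Dt (Dt F))

omit [TopologicalSpace X] [MeasurableSpace X] [BorelSpace X] [SecondCountableTopology X] in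
lemma Dt_odd {F : ℂ → X → ℝ → ℂ} (he : ∀ z ξ t, F z ξ (-t) = F z ξ t) (z : ℂ) (ξ : X) (t : ℝ) :
    Dt F z ξ (-t) = -Dt F z ξ t := by
  have h : (fun t => F z ξ (-t)) = F z ξ := funext (he z ξ)
  have := deriv_comp_neg (F z ξ) t
  rw [h] at this
  simp only [Dt]
  rw [this, neg_neg]

omit [TopologicalSpace X] [MeasurableSpace X] [BorelSpace X] [SecondCountableTopology X] in
lemma Dt_Dt_even {F : ℂ → X → ℝ → ℂ} (he : ∀ z ξ t, F z ξ (-t) = F z ξ t) (z : ℂ) (ξ : X)
    (t : ℝ) : Dt (Dt F) z ξ (-t) = Dt (Dt F) z ξ t := by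
  have h : (fun t => Dt F z ξ (-t)) = fun t => -Dt F z ξ t := funext (Dt_odd he z ξ)
  have := deriv_comp_neg (Dt F z ξ) t
  rw [h, deriv.fun_neg] at this
  exact (neg_injective this).symm

omit [MeasurableSpace X] [BorelSpace X] [SecondCountableTopology X] in
lemma nextF_spec {F : ℂ → X → ℝ → ℂ} (hF : ∀ k, Cls k F) (he : ∀ z ξ t, F z ξ (-t) = F z ξ t)
    (z : ℂ) (ξ : X) (t : ℝ) : (t : ℂ) * nextF F z ξ t = Dt F z ξ t := by
  have h := had_spec (k := 0) (hF 2).2.2 z ξ t
  have h0 : Dt F z ξ 0 = 0 := by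
    have := Dt_odd he z ξ 0
    rw [neg_zero] at this
    linear_combination (1 / 2 : ℂ) * this
  rw [h0, sub_zero] at h
  exact h

lemma melI_step (ν : Measure X) [IsFiniteMeasure ν] {K : Set X} (hK : IsCompact K)
    (hν : ∀ᵐ ξ ∂ν, ξ ∈ K) {R : ℝ} (hR : 0 < R) (s : ℝ) {F : ℂ → X → ℝ → ℂ} (hF : ∀ k, Cls k F)
    (he : ∀ z ξ t, F z ξ (-t) = F z ξ t)
    (hs : ∀ z ξ t, R < t → F z ξ t = 0) (hs' : ∀ z ξ t, R < t → nextF F z ξ t = 0)
    (z : ℂ) (hz : -s < z.re) :
    (z + s) * ∫ p, melI s F z p ∂(ν.prod (volume.restrict (Ioi 0))) =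
      -∫ p, melI (s + 2) (nextF F) z p ∂(ν.prod (volume.restrict (Ioi 0))) := by
  have hN : Base (nextF F) := ((hF 2).2.2.2.2.had (k := 0) continuous_const).base
  have i1 := melI_integrable ν hK hν hR s (hF 0).base hs z hz
  have i2 := melI_integrable ν hK hν hR (s + 2) hN hs' z (by linarith)
  have i3 : Integrable (fun p => (z + s) * melI s F z p + melI (s + 2) (nextF F) z p)
      (ν.prod (volume.restrict (Ioi 0))) := (i1.const_mul _).add i2
  rw [eq_neg_iff_add_eq_zero, ← integral_const_mul, ← integral_add (i1.const_mul _) i2,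
    integral_prod _ i3]
  apply integral_eq_zero_of_ae
  filter_upwards [i3.prod_right_ae] with ξ hξ
  have ha : 0 < (z + s).re := by simp; linarith
  have ha0 : z + s ≠ 0 := fun h => by rw [h] at ha; simp at ha
  have hc0 : Continuous (F z ξ) :=
    (hF 0).base.1.comp (f := fun t : ℝ => (z, ξ, t)) (by fun_prop)
  have key := integral_Ioi_of_hasDerivAt_of_tendsto (a := 0) (m := 0)
    (f := fun t : ℝ => (t : ℂ) ^ (z + s) * F z ξ t)
    (f' := fun t : ℝ => (z + s) * melI s F z (ξ, t) + melI (s + 2) (nextF F) z (ξ, t))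
    (((Complex.continuous_ofReal_cpow_const ha).mul hc0).continuousWithinAt)
    (fun t ht => by
      have ht0 : t ≠ 0 := ne_of_gt ht
      have ht1 : (t : ℂ) ≠ 0 := by exact_mod_cast ht0
      have h1 := (hasDerivAt_ofReal_cpow_const ht0 ha0).mul ((hF 1).hasDerivAt z ξ t)
      refine h1.congr_deriv ?_
      simp only [melI]
      rw [← nextF_spec hF he z ξ t]
      have e : (t : ℂ) ^ (z + ((s + 2 : ℝ) : ℂ) - 1) = (t : ℂ) ^ (z + s) * t := by
        rw [show z + ((s + 2 : ℝ) : ℂ) - 1 = (z + s) + 1 by push_cast; ring,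
          Complex.cpow_add _ _ ht1, Complex.cpow_one]
      rw [e]
      ring)
    hξ
    (by
      apply tendsto_const_nhds.congr'
      filter_upwards [eventually_gt_atTop R] with t ht
      rw [hs z ξ t ht, mul_zero])
  rw [key]
  simp [ha0]

theorem mellin_even_aux (ν : Measure X) [IsFiniteMeasure ν] {K : Set X} (hK : IsCompact K)
    (hν : ∀ᵐ ξ ∂ν, ξ ∈ K) {R : ℝ} (hR : 0 < R) (J : ℕ) :
    ∀ (s : ℝ) (F : ℂ → X → ℝ → ℂ), (∀ k, Cls k F) → (∀ z ξ t, F z ξ (-t) = F z ξ t) →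
      (∀ z ξ t, R < t → F z ξ t = 0) →
      ∃ e : ℂ → ℂ, DifferentiableOn ℂ e {z | -(s + 2 * J) < z.re} ∧ ∀ z : ℂ, -s < z.re →
        e z = (Complex.Gamma ((z + s) / 2))⁻¹ *
          ∫ p, melI s F z p ∂(ν.prod (volume.restrict (Ioi 0))) := by
  induction J with
  | zero =>
    intro s F hF _ hs
    refine ⟨_, ?_, fun z _ => rfl⟩
    simp only [Nat.cast_zero, mul_zero, add_zero]
    refine DifferentiableOn.mul ?_ (melI_holo ν hK hν hR s (hF 0).base hs)
    exact (Complex.differentiable_one_div_Gamma.comp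
      (f := fun z : ℂ => (z + s) / 2) (by fun_prop)).differentiableOn
  | succ J ih =>
    intro s F hF he hs
    have hs' : ∀ z ξ t, R < t → nextF F z ξ t = 0 := by
      intro z ξ t ht
      have h := nextF_spec hF he z ξ t
      have h0 : Dt F z ξ t = 0 := by
        have : F z ξ =ᶠ[𝓝 t] fun _ => 0 := by
          filter_upwards [Ioi_mem_nhds ht] with u hu using hs z ξ u hu
        simp only [Dt]
        rw [this.deriv_eq, deriv_const]
      rw [h0] at h
      have ht1 : (t : ℂ) ≠ 0 := by exact_mod_cast (ne_of_gt (hR.trans ht))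
      exact (mul_eq_zero.mp h).resolve_left ht1
    obtain ⟨e, hed, hee⟩ := ih (s + 2) (nextF F)
      (fun k => (hF (k + 2)).2.2.2.2.had continuous_const)
      (fun z ξ t => by
        simp only [nextF, Had, mul_neg]
        congr 1
        funext u
        rw [Dt_Dt_even he]) hs'
    refine ⟨fun z => -(1 / 2) * e z, ?_, fun z hz => ?_⟩
    · refine (differentiableOn_const _).mul (hed.mono fun z hz => ?_)
      simp only [mem_ofPred_eq] at hz ⊢
      push_cast at hz
      linarith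
    · have ha : 0 < ((z + s) / 2).re := by simp; linarith
      have ha0 : (z + s) / 2 ≠ 0 := fun h => by rw [h] at ha; simp at ha
      have ha1 : z + s ≠ 0 := fun h => ha0 (by rw [h]; simp)
      have hG := Complex.Gamma_ne_zero_of_re_pos ha
      have h1 := melI_step ν hK hν hR s hF he hs hs' z hz
      simp only
      rw [hee z (by linarith), show (z + ((s + 2 : ℝ) : ℂ)) / 2 = (z + s) / 2 + 1 by
        push_cast; ring, Complex.Gamma_add_one _ ha0]
      have h2 : ∫ p, melI (s + 2) (nextF F) z p ∂(ν.prod (volume.restrict (Ioi 0))) =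
          -((z + s) * ∫ p, melI s F z p ∂(ν.prod (volume.restrict (Ioi 0)))) := by
        rw [h1, neg_neg]
      rw [h2]
      field_simp

theorem mellin_even (ν : Measure X) [IsFiniteMeasure ν] {K : Set X} (hK : IsCompact K)
    (hν : ∀ᵐ ξ ∂ν, ξ ∈ K) {R : ℝ} (hR : 0 < R) (s : ℝ) (F : ℂ → X → ℝ → ℂ)
    (hF : ∀ k, Cls k F) (he : ∀ z ξ t, F z ξ (-t) = F z ξ t)
    (hs : ∀ z ξ t, R < t → F z ξ t = 0) :
    ∃ e : ℂ → ℂ, Differentiable ℂ e ∧ ∀ z : ℂ, -s < z.re →
      ∫ p, melI s F z p ∂(ν.prod (volume.restrict (Ioi 0))) =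
        Complex.Gamma ((z + s) / 2) * e z := by
  obtain ⟨e, he1, he2⟩ := glue_entire s _
    (fun J => mellin_even_aux ν hK hν hR J s F hF he hs)
  refine ⟨e, he1, fun z hz => ?_⟩
  have ha : 0 < ((z + s) / 2).re := by simp; linarith
  have hG := Complex.Gamma_ne_zero_of_re_pos ha
  rw [he2 z hz]
  field_simp

end Pool.Agent.Lib.MP_34b615_gt
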