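import Mathlib

set_option autoImplicit false
set_option linter.unusedSectionVars false
set_option linter.unusedVariables false

open MeasureTheory Filter Topology Metric Set

namespace Pool.Agent.Lib.MP_34b615_gt

variable {V : Type*} [NormedAddCommGroup V] [NormedSpace ℝ V] [FiniteDimensional ℝ V]
  [MeasurableSpace V] [BorelSpace V] [Nontrivial V]

/-- Radial measure. -/
noncomputable def radM (k : ℕ) : Measure ℝ :=
  (volume.restrict (Ioi (0 : ℝ))).withDensity fun t => ENNReal.ofReal (t ^ k)

instance (k : ℕ) : SFinite (radM k) := by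
  unfold radM
  infer_instance

lemma map_volumeIoiPow (k : ℕ) :
    MeasurePreserving (Subtype.val : Ioi (0 : ℝ) → ℝ) (Measure.volumeIoiPow k) (radM k) := by
  refine ⟨measurable_subtype_coe, ?_⟩
  ext A hA
  rw [Measure.map_apply measurable_subtype_coe hA, Measure.volumeIoiPow, radM,
    withDensity_apply _ (measurable_subtype_coe hA), withDensity_apply _ hA,
    ← map_comap_subtype_coe measurableSet_Ioi,
    (MeasurableEmbedding.subtype_coe measurableSet_Ioi).restrict_map,
    (MeasurableEmbedding.subtype_coe measurableSet_Ioi).lintegral_map]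

lemma polar_mp (μ : Measure V) [μ.IsAddHaarMeasure] :
    MeasurePreserving (fun p : sphere (0 : V) 1 × ℝ => p.2 • (p.1 : V))
      (μ.toSphere.prod (radM (Module.finrank ℝ V - 1))) μ := by
  have hm : Measurable (fun p : sphere (0 : V) 1 × ℝ => p.2 • (p.1 : V)) :=
    Continuous.measurable (by fun_prop)
  refine ⟨hm, ?_⟩
  have h1 := (MeasurePreserving.id μ.toSphere).prod (map_volumeIoiPow (Module.finrank ℝ V - 1))
  have h2 := μ.measurePreserving_homeomorphUnitSphereProd
  have h3 := measurePreserving_subtype_coe (μa := μ) (measurableSet_singleton (0 : V)).compl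
  rw [restrict_compl_singleton] at h3
  rw [← h1.map_eq, ← h2.map_eq, Measure.map_map h1.measurable h2.measurable,
    Measure.map_map hm (h1.measurable.comp h2.measurable)]
  refine Eq.trans ?_ h3.map_eq
  congr 1
  funext x
  have hx : ‖(x : V)‖ ≠ 0 := norm_ne_zero_iff.mpr x.2
  simp [smul_smul, hx]

/-- Midpoint and polar coordinates on pairs of points. -/
noncomputable def midP (p : (V × sphere (0 : V) 1) × ℝ) : V × V :=
  (p.1.1 + (p.2 / 2) • (p.1.2 : V), p.1.1 - (p.2 / 2) • (p.1.2 : V))

lemma midP_mp (μ : Measure V) [μ.IsAddHaarMeasure] [μ.IsNegInvariant] :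
    MeasurePreserving (midP (V := V))
      ((μ.prod μ.toSphere).prod (radM (Module.finrank ℝ V - 1))) (μ.prod μ) := by
  have h1 := measurePreserving_prodAssoc μ μ.toSphere (radM (Module.finrank ℝ V - 1))
  have h2 := (MeasurePreserving.id μ).prod (polar_mp μ)
  have h3 := Measure.measurePreserving_swap (μ := μ) (ν := μ)
  have h4 : MeasurePreserving (fun p : V × V => (id p.1, p.2 + (1 / 2 : ℝ) • p.1))
      (μ.prod μ) (μ.prod μ) :=
    (MeasurePreserving.id μ).skew_product (g := fun h c => c + (1 / 2 : ℝ) • h)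
      (Continuous.measurable (by fun_prop))
      (Eventually.of_forall fun h => (measurePreserving_add_right μ _).map_eq)
  have h5 : MeasurePreserving (fun p : V × V => (id p.1, p.1 - p.2))
      (μ.prod μ) (μ.prod μ) :=
    (MeasurePreserving.id μ).skew_product (g := fun u h => u - h)
      (Continuous.measurable (by fun_prop))
      (Eventually.of_forall fun u => (μ.measurePreserving_sub_left u).map_eq)
  have h := h5.comp (h3.comp (h4.comp (h3.comp (h2.comp h1))))
  have e : (midP (V := V)) = (fun p : V × V => (id p.1, p.1 - p.2)) ∘ Prod.swap ∘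
      (fun p : V × V => (id p.1, p.2 + (1 / 2 : ℝ) • p.1)) ∘ Prod.swap ∘
      Prod.map id (fun p : sphere (0 : V) 1 × ℝ => p.2 • (p.1 : V)) ∘
      MeasurableEquiv.prodAssoc := by
    funext p
    obtain ⟨⟨c, θ⟩, t⟩ := p
    simp only [midP, Function.comp_apply, MeasurableEquiv.prodAssoc, MeasurableEquiv.coe_mk,
      Equiv.prodAssoc_apply, Prod.map_apply, id_eq, Prod.swap_prod_mk, Prod.mk.injEq]
    constructor
    · module
    · module
  rw [e]
  exact h

theorem midP_integral (μ : Measure V) [μ.IsAddHaarMeasure] [μ.IsNegInvariant]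
    (f : V × V → ℂ) (hf : Measurable f) :
    (Integrable f (μ.prod μ) ↔
      Integrable (fun p => (p.2 : ℂ) ^ (Module.finrank ℝ V - 1) * f (midP p))
        ((μ.prod μ.toSphere).prod (volume.restrict (Ioi (0 : ℝ))))) ∧
    ∫ q, f q ∂(μ.prod μ) = ∫ p, (p.2 : ℂ) ^ (Module.finrank ℝ V - 1) * f (midP p)
        ∂((μ.prod μ.toSphere).prod (volume.restrict (Ioi (0 : ℝ)))) := by
  have h := midP_mp μ
  set k := Module.finrank ℝ V - 1
  have hd : Measurable fun t : ℝ => ENNReal.ofReal (t ^ k) := by fun_prop
  have hd2 : Measurable fun p : (V × sphere (0 : V) 1) × ℝ => ENNReal.ofReal (p.2 ^ k) :=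
    hd.comp measurable_snd
  have e := prod_withDensity_right (μ := μ.prod μ.toSphere)
    (ν := volume.restrict (Ioi (0 : ℝ))) hd
  have hae : (fun p : (V × sphere (0 : V) 1) × ℝ =>
      (ENNReal.ofReal (p.2 ^ k)).toReal • f (midP p)) =ᵐ[(μ.prod μ.toSphere).prod
        (volume.restrict (Ioi (0 : ℝ)))] fun p => (p.2 : ℂ) ^ k * f (midP p) := by
    have h2 : ∀ᵐ p ∂((μ.prod μ.toSphere).prod (volume.restrict (Ioi (0 : ℝ)))),
        p.2 ∈ Ioi (0 : ℝ) :=
      Measure.quasiMeasurePreserving_snd.ae (ae_restrict_mem measurableSet_Ioi)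
    filter_upwards [h2] with p hp
    rw [ENNReal.toReal_ofReal (pow_nonneg (le_of_lt hp) _)]
    simp
  constructor
  · rw [← h.integrable_comp hf.aestronglyMeasurable, radM, e,
      integrable_withDensity_iff_integrable_smul' hd2 (by simp)]
    exact integrable_congr hae
  · rw [← h.map_eq, integral_map h.measurable.aemeasurable hf.aestronglyMeasurable, radM, e,
      integral_withDensity_eq_integral_toReal_smul hd2 (by simp)]
    exact integral_congr_ae hae

end Pool.Agent.Lib.MP_34b615_gt
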