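import Mathlib
import Pool.Agent.Lib.MP_34b615_gt.Defs
import Pool.Agent.Lib.MP_34b615_gt.Mellin
import Pool.Agent.Lib.MP_34b615_gt.Polar

set_option autoImplicit false
set_option linter.unusedSectionVars false
set_option linter.unusedVariables false

open MeasureTheory Filter Topology Metric Set

namespace Pool.Agent.Lib.MP_34b615_gt

/-- Admissible amplitudes on pairs of points. -/
def Amp {V : Type*} [NormedAddCommGroup V] [NormedSpace ℝ V] (a : ℂ → V × V → ℂ) : Prop :=
  ∀ k, Cls k fun z (ξ : V × V) (t : ℝ) => a z (ξ.1 + (t / 2) • ξ.2, ξ.1 - (t / 2) • ξ.2)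

section
variable {V : Type*} [NormedAddCommGroup V] [NormedSpace ℝ V]

lemma amp_smooth {b : V × V → ℂ} (hb : ContDiff ℝ (⊤ : ℕ∞) b) : Amp fun _ p => b p := by
  intro k
  exact cls_smooth k (fun q : (V × V) × ℝ => b (q.1.1 + (q.2 / 2) • q.1.2,
    q.1.1 - (q.2 / 2) • q.1.2)) (hb.comp (by fun_prop))

lemma amp_entire {g : ℂ → ℂ} (hg : Differentiable ℂ g) : Amp fun z (_ : V × V) => g z :=
  fun k => cls_entire k g hg

lemma Amp.mul {a b : ℂ → V × V → ℂ} (ha : Amp a) (hb : Amp b) :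
    Amp fun z p => a z p * b z p := fun k => (ha k).mul (hb k)

lemma Amp.add {a b : ℂ → V × V → ℂ} (ha : Amp a) (hb : Amp b) :
    Amp fun z p => a z p + b z p := fun k => (ha k).add (hb k)

lemma Amp.comp {a : ℂ → V × V → ℂ} (ha : Amp a) {g : ℂ → ℂ} (hg : Differentiable ℂ g) :
    Amp fun z p => g (a z p) := fun k =>
  (ha k).comp isOpen_univ (fun _ _ _ => mem_univ _) hg.differentiableOn

lemma Amp.swap {a : ℂ → V × V → ℂ} (ha : Amp a) : Amp fun z p => a z p.swap := by
  intro k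
  have := (ha k).neg_arg
  simp only [neg_div, neg_smul, sub_neg_eq_add, ← sub_eq_add_neg] at this
  exact this

lemma Amp.continuous {a : ℂ → V × V → ℂ} (ha : Amp a) (z : ℂ) : Continuous (a z) := by
  have h := (ha 0).base.1.comp
    (f := fun p : V × V => (z, ((1 / 2 : ℝ) • (p.1 + p.2), p.1 - p.2), (1 : ℝ))) (by fun_prop)
  refine h.congr fun p => ?_
  simp only [Function.comp_apply]
  congr 1
  ext
  · simp only
    module
  · simp only
    module

end

variable {m n : ℕ}

/-- Coordinates of the difference along a symmetric segment. -/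
noncomputable def gD (φ : E m → E n) (i : Fin n) : ℂ → E m × E m → ℝ → ℂ :=
  fun _ ξ t => ((φ (ξ.1 + (t / 2) • ξ.2) i - φ (ξ.1 - (t / 2) • ξ.2) i : ℝ) : ℂ)

lemma gD_cls {φ : E m → E n} (hφ : ContDiff ℝ (⊤ : ℕ∞) φ) (i : Fin n) (k : ℕ) :
    Cls k (gD φ i) := by
  have h1 : ContDiff ℝ (⊤ : ℕ∞) fun u => φ u i := by fun_prop
  exact cls_smooth k (fun q : (E m × E m) × ℝ =>
    ((φ (q.1.1 + (q.2 / 2) • q.1.2) i - φ (q.1.1 - (q.2 / 2) • q.1.2) i : ℝ) : ℂ))
    (Complex.ofRealCLM.contDiff.comp ((h1.comp (by fun_prop)).sub (h1.comp (by fun_prop))))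

/-- The squared difference quotient. -/
noncomputable def qD (φ : E m → E n) : ℂ → E m × E m → ℝ → ℂ :=
  fun z ξ t => ∑ i, Had (fun _ => 1) (Dt (gD φ i)) z ξ t * Had (fun _ => 1) (Dt (gD φ i)) z ξ t

lemma qD_cls {φ : E m → E n} (hφ : ContDiff ℝ (⊤ : ℕ∞) φ) (k : ℕ) : Cls k (qD φ) := by
  apply Cls.sum
  intro i _
  have := ((gD_cls hφ i (k + 1)).2.2).had (g := fun _ => 1) continuous_const
  exact this.mul this

lemma qD_ne {φ : E m → E n} (hφ : ContDiff ℝ (⊤ : ℕ∞) φ) (z : ℂ) (ξ : E m × E m) {t : ℝ}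
    (ht : t ≠ 0) : qD φ z ξ t =
      ((‖φ (ξ.1 + (t / 2) • ξ.2) - φ (ξ.1 - (t / 2) • ξ.2)‖ ^ 2 / t ^ 2 : ℝ) : ℂ) := by
  have ht' : (t : ℂ) ≠ 0 := by exact_mod_cast ht
  have h : ∀ i, Had (fun _ => 1) (Dt (gD φ i)) z ξ t = gD φ i z ξ t / t := by
    intro i
    have := had_spec (gD_cls hφ i 1) z ξ t
    have h0 : gD φ i z ξ 0 = 0 := by simp [gD]
    rw [h0, sub_zero] at this
    rw [← this]
    field_simp
  simp only [qD, h, gD]
  rw [EuclideanSpace.real_norm_sq_eq, Finset.sum_div]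
  push_cast
  refine Finset.sum_congr rfl fun i _ => ?_
  simp only [PiLp.sub_apply]
  push_cast
  field_simp

lemma qD_zero {φ : E m → E n} (hφ : ContDiff ℝ (⊤ : ℕ∞) φ) (z : ℂ) (ξ : E m × E m) :
    qD φ z ξ 0 = ((‖fderiv ℝ φ ξ.1 ξ.2‖ ^ 2 : ℝ) : ℂ) := by
  have h : ∀ i, Dt (gD φ i) z ξ 0 = ((fderiv ℝ φ ξ.1 ξ.2 i : ℝ) : ℂ) := by
    intro i
    have hd : HasFDerivAt φ (fderiv ℝ φ ξ.1) ξ.1 := (hφ.differentiable (by simp) _).hasFDerivAt
    have l1 : HasDerivAt (fun t : ℝ => ξ.1 + (t / 2) • ξ.2) ((1 / 2 : ℝ) • ξ.2) 0 :=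
      (((hasDerivAt_id (0 : ℝ)).div_const 2).smul_const ξ.2).const_add ξ.1
    have l2 : HasDerivAt (fun t : ℝ => ξ.1 - (t / 2) • ξ.2) (-((1 / 2 : ℝ) • ξ.2)) 0 :=
      (((hasDerivAt_id (0 : ℝ)).div_const 2).smul_const ξ.2).const_sub ξ.1
    have d1 := HasFDerivAt.comp_hasDerivAt_of_eq (0 : ℝ) hd l1 (by simp)
    have d2 := HasFDerivAt.comp_hasDerivAt_of_eq (0 : ℝ) hd l2 (by simp)
    have d3 := (EuclideanSpace.proj (𝕜 := ℝ) i).hasFDerivAt.comp_hasDerivAt (0 : ℝ) (d1.sub d2)
    have d4 := d3.ofReal_comp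
    have e : EuclideanSpace.proj (𝕜 := ℝ) i (fderiv ℝ φ ξ.1 ((1 / 2 : ℝ) • ξ.2) -
        fderiv ℝ φ ξ.1 (-((1 / 2 : ℝ) • ξ.2))) = fderiv ℝ φ ξ.1 ξ.2 i := by
      simp only [map_neg, map_smul, sub_neg_eq_add, ← add_smul]
      norm_num
    rw [e] at d4
    exact d4.deriv
  simp only [qD, had_zero, h]
  rw [EuclideanSpace.real_norm_sq_eq]
  push_cast
  exact Finset.sum_congr rfl fun i _ => by ring

theorem local_cont (hm : 1 ≤ m) {φ : E m → E n} (hφ : ContDiff ℝ (⊤ : ℕ∞) φ)
    {u₀ : E m} {r : ℝ} (hr : 0 < r) {β : E m → ℝ} (hβ : ContDiff ℝ (⊤ : ℕ∞) β)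
    (hβ0 : ∀ u, 0 ≤ β u) (hβ1 : ∀ u, β u ≤ 1) (hβC : ∀ u ∈ closedBall u₀ r, β u = 1)
    (hinj : ∀ u v, β u ≠ 0 → β v ≠ 0 → φ u = φ v → u = v)
    (himm : ∀ u, β u ≠ 0 → Function.Injective (fderiv ℝ φ u))
    {a : ℂ → E m × E m → ℂ} (ha : Amp a)
    (hsupp : ∀ z p, a z p ≠ 0 → p.1 ∈ closedBall u₀ r ∧ p.2 ∈ closedBall u₀ r) :
    ∃ e : ℂ → ℂ, Differentiable ℂ e ∧ ∀ z : ℂ, -(m : ℝ) < z.re →
      Integrable (fun p : E m × E m => ((‖φ p.1 - φ p.2‖ : ℝ) : ℂ) ^ z * a z p)
        (volume.prod volume) ∧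
      ∫ p : E m × E m, ((‖φ p.1 - φ p.2‖ : ℝ) : ℂ) ^ z * a z p ∂(volume.prod volume) =
        Complex.Gamma ((z + m) / 2) * e z := by
  have : Nontrivial (E m) := by
    have : Nonempty (Fin m) := ⟨⟨0, hm⟩⟩
    infer_instance
  -- the cutoff and the positive function
  let bb : E m × E m → ℝ → ℝ := fun ξ t => β (ξ.1 + (t / 2) • ξ.2) * β (ξ.1 - (t / 2) • ξ.2)
  have hbb : ∀ k, Cls k fun (_ : ℂ) (ξ : E m × E m) (t : ℝ) => ((bb ξ t : ℝ) : ℂ) := fun k =>
    cls_smooth k (fun q : (E m × E m) × ℝ => ((bb q.1 q.2 : ℝ) : ℂ))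
      (Complex.ofRealCLM.contDiff.comp ((hβ.comp (by fun_prop)).mul (hβ.comp (by fun_prop))))
  let Q : ℂ → E m × E m → ℝ → ℂ := fun z ξ t =>
    (bb ξ t : ℂ) * qD φ z ξ t + (1 + (-1) * (bb ξ t : ℂ))
  have hQ : ∀ k, Cls k Q := fun k =>
    ((hbb k).mul (qD_cls hφ k)).add ((cls_entire k (fun _ => 1) (differentiable_const _)).add
      ((cls_entire k (fun _ => -1) (differentiable_const _)).mul (hbb k)))
  let π : E m × sphere (0 : E m) 1 → E m × E m := fun η => (η.1, η.2)
  have hπ : Continuous π := by fun_prop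
  have hθ : ∀ θ : sphere (0 : E m) 1, (θ : E m) ≠ 0 := fun θ => ne_zero_of_mem_unit_sphere θ
  have hdist : ∀ (η : E m × sphere (0 : E m) 1) (t : ℝ), t ≠ 0 → bb (π η) t ≠ 0 →
      0 < ‖φ (η.1 + (t / 2) • (η.2 : E m)) - φ (η.1 - (t / 2) • (η.2 : E m))‖ := by
    intro η t ht hb
    rw [norm_pos_iff, sub_ne_zero]
    intro h
    have h1 := hinj _ _ (left_ne_zero_of_mul hb) (right_ne_zero_of_mul hb) h
    have h2 : t • (η.2 : E m) = 0 := by
      have : t • (η.2 : E m) = (η.1 + (t / 2) • (η.2 : E m)) - (η.1 - (t / 2) • (η.2 : E m)) := by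
        module
      rw [this, h1, sub_self]
    exact (smul_ne_zero ht (hθ η.2)) h2
  have hQpos : ∀ z η t, Q z (π η) t ∈ Complex.slitPlane := by
    intro z η t
    have hb0 : 0 ≤ bb (π η) t := mul_nonneg (hβ0 _) (hβ0 _)
    have hb1 : bb (π η) t ≤ 1 := mul_le_one₀ (hβ1 _) (hβ0 _) (hβ1 _)
    left
    by_cases hb : bb (π η) t = 0
    · simp [Q, hb]
    have hb' : 0 < bb (π η) t := lt_of_le_of_ne hb0 (Ne.symm hb)
    obtain ⟨x, hx, hxq⟩ : ∃ x : ℝ, 0 < x ∧ qD φ z (π η) t = x := by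
      by_cases ht : t = 0
      · subst ht
        refine ⟨_, ?_, qD_zero hφ z (π η)⟩
        have hb2 : β η.1 ≠ 0 := by
          have := left_ne_zero_of_mul hb
          simpa [π] using this
        apply pow_pos
        rw [norm_pos_iff]
        intro h
        exact hθ η.2 (himm _ hb2 (by rw [map_zero]; exact h))
      · refine ⟨_, ?_, qD_ne hφ z (π η) ht⟩
        have := hdist η t ht hb
        positivity
    simp only [Q, hxq, Complex.add_re, Complex.mul_re, Complex.ofReal_re, Complex.ofReal_im,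
      Complex.neg_re, Complex.one_re, Complex.neg_im, Complex.one_im]
    nlinarith [mul_pos hb' hx]
  have hQeven : ∀ z ξ t, Q z ξ (-t) = Q z ξ t := by
    intro z ξ t
    have e1 : bb ξ (-t) = bb ξ t := by
      simp only [bb, neg_div, neg_smul, sub_neg_eq_add, ← sub_eq_add_neg]
      ring
    have e2 : qD φ z ξ (-t) = qD φ z ξ t := by
      by_cases ht : t = 0
      · rw [ht, neg_zero]
      · rw [qD_ne hφ z ξ ht, qD_ne hφ z ξ (neg_ne_zero.mpr ht)]
        simp only [neg_div, neg_smul, sub_neg_eq_add, ← sub_eq_add_neg, neg_sq]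
        rw [norm_sub_rev]
    simp only [Q, e1, e2]
  -- the family attached to an amplitude
  let FF : (ℂ → E m × E m → ℂ) → ℂ → E m × sphere (0 : E m) 1 → ℝ → ℂ := fun a z η t =>
    Complex.exp (z / 2 * Complex.log (Q z (π η) t)) * a z (midP (η, t))
  have hFF : ∀ a, Amp a → ∀ k, Cls k (FF a) := by
    intro a ha k
    have h1 := ((hQ k).pullback hπ).comp Complex.isOpen_slitPlane hQpos
      (g := Complex.log) (fun w hw => (Complex.differentiableAt_log hw).differentiableWithinAt)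
    have h2 := ((cls_entire k (fun z => z / 2) (by fun_prop)).mul h1).comp isOpen_univ
      (fun _ _ _ => mem_univ _) Complex.differentiable_exp.differentiableOn
    exact h2.mul ((ha k).pullback hπ)
  let ν : Measure (E m × sphere (0 : E m) 1) :=
    (volume.restrict (closedBall u₀ r)).prod (volume : Measure (E m)).toSphere
  have : IsFiniteMeasure ((volume : Measure (E m)).restrict (closedBall u₀ r)) :=
    isFiniteMeasure_restrict.mpr measure_closedBall_lt_top.ne
  have : IsFiniteMeasure ν := by infer_instance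
  have hK : IsCompact (closedBall u₀ r ×ˢ (univ : Set (sphere (0 : E m) 1))) :=
    (isCompact_closedBall _ _).prod isCompact_univ
  have hν : ∀ᵐ η ∂ν, η ∈ closedBall u₀ r ×ˢ (univ : Set (sphere (0 : E m) 1)) := by
    have : ∀ᵐ η ∂ν, η.1 ∈ closedBall u₀ r :=
      Measure.quasiMeasurePreserving_fst.ae (ae_restrict_mem measurableSet_closedBall)
    filter_upwards [this] with η h using ⟨h, mem_univ _⟩
  have hR : 0 < 2 * r := by positivity
  have main : ∀ a, Amp a →
      (∀ z p, a z p ≠ 0 → p.1 ∈ closedBall u₀ r ∧ p.2 ∈ closedBall u₀ r) →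
      (∀ z η t, 2 * r < t → FF a z η t = 0) ∧ ∀ z : ℂ, -(m : ℝ) < z.re →
      Integrable (fun p : E m × E m => ((‖φ p.1 - φ p.2‖ : ℝ) : ℂ) ^ z * a z p)
        (volume.prod volume) ∧
      ∫ p : E m × E m, ((‖φ p.1 - φ p.2‖ : ℝ) : ℂ) ^ z * a z p ∂(volume.prod volume) =
        ∫ p, melI m (FF a) z p ∂(ν.prod (volume.restrict (Ioi 0))) := by
    intro a ha hsupp
    have hs : ∀ z η t, 2 * r < t → FF a z η t = 0 := by
      intro z η t ht
      by_contra h
      obtain ⟨h1, h2⟩ := hsupp z _ (right_ne_zero_of_mul h)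
      have h3 := dist_triangle_right (midP (η, t)).1 (midP (η, t)).2 u₀
      rw [mem_closedBall] at h1 h2
      have h4 : dist (midP (η, t)).1 (midP (η, t)).2 = t := by
        rw [dist_eq_norm]
        have : (midP (η, t)).1 - (midP (η, t)).2 = t • (η.2 : E m) := by
          simp only [midP]
          module
        rw [this, norm_smul, norm_eq_of_mem_sphere η.2, mul_one, Real.norm_eq_abs,
          abs_of_pos (hR.trans ht)]
      linarith
    refine ⟨hs, fun z hz => ?_⟩
    have hmeas : Measurable fun p : E m × E m => ((‖φ p.1 - φ p.2‖ : ℝ) : ℂ) ^ z * a z p := by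
      refine Measurable.mul ?_ (ha.continuous z).measurable
      have hc := hφ.continuous
      exact (Continuous.measurable (by fun_prop)).pow_const z
    obtain ⟨i1, i2⟩ := midP_integral (volume : Measure (E m)) _ hmeas
    have hfr : Module.finrank ℝ (E m) - 1 = m - 1 := by simp
    rw [hfr] at i1 i2
    have hae : (fun p : (E m × sphere (0 : E m) 1) × ℝ => (p.2 : ℂ) ^ (m - 1) *
        (((‖φ (midP p).1 - φ (midP p).2‖ : ℝ) : ℂ) ^ z * a z (midP p))) =ᵐ[
        (((volume : Measure (E m)).prod (volume : Measure (E m)).toSphere).prod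
          (volume.restrict (Ioi (0 : ℝ))))] melI m (FF a) z := by
      have h2 : ∀ᵐ p ∂(((volume : Measure (E m)).prod (volume : Measure (E m)).toSphere).prod
          (volume.restrict (Ioi (0 : ℝ)))), p.2 ∈ Ioi (0 : ℝ) :=
        Measure.quasiMeasurePreserving_snd.ae (ae_restrict_mem measurableSet_Ioi)
      filter_upwards [h2] with p hp
      obtain ⟨η, t⟩ := p
      have ht : 0 < t := hp
      simp only [melI, FF]
      by_cases h0 : a z (midP (η, t)) = 0
      · simp [h0]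
      obtain ⟨h1, h2⟩ := hsupp z _ h0
      have hb : bb (π η) t = 1 := by
        have e1 := hβC _ h1
        have e2 := hβC _ h2
        simp only [midP] at e1 e2
        simp only [bb, π, e1, e2, mul_one]
      have hd := hdist η t ht.ne' (by rw [hb]; exact one_ne_zero)
      have hq : Q z (π η) t = ((‖φ (η.1 + (t / 2) • (η.2 : E m)) -
          φ (η.1 - (t / 2) • (η.2 : E m))‖ ^ 2 / t ^ 2 : ℝ) : ℂ) := by
        simp only [Q, hb]
        rw [qD_ne hφ z (π η) ht.ne']
        simp [π]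
      simp only [midP]
      rw [hq]
      set d := ‖φ (η.1 + (t / 2) • (η.2 : E m)) - φ (η.1 - (t / 2) • (η.2 : E m))‖
      have ht1 : (t : ℂ) ≠ 0 := by exact_mod_cast ht.ne'
      have hd1 : (d : ℂ) ≠ 0 := by exact_mod_cast hd.ne'
      rw [← mul_assoc, ← mul_assoc]
      congr 1
      rw [← Complex.ofReal_log (by positivity), Real.log_div (by positivity) (by positivity),
        Real.log_pow, Real.log_pow, Complex.cpow_def_of_ne_zero ht1,
        Complex.cpow_def_of_ne_zero hd1, ← Complex.ofReal_log ht.le, ← Complex.ofReal_log hd.le,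
        ← Complex.exp_add]
      have e3 : (t : ℂ) ^ (m - 1) = Complex.exp (((m : ℂ) - 1) * (Real.log t : ℝ)) := by
        have : ((m : ℂ) - 1) = ((m - 1 : ℕ) : ℂ) := by
          rw [Nat.cast_sub hm]
          simp
        rw [this, Complex.exp_nat_mul, ← Complex.ofReal_exp, Real.exp_log ht]
      rw [e3, ← Complex.exp_add]
      congr 1
      push_cast
      ring
    have hset : MeasurableSet ((closedBall u₀ r ×ˢ (univ : Set (sphere (0 : E m) 1))) ×ˢ
        (univ : Set ℝ)) := (measurableSet_closedBall.prod MeasurableSet.univ).prod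
          MeasurableSet.univ
    have hres : ν.prod (volume.restrict (Ioi (0 : ℝ))) =
        (((volume : Measure (E m)).prod (volume : Measure (E m)).toSphere).prod
          (volume.restrict (Ioi (0 : ℝ)))).restrict
          ((closedBall u₀ r ×ˢ (univ : Set (sphere (0 : E m) 1))) ×ˢ (univ : Set ℝ)) := by
      have hS : SFinite ((volume : Measure (E m)).prod (volume : Measure (E m)).toSphere) :=
        Measure.prod.instSFinite
      rw [← Measure.prod_restrict (μ := (volume : Measure (E m)).prod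
        (volume : Measure (E m)).toSphere), ← Measure.prod_restrict, Measure.restrict_univ,
        Measure.restrict_univ]
    have hzero : ∀ p, p ∉ ((closedBall u₀ r ×ˢ (univ : Set (sphere (0 : E m) 1))) ×ˢ
        (univ : Set ℝ)) → melI m (FF a) z p = 0 := by
      intro p hp
      by_contra h
      apply hp
      refine ⟨⟨?_, mem_univ _⟩, mem_univ _⟩
      obtain ⟨h1, h2⟩ := hsupp z _ (right_ne_zero_of_mul (right_ne_zero_of_mul h))
      have := (convex_closedBall u₀ r) h1 h2 (a := 1 / 2) (b := 1 / 2) (by norm_num) (by norm_num)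
        (by norm_num)
      have e : (1 / 2 : ℝ) • (midP (p.1, p.2)).1 + (1 / 2 : ℝ) • (midP (p.1, p.2)).2 = p.1.1 := by
        simp only [midP]
        module
      rwa [e] at this
    have hint := melI_integrable ν hK hν hR m (hFF a ha 0).base hs z hz
    constructor
    · rw [i1, integrable_congr hae]
      rw [hres] at hint
      exact (integrableOn_iff_integrable_of_support_subset
        (fun p hp => by_contra fun h => hp (hzero p h))).mp hint
    · rw [i2, integral_congr_ae hae, hres, setIntegral_eq_integral_of_forall_compl_eq_zero hzero]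
  -- symmetrization
  let a' : ℂ → E m × E m → ℂ := fun z p => (1 / 2) * (a z p + a z p.swap)
  have ha' : Amp a' := (amp_entire (differentiable_const _)).mul (ha.add ha.swap)
  have hsupp' : ∀ z p, a' z p ≠ 0 → p.1 ∈ closedBall u₀ r ∧ p.2 ∈ closedBall u₀ r := by
    intro z p h
    by_cases h1 : a z p = 0
    · have h2 : a z p.swap ≠ 0 := by
        intro h2
        simp [a', h1, h2] at h
      exact (hsupp z _ h2).symm
    · exact hsupp z p h1
  obtain ⟨e, he1, he2⟩ := mellin_even ν hK hν hR m (FF a') (hFF a' ha')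
    (fun z η t => by
      simp only [FF, hQeven, a', midP, neg_div, neg_smul, sub_neg_eq_add, ← sub_eq_add_neg,
        Prod.swap_prod_mk]
      ring) (main a' ha' hsupp').1
  refine ⟨e, he1, fun z hz => ?_⟩
  have j1 := ((main a ha hsupp).2 z hz).1
  refine ⟨j1, ?_⟩
  have hsw := Measure.measurePreserving_swap (μ := (volume : Measure (E m))) (ν := (volume : Measure (E m)))
  have j2 : Integrable (fun p : E m × E m => ((‖φ p.1 - φ p.2‖ : ℝ) : ℂ) ^ z * a z p.swap)
      (volume.prod volume) := by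
    refine (hsw.integrable_comp_of_integrable j1).congr (Eventually.of_forall fun p => ?_)
    simp only [Function.comp_apply, Prod.fst_swap, Prod.snd_swap]
    rw [norm_sub_rev]
  have j3 : ∫ p : E m × E m, ((‖φ p.1 - φ p.2‖ : ℝ) : ℂ) ^ z * a z p.swap ∂(volume.prod volume) =
      ∫ p : E m × E m, ((‖φ p.1 - φ p.2‖ : ℝ) : ℂ) ^ z * a z p ∂(volume.prod volume) := by
    rw [← integral_prod_swap]
    refine integral_congr_ae (Eventually.of_forall fun p => ?_)
    simp only [Prod.fst_swap, Prod.snd_swap, Prod.swap_swap]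
    rw [norm_sub_rev]
  have j4 := ((main a' ha' hsupp').2 z hz).2
  rw [he2 z hz] at j4
  have j5 : ∫ p : E m × E m, ((‖φ p.1 - φ p.2‖ : ℝ) : ℂ) ^ z * a' z p ∂(volume.prod volume) =
      (1 / 2) * (∫ p : E m × E m, ((‖φ p.1 - φ p.2‖ : ℝ) : ℂ) ^ z * a z p ∂(volume.prod volume) +
        ∫ p : E m × E m, ((‖φ p.1 - φ p.2‖ : ℝ) : ℂ) ^ z * a z p.swap ∂(volume.prod volume)) := by
    rw [← integral_add j1 j2, ← integral_const_mul]
    refine integral_congr_ae (Eventually.of_forall fun p => ?_)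
    simp only [a']
    ring
  rw [j5, j3] at j4
  rw [← Complex.ofReal_natCast, ← j4]
  ring

end Pool.Agent.Lib.MP_34b615_gt
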