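import Mathlib
import Pool.Agent.Lib.MP_34b615_gt.Chart
import Pool.Agent.Lib.MP_34b615_gt.Local

set_option autoImplicit false
set_option linter.unusedSectionVars false
set_option linter.unusedVariables false

open MeasureTheory Filter Topology Metric Set
open scoped ENNReal NNReal Manifold

namespace Pool.Agent.Lib.MP_34b615_gt

variable {m n : ℕ}

lemma exists_pou {V : Type} [NormedAddCommGroup V] [NormedSpace ℝ V] [FiniteDimensional ℝ V]
    {K : Set V} (hK : IsCompact K) (P : Set V → Prop)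
    (h : ∀ x ∈ K, ∃ U, IsOpen U ∧ x ∈ U ∧ P U) :
    ∃ (ι : Type) (_ : Fintype ι) (ρ : ι → V → ℝ), (∀ j, ContDiff ℝ (⊤ : ℕ∞) (ρ j)) ∧
      (∀ j, ∃ U, P U ∧ tsupport (ρ j) ⊆ U) ∧ ∀ x ∈ K, ∀ᶠ y in 𝓝 x, ∑ j, ρ j y = 1 := by
  choose! U hUo hxU hPU using h
  obtain ⟨t, htK, hcov⟩ := hK.elim_nhds_subcover U fun x hx => (hUo x hx).mem_nhds (hxU x hx)
  have ho : ∀ i : t, IsOpen (U i) := fun i => hUo _ (htK _ i.2)
  obtain ⟨L, hL, hKL, hLU⟩ := exists_compact_between hK (isOpen_iUnion ho) (by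
    intro x hx
    obtain ⟨i, hi, hxi⟩ := mem_iUnion₂.mp (hcov hx)
    exact mem_iUnion.mpr ⟨⟨i, hi⟩, hxi⟩)
  obtain ⟨f, hf⟩ := SmoothPartitionOfUnity.exists_isSubordinate 𝓘(ℝ, V) hL.isClosed
    (fun i : t => U i) ho hLU
  refine ⟨t, inferInstance, fun j => f j, fun j => (f j).contMDiff.contDiff,
    fun j => ⟨U j, hPU _ (htK _ j.2), hf j⟩, fun x hx => ?_⟩
  filter_upwards [mem_interior_iff_mem_nhds.mp (hKL hx)] with y hy
  rw [← finsum_eq_sum_of_fintype]
  exact f.sum_eq_one hy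

lemma entire_of_cont {X : Type*} [TopologicalSpace X] [T2Space X] [MeasurableSpace X]
    [OpensMeasurableSpace X] {μ : Measure X} [IsFiniteMeasure μ] {K : Set X} (hK : IsCompact K)
    (hμ : ∀ᵐ p ∂μ, p ∈ K) {F : ℂ → X → ℂ}
    (hc : ContinuousOn (fun q : ℂ × X => F q.1 q.2) (univ ×ˢ K))
    (hd : ∀ p ∈ K, Differentiable ℂ fun z => F z p) :
    (Differentiable ℂ fun z => ∫ p, F z p ∂μ) ∧ ∀ z, Integrable (F z) μ := by
  have hr : μ.restrict K = μ := Measure.restrict_eq_self_of_ae_mem hμ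
  have hz : ∀ z, ContinuousOn (F z) K := fun z =>
    hc.comp (f := fun p => (z, p)) (by fun_prop) fun p hp => ⟨mem_univ _, hp⟩
  have hi : ∀ z, Integrable (F z) μ := fun z => by
    have := (hz z).integrableOn_compact (μ := μ) hK
    rwa [IntegrableOn, hr] at this
  refine ⟨?_, hi⟩
  rw [← differentiableOn_univ]
  refine differentiableOn_param_integral μ F univ isOpen_univ (fun z _ => (hi z).1) ?_ ?_
  · filter_upwards [hμ] with p hp using (hd p hp).differentiableOn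
  · intro z₀ _
    obtain ⟨C, hC⟩ := ((isCompact_closedBall z₀ 1).prod hK).exists_bound_of_continuousOn
      (hc.mono (prod_mono (subset_univ _) subset_rfl))
    refine ⟨1, one_pos, fun _ => C, integrable_const C, ?_⟩
    filter_upwards [hμ] with p hp z hz _ using hC (z, p) ⟨ball_subset_closedBall hz, hp⟩

/-- Amplitudes on pairs of points of the ambient space. -/
structure GAmp (m : ℕ) (a : ℂ → E n × E n → ℂ) : Prop where
  cont : Continuous fun q : ℂ × (E n × E n) => a q.1 q.2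
  holo : ∀ p, Differentiable ℂ fun z => a z p
  amp : ∀ φ : E m → E n, ContDiff ℝ (⊤ : ℕ∞) φ → Amp fun z (p : E m × E m) => a z (φ p.1, φ p.2)

lemma gamp_smooth {b : E n × E n → ℂ} (hb : ContDiff ℝ (⊤ : ℕ∞) b) : GAmp m fun _ p => b p :=
  ⟨hb.continuous.comp continuous_snd, fun _ => differentiable_const _,
    fun φ hφ => amp_smooth (b := fun p : E m × E m => b (φ p.1, φ p.2)) (hb.comp (by fun_prop))⟩

lemma gamp_entire {g : ℂ → ℂ} (hg : Differentiable ℂ g) : GAmp m fun z (_ : E n × E n) => g z :=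
  ⟨hg.continuous.comp continuous_fst, fun _ => hg, fun _ _ => amp_entire hg⟩

lemma GAmp.mul {a b : ℂ → E n × E n → ℂ} (ha : GAmp m a) (hb : GAmp m b) :
    GAmp m fun z p => a z p * b z p :=
  ⟨ha.cont.mul hb.cont, fun p => (ha.holo p).mul (hb.holo p),
    fun φ hφ => (ha.amp φ hφ).mul (hb.amp φ hφ)⟩

lemma GAmp.comp {a : ℂ → E n × E n → ℂ} (ha : GAmp m a) {g : ℂ → ℂ} (hg : Differentiable ℂ g) :
    GAmp m fun z p => g (a z p) :=
  ⟨hg.continuous.comp ha.cont, fun p => hg.comp (ha.holo p), fun φ hφ => (ha.amp φ hφ).comp hg⟩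

/-- Smooth fields of bilinear forms. -/
structure Bil (A : E n × E n → E n → E n → ℂ) : Prop where
  lin1 : ∀ p w, IsLinearMap ℝ fun v => A p v w
  lin2 : ∀ p v, IsLinearMap ℝ (A p v)
  smooth : ContDiff ℝ (⊤ : ℕ∞) fun q : (E n × E n) × E n × E n => A q.1 q.2.1 q.2.2

lemma tang_smooth {φ : E m → E n} (hφ : ContDiff ℝ (⊤ : ℕ∞) φ) (j : Fin m) :
    ContDiff ℝ (⊤ : ℕ∞) fun u => tang φ u j :=
  (hφ.fderiv_right (m := (⊤ : ℕ∞)) (by simp)).clm_apply contDiff_const

lemma contDiff_det {V : Type*} [NormedAddCommGroup V] [NormedSpace ℝ V] {k : WithTop ℕ∞}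
    {F : V → Fin m → Fin m → ℂ} (h : ∀ i j, ContDiff ℝ k fun x => F x i j) :
    ContDiff ℝ k fun x => (Matrix.of (F x)).det := by
  simp only [Matrix.det_apply', Matrix.of_apply]
  exact ContDiff.sum fun σ _ => contDiff_const.mul (contDiff_prod fun i _ => h _ _)

lemma Bil.bdet_smooth {A : E n × E n → E n → E n → ℂ} (hA : Bil A) {φ ψ : E m → E n}
    (hφ : ContDiff ℝ (⊤ : ℕ∞) φ) (hψ : ContDiff ℝ (⊤ : ℕ∞) ψ) :
    ContDiff ℝ (⊤ : ℕ∞) fun p : E m × E m =>
      bdet (A (φ p.1, ψ p.2)) (tang φ p.1) (tang ψ p.2) := by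
  refine contDiff_det (F := fun (p : E m × E m) i j =>
    A (φ p.1, ψ p.2) (tang φ p.1 i) (tang ψ p.2 j)) fun i j => ?_
  exact hA.smooth.comp (f := fun p : E m × E m => ((φ p.1, ψ p.2), tang φ p.1 i, tang ψ p.2 j))
    (((hφ.comp contDiff_fst).prodMk (hψ.comp contDiff_snd)).prodMk
      (((tang_smooth hφ i).comp contDiff_fst).prodMk ((tang_smooth hψ j).comp contDiff_snd)))

/-- The determinant of a field of forms on the two oriented tangent planes. -/
noncomputable def DD (A : E n × E n → E n → E n → ℂ) (e : E n → Fin m → E n) (p : E n × E n) : ℂ :=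
  bdet (A p) (e p.1) (e p.2)

section
variable {M : Set (E n)} {e : E n → Fin m → E n} {φ : E m → E n} {u₀ : E m} {r : ℝ}
  {W : Set (E n)} {γ : E m → ℝ} {ψ : E m → E n} {v₀ : E m} {s : ℝ}
  {W' : Set (E n)} {γ' : E m → ℝ} {A : E n × E n → E n → E n → ℂ}

lemma GC.bdet_eq (h : GC M e φ u₀ r W γ) (h' : GC M e ψ v₀ s W' γ') (hA : Bil A)
    {u v : E m} (hu : u ∈ ball u₀ (2 * r)) (hv : v ∈ ball v₀ (2 * s)) :
    bdet (A (φ u, ψ v)) (tang φ u) (tang ψ v) =
      (jac φ u : ℂ) * (jac ψ v : ℂ) * DD A e (φ u, ψ v) := by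
  rw [bdet_frame (hA.lin1 _) (hA.lin2 _) (h.orth u hu) (h'.orth v hv) (h.span u hu)
    (h'.span v hv), h.jac_eq u hu, h'.jac_eq v hv, DD]

lemma DD_cont (hM : IsOrientedClosedSubmanifold m M e) (hA : Bil A) :
    ContinuousOn (DD A e) (M ×ˢ M) := by
  rintro ⟨x, y⟩ ⟨hx, hy⟩
  obtain ⟨φ, u₀, r, W, γ, h, -, rfl⟩ := exists_GC hM hx
  obtain ⟨ψ, v₀, s, W', γ', h', -, rfl⟩ := exists_GC hM hy
  have hu : u₀ ∈ ball u₀ (2 * r) := mem_ball_self (by linarith [h.rpos])
  have hv : v₀ ∈ ball v₀ (2 * s) := mem_ball_self (by linarith [h'.rpos])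
  have h1 : 𝓝[M ×ˢ M] (φ u₀, ψ v₀) ≤ Filter.map (Prod.map φ ψ) (𝓝 (u₀, v₀)) := by
    rw [nhdsWithin_prod_eq, nhds_prod_eq, ← Filter.prod_map_map_eq']
    exact Filter.prod_mono (h.nhds u₀ hu) (h'.nhds v₀ hv)
  refine Tendsto.mono_left ?_ h1
  rw [tendsto_map'_iff]
  have hj : ∀ p : E m × E m, p ∈ ball u₀ (2 * r) ×ˢ ball v₀ (2 * s) →
      (jac φ p.1 : ℂ) * (jac ψ p.2 : ℂ) ≠ 0 := fun p hp =>
    mul_ne_zero (by exact_mod_cast (jac_pos (h.imm _ hp.1)).ne')
      (by exact_mod_cast (jac_pos (h'.imm _ hp.2)).ne')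
  have he : ∀ p : E m × E m, p ∈ ball u₀ (2 * r) ×ˢ ball v₀ (2 * s) →
      bdet (A (φ p.1, ψ p.2)) (tang φ p.1) (tang ψ p.2) / ((jac φ p.1 : ℂ) * (jac ψ p.2 : ℂ)) =
        (DD A e ∘ Prod.map φ ψ) p := fun p hp => by
    rw [h.bdet_eq h' hA hp.1 hp.2, mul_div_cancel_left₀ _ (hj p hp)]
    rfl
  have hc : ContinuousAt (fun p : E m × E m => bdet (A (φ p.1, ψ p.2)) (tang φ p.1) (tang ψ p.2) /
      ((jac φ p.1 : ℂ) * (jac ψ p.2 : ℂ))) (u₀, v₀) := by
    refine (hA.bdet_smooth h.smooth h'.smooth).continuous.continuousAt.div ?_ (hj _ ⟨hu, hv⟩)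
    have c1 := jac_continuous h.c1
    have c2 := jac_continuous h'.c1
    fun_prop
  exact (hc.congr (eventually_of_mem ((isOpen_ball.prod isOpen_ball).mem_nhds ⟨hu, hv⟩) he)).tendsto

lemma GC.integral1 (h : GC M e φ u₀ r W γ) {f : E n → ℂ} (hf : ∀ x, f x ≠ 0 → x ∈ W)
    {g : E m → ℂ} (hg : ∀ u ∈ ball u₀ r, g u = (jac φ u : ℂ) * f (φ u))
    (hg0 : ∀ u, g u ≠ 0 → u ∈ ball u₀ r) : ∫ x, f x ∂(vol m M) = ∫ u, g u := by
  have hJ : Measurable fun u => ENNReal.ofReal (jac φ u) :=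
    (jac_continuous h.c1).measurable.ennreal_ofReal
  rw [← setIntegral_eq_integral_of_forall_compl_eq_zero (s := W)
    (fun x hx => by_contra fun h0 => hx (hf x h0)), h.vol_restrict,
    (integral_map_injOn h.smooth.continuous measurableSet_ball (h.inj.mono h.bsub)
      ((withDensity_absolutelyContinuous _ _).ae_le (ae_restrict_mem measurableSet_ball)) f).2,
    integral_withDensity_eq_integral_toReal_smul hJ (by simp),
    ← setIntegral_eq_integral_of_forall_compl_eq_zero (s := ball u₀ r)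
    (fun x hx => by_contra fun h0 => hx (hg0 x h0))]
  refine setIntegral_congr_fun measurableSet_ball fun u hu => ?_
  simp only [hg u hu, ENNReal.toReal_ofReal (jac_nonneg φ u), Complex.real_smul]

lemma GC.integral2 [SFinite (vol m M)] (h : GC M e φ u₀ r W γ) {f : E n × E n → ℂ}
    (hf : ∀ p, f p ≠ 0 → p ∈ W ×ˢ W) {g : E m × E m → ℂ}
    (hg : ∀ p ∈ ball u₀ r ×ˢ ball u₀ r, g p = (jac φ p.1 : ℂ) * (jac φ p.2 : ℂ) * f (φ p.1, φ p.2))
    (hg0 : ∀ p, g p ≠ 0 → p ∈ ball u₀ r ×ˢ ball u₀ r) :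
    (Integrable g (volume.prod volume) → Integrable f ((vol m M).prod (vol m M))) ∧
    ∫ p, f p ∂((vol m M).prod (vol m M)) = ∫ p, g p ∂(volume.prod volume) := by
  have hJ : Measurable fun u => ENNReal.ofReal (jac φ u) :=
    (jac_continuous h.c1).measurable.ennreal_ofReal
  have hm := h.smooth.continuous.measurable
  have hB : MeasurableSet (ball u₀ r ×ˢ ball u₀ r) := measurableSet_ball.prod measurableSet_ball
  have e1 : ((vol m M).prod (vol m M)).restrict (W ×ˢ W) = Measure.map (Prod.map φ φ)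
      ((((volume : Measure (E m)).prod volume).restrict (ball u₀ r ×ˢ ball u₀ r)).withDensity
        fun p => ENNReal.ofReal (jac φ p.1) * ENNReal.ofReal (jac φ p.2)) := by
    rw [← Measure.prod_restrict, h.vol_restrict, Measure.map_prod_map _ _ hm hm,
      prod_withDensity hJ hJ, Measure.prod_restrict]
  have e2 := integral_map_injOn (f := Prod.map φ φ) (h.smooth.continuous.prodMap h.smooth.continuous)
    hB ((h.inj.mono h.bsub).prodMap (h.inj.mono h.bsub))
    ((withDensity_absolutelyContinuous (((volume : Measure (E m)).prod volume).restrict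
      (ball u₀ r ×ˢ ball u₀ r))
      fun p => ENNReal.ofReal (jac φ p.1) * ENNReal.ofReal (jac φ p.2)).ae_le
      (ae_restrict_mem hB)) f
  rw [← e1] at e2
  have hJ2 : Measurable fun p : E m × E m =>
      ENNReal.ofReal (jac φ p.1) * ENNReal.ofReal (jac φ p.2) :=
    (hJ.comp measurable_fst).mul (hJ.comp measurable_snd)
  have hfin : ∀ᵐ p ∂(((volume : Measure (E m)).prod volume).restrict (ball u₀ r ×ˢ ball u₀ r)),
      ENNReal.ofReal (jac φ p.1) * ENNReal.ofReal (jac φ p.2) < ∞ :=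
    Eventually.of_forall fun p => ENNReal.mul_lt_top ENNReal.ofReal_lt_top ENNReal.ofReal_lt_top
  rw [integrable_withDensity_iff_integrable_smul' hJ2 hfin,
    integral_withDensity_eq_integral_toReal_smul hJ2 hfin] at e2
  have e3 : (fun p : E m × E m => (ENNReal.ofReal (jac φ p.1) *
      ENNReal.ofReal (jac φ p.2)).toReal • f (Prod.map φ φ p)) =ᵐ[
      (((volume : Measure (E m)).prod volume).restrict (ball u₀ r ×ˢ ball u₀ r))] g := by
    filter_upwards [ae_restrict_mem hB] with p hp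
    rw [hg p hp, ENNReal.toReal_mul, ENNReal.toReal_ofReal (jac_nonneg φ _),
      ENNReal.toReal_ofReal (jac_nonneg φ _), Complex.real_smul]
    push_cast
    rfl
  rw [integrable_congr e3, integral_congr_ae e3,
    setIntegral_eq_integral_of_forall_compl_eq_zero (fun x hx => by_contra fun h0 => hx (hf x h0)),
    setIntegral_eq_integral_of_forall_compl_eq_zero
      (fun x hx => by_contra fun h0 => hx (hg0 x h0))] at e2
  refine ⟨fun hi => ?_, e2.2⟩
  exact (integrableOn_iff_integrable_of_support_subset (fun p hp => hf p hp)).mp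
    (e2.1.mpr hi.integrableOn)

/-- The integrand of the double integrals. -/
noncomputable def itg (e : E n → Fin m → E n) (a : ℂ → E n × E n → ℂ)
    (A : E n × E n → E n → E n → ℂ) (z : ℂ) (p : E n × E n) : ℂ :=
  ((‖p.1 - p.2‖ : ℝ) : ℂ) ^ z * (a z p * DD A e p)

/-- The continuation property. -/
def Cont (M : Set (E n)) (e : E n → Fin m → E n) (a : ℂ → E n × E n → ℂ)
    (A : E n × E n → E n → E n → ℂ) (f : ℂ → ℂ) : Prop :=
  Differentiable ℂ f ∧ ∀ z : ℂ, -(m : ℝ) < z.re →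
    Integrable (itg e a A z) ((vol m M).prod (vol m M)) ∧
    ∫ p, itg e a A z p ∂((vol m M).prod (vol m M)) = Complex.Gamma ((z + m) / 2) * f z

lemma cont_near (hm : 1 ≤ m) (hM : IsOrientedClosedSubmanifold m M e) (h : GC M e φ u₀ r W γ)
    (hA : Bil A) {a : ℂ → E n × E n → ℂ} (ha : GAmp m a)
    (hs : ∀ z p, a z p ≠ 0 → p ∈ W ×ˢ W) : ∃ f, Cont M e a A f := by
  have := vol_finite hM
  let b : ℂ → E m × E m → ℂ := fun z p => a z (φ p.1, φ p.2) *
    (((γ p.1 * γ p.2 : ℝ) : ℂ) * bdet (A (φ p.1, φ p.2)) (tang φ p.1) (tang φ p.2))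
  have hγ := h.gsmooth
  have hb : Amp b := (ha.amp φ h.smooth).mul (amp_smooth
    ((Complex.ofRealCLM.contDiff.comp (f := fun p : E m × E m => γ p.1 * γ p.2)
      (by fun_prop)).mul (hA.bdet_smooth h.smooth h.smooth)))
  have hbs : ∀ z p, b z p ≠ 0 → p ∈ ball u₀ r ×ˢ ball u₀ r := by
    intro z p h0
    have h1 := hs z _ (left_ne_zero_of_mul h0)
    have h2 : γ p.1 * γ p.2 ≠ 0 := by
      exact_mod_cast left_ne_zero_of_mul (right_ne_zero_of_mul h0)
    exact ⟨h.mem_ball (left_ne_zero_of_mul h2) h1.1, h.mem_ball (right_ne_zero_of_mul h2) h1.2⟩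
  obtain ⟨f, hf1, hf2⟩ := local_cont hm h.smooth h.rpos h.gsmooth h.g0 h.g1 h.gone
    (fun u v hu hv => h.inj (h.gsupp u hu) (h.gsupp v hv)) (fun u hu => h.imm u (h.gsupp u hu)) hb
    (fun z p h0 => ⟨ball_subset_closedBall (hbs z p h0).1, ball_subset_closedBall (hbs z p h0).2⟩)
  refine ⟨f, hf1, fun z hz => ?_⟩
  have key := h.integral2 (f := itg e a A z)
    (g := fun p : E m × E m => ((‖φ p.1 - φ p.2‖ : ℝ) : ℂ) ^ z * b z p)
    (fun p h0 => hs z p (left_ne_zero_of_mul (right_ne_zero_of_mul h0)))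
    (fun p hp => by
      simp only [b, itg]
      rw [h.bdet_eq h hA (h.bsub hp.1) (h.bsub hp.2), h.gone _ (ball_subset_closedBall hp.1),
        h.gone _ (ball_subset_closedBall hp.2)]
      push_cast
      ring)
    (fun p h0 => hbs z p (right_ne_zero_of_mul h0))
  exact ⟨key.1 (hf2 z hz).1, key.2.trans (hf2 z hz).2⟩

lemma cont_far (hM : IsOrientedClosedSubmanifold m M e)
    (hA : Bil A) {a : ℂ → E n × E n → ℂ} (ha : GAmp m a) {S : Set (E n × E n)} (hS : IsClosed S)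
    (hS' : ∀ p ∈ S, p.1 ≠ p.2) (hs : ∀ z p, a z p ≠ 0 → p ∈ S) : ∃ f, Cont M e a A f := by
  have := vol_finite hM
  have hc : Continuous fun q : ℂ × (E n × E n) => ((‖q.2.1 - q.2.2‖ : ℝ) : ℂ) ^ q.1 * a q.1 q.2 := by
    rw [continuous_iff_continuousAt]
    intro q
    by_cases hq : q.2 ∈ S
    · refine ContinuousAt.mul ?_ ha.cont.continuousAt
      refine ContinuousAt.cpow (by fun_prop) continuousAt_fst ?_
      exact Complex.ofReal_mem_slitPlane.mpr (norm_pos_iff.mpr (sub_ne_zero.mpr (hS' _ hq)))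
    · refine (continuousAt_const (y := (0 : ℂ))).congr ?_
      filter_upwards [continuous_snd.continuousAt.eventually (hS.isOpen_compl.mem_nhds hq)] with
        q' hq'
      have : a q'.1 q'.2 = 0 := by_contra fun h0 => hq' (hs _ _ h0)
      simp [this]
  obtain ⟨h1, h2⟩ := entire_of_cont (hM.1.prod hM.1) (ae_mem_vol2 (m := m) hM.1)
    (F := itg e a A) (by
      have := hc.continuousOn.mul ((DD_cont hM hA).comp (continuous_snd.continuousOn
        (s := (univ : Set ℂ) ×ˢ (M ×ˢ M))) fun q hq => hq.2)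
      refine this.congr fun q _ => ?_
      simp only [itg, Pi.mul_apply, Function.comp_apply, mul_assoc])
    (fun p _ => by
      by_cases hp : p ∈ S
      · refine Differentiable.mul ?_ ((ha.holo p).mul_const _)
        refine differentiable_id.const_cpow (Or.inl ?_)
        exact_mod_cast (norm_pos_iff.mpr (sub_ne_zero.mpr (hS' _ hp))).ne'
      · have : ∀ z, a z p = 0 := fun z => by_contra fun h0 => hp (hs _ _ h0)
        simp [itg, this])
  refine ⟨fun z => (Complex.Gamma ((z + m) / 2))⁻¹ * ∫ p, itg e a A z p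
    ∂((vol m M).prod (vol m M)), (Complex.differentiable_one_div_Gamma.comp
      (f := fun z : ℂ => (z + m) / 2) (by fun_prop)).mul h1, fun z hz => ⟨h2 z, ?_⟩⟩
  have ha : 0 < ((z + m) / 2).re := by
    simp
    linarith
  have hG := Complex.Gamma_ne_zero_of_re_pos ha
  field_simp

theorem glob_cont (hm : 1 ≤ m) (hM : IsOrientedClosedSubmanifold m M e)
    (hA : Bil A) {a : ℂ → E n × E n → ℂ} (ha : GAmp m a) : ∃ f, Cont M e a A f := by
  have := vol_finite hM
  obtain ⟨ι, _, ρ, hρ, hsub, hsum⟩ := exists_pou (hM.1.prod hM.1)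
    (fun U => (∃ φ u₀ r W γ, GC M e φ u₀ r W γ ∧ U = W ×ˢ W) ∨ U = {p | p.1 ≠ p.2}) (by
      rintro ⟨x, y⟩ ⟨hx, hy⟩
      by_cases hxy : x = y
      · subst hxy
        obtain ⟨φ, u₀, r, W, γ, h, hW, -⟩ := exists_GC hM hx
        exact ⟨W ×ˢ W, h.Wopen.prod h.Wopen, ⟨hW, hW⟩, Or.inl ⟨φ, u₀, r, W, γ, h, rfl⟩⟩
      · exact ⟨_, isOpen_ne_fun continuous_fst continuous_snd, hxy, Or.inr rfl⟩)
  have key : ∀ j, ∃ f, Cont M e (fun z p => a z p * (ρ j p : ℂ)) A f := by
    intro j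
    have ha' : GAmp m fun z p => a z p * (ρ j p : ℂ) :=
      ha.mul (gamp_smooth (Complex.ofRealCLM.contDiff.comp (hρ j)))
    have hs : ∀ z p, a z p * (ρ j p : ℂ) ≠ 0 → p ∈ tsupport (ρ j) := fun z p h0 =>
      subset_tsupport _ (by exact_mod_cast right_ne_zero_of_mul h0)
    obtain ⟨U, ⟨φ, u₀, r, W, γ, h, rfl⟩ | rfl, hU⟩ := hsub j
    · exact cont_near hm hM h hA ha' fun z p h0 => hU (hs z p h0)
    · exact cont_far hM hA ha' (isClosed_tsupport _) hU hs
  choose f hf using key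
  refine ⟨fun z => ∑ j, f j z, Differentiable.fun_sum fun j _ => (hf j).1, fun z hz => ?_⟩
  have e1 : itg e a A z =ᵐ[(vol m M).prod (vol m M)]
      fun p => ∑ j, itg e (fun z p => a z p * (ρ j p : ℂ)) A z p := by
    filter_upwards [ae_mem_vol2 (m := m) hM.1] with p hp
    have h1 : ∑ j, (ρ j p : ℂ) = 1 := by exact_mod_cast (hsum p hp).self_of_nhds
    simp only [itg]
    rw [← Finset.mul_sum, ← Finset.sum_mul, ← Finset.mul_sum, h1, mul_one]
  rw [integrable_congr e1, integral_congr_ae e1,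
    integral_finsetSum _ fun j _ => ((hf j).2 z hz).1, Finset.mul_sum]
  exact ⟨integrable_finsetSum _ fun j _ => ((hf j).2 z hz).1,
    Finset.sum_congr rfl fun j _ => ((hf j).2 z hz).2⟩

end

end Pool.Agent.Lib.MP_34b615_gt
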