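import Mathlib
import Pool.Agent.Lib.MP_34b615_gt.Glob

set_option autoImplicit false
set_option linter.unusedSectionVars false
set_option linter.unusedVariables false

open MeasureTheory Filter Topology Metric Set
open scoped ENNReal NNReal

namespace Pool.Agent.Lib.MP_34b615_gt

variable {n : ℕ}

/-- The lift to the light cone. -/
noncomputable def lift (p : OnePoint (E n)) : E n × ℝ × ℝ :=
  OnePoint.elim p (0, 0, 1) fun x => (x, 1, ‖x‖ ^ 2)

/-- The Lorentz form. -/
noncomputable def lor (a b : E n × ℝ × ℝ) : ℝ :=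
  inner ℝ a.1 b.1 - (a.2.1 * b.2.2 + b.2.1 * a.2.2) / 2

lemma lor_smul (s t : ℝ) (a b : E n × ℝ × ℝ) : lor (s • a) (t • b) = s * t * lor a b := by
  simp only [lor, Prod.smul_fst, Prod.smul_snd, smul_eq_mul, inner_smul_left, inner_smul_right,
    conj_trivial]
  ring

lemma lor_lift (x y : E n) : lor (lift (x : OnePoint (E n))) (lift (y : OnePoint (E n))) =
    -‖x - y‖ ^ 2 / 2 := by
  simp only [lor, lift, OnePoint.elim_some, norm_sub_sq_real]
  ring

/-- The Lorentz form against a fixed vector. -/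
noncomputable def lorL (σ : E n × ℝ × ℝ) : (E n × ℝ × ℝ) →ₗ[ℝ] ℝ where
  toFun a := lor a σ
  map_add' a b := by
    simp only [lor, Prod.fst_add, Prod.snd_add, inner_add_left]
    ring
  map_smul' c a := by
    have := lor_smul c 1 a σ
    simpa using this

/-- Reflection in a vector. -/
noncomputable def refl (σ : E n × ℝ × ℝ) (q : ℝ) : (E n × ℝ × ℝ) →ₗ[ℝ] (E n × ℝ × ℝ) :=
  LinearMap.id - (2 / q) • (lorL σ).smulRight σ

lemma refl_apply (σ : E n × ℝ × ℝ) (q : ℝ) (a : E n × ℝ × ℝ) :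
    refl σ q a = a - (2 / q * lor a σ) • σ := by
  simp [refl, lorL, mul_smul]

lemma refl_lor {σ : E n × ℝ × ℝ} {q : ℝ} (hq : q ≠ 0) (h : lor σ σ = q) (a b : E n × ℝ × ℝ) :
    lor (refl σ q a) (refl σ q b) = lor a b := by
  rw [refl_apply, refl_apply]
  have e : ∀ s t : ℝ, lor (a - s • σ) (b - t • σ) =
      lor a b - t * lor a σ - s * lor b σ + s * t * lor σ σ := by
    intro s t
    simp only [lor, Prod.fst_sub, Prod.snd_sub, Prod.smul_fst, Prod.smul_snd, smul_eq_mul,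
      inner_sub_left, inner_sub_right, inner_smul_left, inner_smul_right, conj_trivial,
      real_inner_comm b.1 σ.1]
    ring
  rw [e, h]
  field_simp
  ring

lemma null_eq {a : E n × ℝ × ℝ} (h0 : lor a a = 0) {κ : ℝ} (hκ : κ ≠ 0) {y : E n}
    (h1 : a.1 = κ • y) (h2 : a.2.1 = κ) : a = κ • lift (y : OnePoint (E n)) := by
  obtain ⟨v, s, t⟩ := a
  simp only at h1 h2
  subst h1 h2
  simp only [lor, inner_smul_left, inner_smul_right, conj_trivial, real_inner_self_eq_norm_sq] at h0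
  simp only [lift, OnePoint.elim_some, Prod.smul_mk, smul_eq_mul, mul_one, Prod.mk.injEq, true_and]
  apply mul_left_cancel₀ hκ
  linarith

/-- `T` is induced by a Lorentz transformation. -/
def IsLor (T : OnePoint (E n) → OnePoint (E n)) : Prop :=
  ∃ L : (E n × ℝ × ℝ) →ₗ[ℝ] (E n × ℝ × ℝ), (∀ a b, lor (L a) (L b) = lor a b) ∧
    ∀ p, ∃ c : ℝ, 0 < c ∧ L (lift p) = c • lift (T p)

lemma IsLor.comp {S T : OnePoint (E n) → OnePoint (E n)} (hS : IsLor S) (hT : IsLor T) :
    IsLor (S ∘ T) := by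
  obtain ⟨L, hL, hL'⟩ := hS
  obtain ⟨K, hK, hK'⟩ := hT
  refine ⟨L ∘ₗ K, fun a b => by simp [hL, hK], fun p => ?_⟩
  obtain ⟨c, hc, h⟩ := hK' p
  obtain ⟨d, hd, h'⟩ := hL' (T p)
  exact ⟨c * d, mul_pos hc hd, by simp [h, h', mul_smul]⟩

lemma isLor_sphere (c : E n) {r : ℝ} (hr : 0 < r) : IsLor (sphereInversion c r) := by
  have hq : r ^ 2 ≠ 0 := by positivity
  have hσ : lor (c, (1 : ℝ), ‖c‖ ^ 2 - r ^ 2) (c, (1 : ℝ), ‖c‖ ^ 2 - r ^ 2) = r ^ 2 := by
    simp only [lor, real_inner_self_eq_norm_sq]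
    ring
  refine ⟨refl (c, 1, ‖c‖ ^ 2 - r ^ 2) (r ^ 2), refl_lor hq hσ, fun p => ?_⟩
  induction p using OnePoint.rec with
  | infty =>
    refine ⟨1 / r ^ 2, by positivity, ?_⟩
    rw [refl_apply]
    simp only [lift, sphereInversion, OnePoint.elim_infty, OnePoint.elim_some, lor]
    ext
    · simp
      left
      field_simp
    · simp
      field_simp
    · simp
      field_simp
      ring
  | coe x =>
    have e : 2 / r ^ 2 * lor (lift (x : OnePoint (E n))) (c, 1, ‖c‖ ^ 2 - r ^ 2) =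
        1 - ‖x - c‖ ^ 2 / r ^ 2 := by
      simp only [lor, lift, OnePoint.elim_some, norm_sub_sq_real]
      field_simp
      ring
    by_cases hx : x = c
    · subst hx
      refine ⟨r ^ 2, by positivity, ?_⟩
      rw [refl_apply, e]
      simp [lift, sphereInversion]
    · have hd : 0 < ‖x - c‖ := norm_pos_iff.mpr (sub_ne_zero.mpr hx)
      refine ⟨‖x - c‖ ^ 2 / r ^ 2, by positivity, ?_⟩
      have e2 : sphereInversion c r x = ((c + (r ^ 2 / ‖x - c‖ ^ 2) • (x - c) : E n) :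
          OnePoint (E n)) := by
        simp [sphereInversion, hx]
      rw [e2]
      refine null_eq ?_ (by positivity) ?_ ?_
      · rw [refl_lor hq hσ, lor_lift]
        simp
      · rw [refl_apply, e, smul_add, smul_smul,
          show ‖x - c‖ ^ 2 / r ^ 2 * (r ^ 2 / ‖x - c‖ ^ 2) = 1 by field_simp]
        simp only [lift, OnePoint.elim_some, Prod.fst_sub, Prod.smul_fst]
        module
      · rw [refl_apply, e]
        simp [lift]

lemma isLor_plane {a : E n} (ha : ‖a‖ = 1) (t : ℝ) : IsLor (hyperplaneReflection a t) := by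
  have hσ : lor (a, (0 : ℝ), 2 * t) (a, (0 : ℝ), 2 * t) = 1 := by
    simp [lor, ha]
  refine ⟨refl (a, 0, 2 * t) 1, refl_lor one_ne_zero hσ, fun p => ⟨1, one_pos, ?_⟩⟩
  induction p using OnePoint.rec with
  | infty =>
    rw [refl_apply]
    simp [lift, hyperplaneReflection, lor]
  | coe x =>
    have e2 : hyperplaneReflection a t x = ((x - (2 * (inner ℝ x a - t)) • a : E n) :
        OnePoint (E n)) := rfl
    rw [e2]
    refine null_eq ?_ one_ne_zero ?_ ?_
    · rw [refl_lor one_ne_zero hσ, lor_lift]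
      simp
    · rw [refl_apply]
      simp [lift, lor]
    · rw [refl_apply]
      simp [lift]

lemma IsMoebius.isLor {T : OnePoint (E n) → OnePoint (E n)} (h : IsMoebius T) : IsLor T := by
  obtain ⟨l, hl, rfl⟩ := h
  induction l with
  | nil => exact ⟨LinearMap.id, fun _ _ => rfl, fun p => ⟨1, one_pos, by simp⟩⟩
  | cons g l ih =>
    refine IsLor.comp (S := g) ?_ (ih fun g' hg' => hl g' (List.mem_cons_of_mem _ hg'))
    rcases hl g List.mem_cons_self with ⟨c, r, hr, rfl⟩ | ⟨a, t, ha, rfl⟩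
    · exact isLor_sphere c hr
    · exact isLor_plane ha t

theorem moebius_model {T : OnePoint (E n) → OnePoint (E n)} (h : IsMoebius T) {M : Set (E n)}
    (hM : IsCompact M) (hT : ∀ x ∈ M, T x ≠ OnePoint.infty) :
    ∃ (t : E n → E n) (l : E n → ℝ) (O : Set (E n)), IsOpen O ∧ M ⊆ O ∧
      ContDiff ℝ (⊤ : ℕ∞) t ∧ ContDiff ℝ (⊤ : ℕ∞) l ∧ (∀ x ∈ O, t x = finitePart T x) ∧
      ∀ x ∈ O, ∀ y ∈ O, ‖t x - t y‖ ^ 2 = Real.exp (l x) * Real.exp (l y) * ‖x - y‖ ^ 2 := by
  obtain ⟨L, hL, hL'⟩ := h.isLor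
  let F : E n → E n × ℝ × ℝ := fun x => L (lift (x : OnePoint (E n)))
  have hF : ContDiff ℝ (⊤ : ℕ∞) F :=
    (LinearMap.toContinuousLinearMap L).contDiff.comp
      (f := fun x : E n => (x, (1 : ℝ), ‖x‖ ^ 2))
      (contDiff_id.prodMk (contDiff_const.prodMk (contDiff_norm_sq ℝ)))
  let Ω : Set (E n) := {x | 0 < (F x).2.1}
  have hΩ : IsOpen Ω := isOpen_lt continuous_const (by have := hF.continuous; fun_prop)
  have key : ∀ x : E n, T x ≠ OnePoint.infty →
      0 < (F x).2.1 ∧ F x = (F x).2.1 • lift (finitePart T x : OnePoint (E n)) := by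
    intro x hx
    obtain ⟨c, hc, h⟩ := hL' x
    obtain ⟨y, hy⟩ := OnePoint.ne_infty_iff_exists.mp hx
    have e1 : finitePart T x = y := by
      rw [finitePart, ← hy]
      rfl
    have e2 : (F x).2.1 = c := by
      simp only [F]
      rw [h, ← hy]
      simp [lift]
    rw [e1, e2]
    exact ⟨hc, by simp only [F, h, ← hy]⟩
  have key2 : ∀ x ∈ Ω, T x ≠ OnePoint.infty := by
    intro x hx h0
    obtain ⟨c, hc, h⟩ := hL' x
    have : (F x).2.1 = 0 := by
      simp only [F]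
      rw [h, h0]
      simp [lift]
    exact (ne_of_gt hx) this
  have ht : ContDiffOn ℝ (⊤ : ℕ∞) (finitePart T) Ω := by
    have h1 : ContDiffOn ℝ (⊤ : ℕ∞) (fun x => ((F x).2.1)⁻¹ • (F x).1) Ω :=
      (hF.snd.fst.contDiffOn.inv fun x hx => ne_of_gt hx).smul hF.fst.contDiffOn
    refine h1.congr fun x hx => ?_
    have h2 := congrArg Prod.fst (key x (key2 x hx)).2
    simp only [lift, OnePoint.elim_some, Prod.smul_fst] at h2
    rw [h2, smul_smul, inv_mul_cancel₀ (ne_of_gt hx), one_smul]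
  have hl : ContDiffOn ℝ (⊤ : ℕ∞) (fun x => -Real.log (F x).2.1) Ω :=
    (hF.snd.fst.contDiffOn.log fun x hx => ne_of_gt hx).neg
  obtain ⟨ι, _, ρ, hρ, hsub, hsum⟩ := exists_pou hM (fun U => U = Ω)
    fun x hx => ⟨Ω, hΩ, (key x (hT x hx)).1, rfl⟩
  have hs : ∀ j, tsupport (ρ j) ⊆ Ω := fun j => by
    obtain ⟨U, rfl, hU⟩ := hsub j
    exact hU
  refine ⟨fun x => ∑ j, ρ j x • finitePart T x, fun x => ∑ j, ρ j x • -Real.log (F x).2.1,
    Ω ∩ interior {y | ∑ j, ρ j y = 1}, hΩ.inter isOpen_interior,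
    fun x hx => ⟨(key x (hT x hx)).1, mem_interior_iff_mem_nhds.mpr (hsum x hx)⟩,
    ContDiff.sum fun j _ => contDiff_cut hΩ ht (hρ j) (hs j),
    ContDiff.sum fun j _ => contDiff_cut hΩ hl (hρ j) (hs j), fun x hx => ?_, fun x hx y hy => ?_⟩
  · have h1 : ∑ j, ρ j x = 1 := (interior_subset hx.2 : x ∈ {y | ∑ j, ρ j y = 1})
    simp only [← Finset.sum_smul, h1, one_smul]
  · have h1 : ∑ j, ρ j x = 1 := (interior_subset hx.2 : x ∈ {y | ∑ j, ρ j y = 1})
    have h2 : ∑ j, ρ j y = 1 := (interior_subset hy.2 : y ∈ {y | ∑ j, ρ j y = 1})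
    have hx0 : 0 < (F x).2.1 := hx.1
    have hy0 : 0 < (F y).2.1 := hy.1
    simp only [← Finset.sum_smul, h1, h2, one_smul, Real.exp_neg, Real.exp_log hx0,
      Real.exp_log hy0]
    have h3 : lor (F x) (F y) = -‖x - y‖ ^ 2 / 2 := by
      rw [← lor_lift]
      exact hL _ _
    rw [(key x (key2 x hx.1)).2, (key y (key2 y hy.1)).2, lor_smul, lor_lift] at h3
    field_simp
    linarith

end Pool.Agent.Lib.MP_34b615_gt
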