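import Mathlib
import Pool.Agent.Lib.MP_34b615_gt.Glob

set_option autoImplicit false
set_option linter.unusedSectionVars false
set_option linter.unusedVariables false

open MeasureTheory Filter Topology Metric Set
open scoped ENNReal NNReal

namespace Pool.Agent.Lib.MP_34b615_gt

variable {m n : ℕ}

lemma piola {V : Type*} [NormedAddCommGroup V] [NormedSpace ℝ V] (b : Fin m → V)
    (f : Fin m → V → ℂ) (l : Fin m) (hf : ∀ i, i ≠ l → ContDiff ℝ 2 (f i)) (u : V) :
    ∑ σ : Equiv.Perm (Fin m), ((Equiv.Perm.sign σ : ℤ) : ℂ) *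
      fderiv ℝ (fun v => ∏ i ∈ Finset.univ.erase l, fderiv ℝ (f i) v (b (σ i))) u (b (σ l)) = 0 := by
  have hd : ∀ i, i ≠ l → ∀ w, HasFDerivAt (fun v => fderiv ℝ (f i) v w)
      ((fderiv ℝ (fderiv ℝ (f i)) u).flip w) u := by
    intro i hi w
    have h1 : DifferentiableAt ℝ (fderiv ℝ (f i)) u :=
      ((hf i hi).fderiv_right (m := 1) (by norm_num)).differentiable one_ne_zero u
    simpa using h1.hasFDerivAt.clm_apply (hasFDerivAt_const w u)
  have e1 : ∀ σ : Equiv.Perm (Fin m),
      fderiv ℝ (fun v => ∏ i ∈ Finset.univ.erase l, fderiv ℝ (f i) v (b (σ i))) u (b (σ l)) =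
      ∑ k ∈ Finset.univ.erase l, (∏ i ∈ (Finset.univ.erase l).erase k,
        fderiv ℝ (f i) u (b (σ i))) * fderiv ℝ (fderiv ℝ (f k)) u (b (σ l)) (b (σ k)) := by
    intro σ
    rw [(HasFDerivAt.finsetProd (u := Finset.univ.erase l)
      (g := fun i v => fderiv ℝ (f i) v (b (σ i)))
      (fun i hi => hd i (Finset.ne_of_mem_erase hi) (b (σ i)))).fderiv]
    simp
  simp only [e1, Finset.mul_sum]
  rw [Finset.sum_comm]
  refine Finset.sum_eq_zero fun k hk => ?_
  have hkl : k ≠ l := Finset.ne_of_mem_erase hk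
  set T : Equiv.Perm (Fin m) → ℂ := fun σ => (∏ i ∈ (Finset.univ.erase l).erase k,
        fderiv ℝ (f i) u (b (σ i))) * fderiv ℝ (fderiv ℝ (f k)) u (b (σ l)) (b (σ k)) with hT
  have hsym : ∀ σ, T (σ * Equiv.swap k l) = T σ := by
    intro σ
    simp only [hT, Equiv.Perm.mul_apply, Equiv.swap_apply_left, Equiv.swap_apply_right]
    rw [((hf k hkl).contDiffAt.isSymmSndFDerivAt (by simp)).eq]
    congr 1
    refine Finset.prod_congr rfl fun i hi => ?_
    rw [Equiv.swap_apply_of_ne_of_ne (Finset.ne_of_mem_erase hi)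
      (Finset.ne_of_mem_erase (Finset.mem_of_mem_erase hi))]
  have h2 : ∑ σ : Equiv.Perm (Fin m), ((Equiv.Perm.sign σ : ℤ) : ℂ) * T σ =
      -∑ σ : Equiv.Perm (Fin m), ((Equiv.Perm.sign σ : ℤ) : ℂ) * T σ := by
    conv_lhs => rw [← Equiv.sum_comp (Equiv.mulRight (Equiv.swap k l))]
    rw [← Finset.sum_neg_distrib]
    refine Finset.sum_congr rfl fun σ _ => ?_
    simp only [Equiv.coe_mulRight, hsym, Equiv.Perm.sign_mul, Equiv.Perm.sign_swap hkl]
    push_cast
    ring
  linear_combination (1 / 2 : ℂ) * h2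

theorem stokes_flat (b : Fin m → E m) (f : Fin m → E m → ℂ) (l : Fin m) (hl : ContDiff ℝ 1 (f l))
    (hc : HasCompactSupport (f l)) (hf : ∀ i, i ≠ l → ContDiff ℝ 2 (f i)) :
    ∫ u, (Matrix.of fun i j => fderiv ℝ (f i) u (b j)).det = 0 := by
  let P : Equiv.Perm (Fin m) → E m → ℂ := fun σ v =>
    ∏ i ∈ Finset.univ.erase l, fderiv ℝ (f i) v (b (σ i))
  have hP : ∀ σ, ContDiff ℝ 1 (P σ) := fun σ => contDiff_prod fun i hi =>
    ((hf i (Finset.ne_of_mem_erase hi)).fderiv_right (m := 1) (by norm_num)).clm_apply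
      contDiff_const
  have e1 : ∀ u, (Matrix.of fun i j => fderiv ℝ (f i) u (b j)).det =
      ∑ σ : Equiv.Perm (Fin m), ((Equiv.Perm.sign σ : ℤ) : ℂ) *
        (fderiv ℝ (f l) u (b (σ l)) * P σ u) := by
    intro u
    rw [← Matrix.det_transpose, Matrix.det_apply']
    refine Finset.sum_congr rfl fun σ _ => ?_
    congr 1
    simp only [Matrix.transpose_apply, Matrix.of_apply, P]
    exact (Finset.mul_prod_erase _ (fun i => fderiv ℝ (f i) u (b (σ i))) (Finset.mem_univ l)).symm
  have i1 : ∀ σ : Equiv.Perm (Fin m),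
      Integrable fun u => fderiv ℝ (f l) u (b (σ l)) * P σ u := fun σ =>
    Continuous.integrable_of_hasCompactSupport
      (((hl.continuous_fderiv one_ne_zero).clm_apply continuous_const).mul (hP σ).continuous)
      (hc.fderiv_apply (𝕜 := ℝ) _).mul_right
  have i2 : ∀ σ : Equiv.Perm (Fin m),
      Integrable fun u => f l u * fderiv ℝ (P σ) u (b (σ l)) := fun σ =>
    Continuous.integrable_of_hasCompactSupport
      (hl.continuous.mul (((hP σ).continuous_fderiv one_ne_zero).clm_apply continuous_const))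
      hc.mul_right
  have i3 : ∀ σ : Equiv.Perm (Fin m), Integrable fun u => f l u * P σ u := fun σ =>
    Continuous.integrable_of_hasCompactSupport (hl.continuous.mul (hP σ).continuous) hc.mul_right
  have e2 : ∀ σ : Equiv.Perm (Fin m), ∫ u, fderiv ℝ (f l) u (b (σ l)) * P σ u =
      -∫ u, f l u * fderiv ℝ (P σ) u (b (σ l)) := fun σ => by
    rw [integral_mul_fderiv_eq_neg_fderiv_mul_of_integrable (i1 σ) (i2 σ) (i3 σ)
      (fun x _ => hl.differentiable one_ne_zero x) (fun x _ => (hP σ).differentiable one_ne_zero x),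
      neg_neg]
  simp only [e1]
  rw [integral_finsetSum _ fun σ _ => (i1 σ).const_mul _]
  simp only [integral_const_mul, e2, mul_neg, Finset.sum_neg_distrib, neg_eq_zero]
  simp only [← integral_const_mul]
  rw [← integral_finsetSum _ fun σ _ => (i2 σ).const_mul _]
  have e3 : ∀ u, ∑ σ : Equiv.Perm (Fin m), ((Equiv.Perm.sign σ : ℤ) : ℂ) *
      (f l u * fderiv ℝ (P σ) u (b (σ l))) = 0 := fun u => by
    have := piola b f l hf u
    simp only [mul_left_comm _ (f l u), ← Finset.mul_sum]
    rw [this, mul_zero]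
  simp [e3]

section
variable {M : Set (E n)} {e : E n → Fin m → E n} {φ : E m → E n} {u₀ : E m} {r : ℝ}
  {W : Set (E n)} {γ : E m → ℝ}

/-- Determinant of a family of differentials on the oriented tangent plane. -/
noncomputable def FD (e : E n → Fin m → E n) (L : Fin m → E n → E n →L[ℝ] ℂ) (x : E n) : ℂ :=
  (Matrix.of fun i j => L i x (e x j)).det

lemma GC.det_eq (h : GC M e φ u₀ r W γ) (L : Fin m → E n → E n →L[ℝ] ℂ) {u : E m}
    (hu : u ∈ ball u₀ (2 * r)) :
    (Matrix.of fun i j => L i (φ u) (tang φ u j)).det = (jac φ u : ℂ) * FD e L (φ u) := by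
  rw [det_frame (h.orth u hu) (h.span u hu) (fun i => L i (φ u))
    (fun i => (L i (φ u)).toLinearMap.isLinear), h.jac_eq u hu, FD]

lemma FD_cont (hM : IsOrientedClosedSubmanifold m M e) {L : Fin m → E n → E n →L[ℝ] ℂ}
    (hL : ∀ i, Continuous (L i)) : ContinuousOn (FD e L) M := by
  intro x hx
  obtain ⟨φ, u₀, r, W, γ, h, -, rfl⟩ := exists_GC hM hx
  have hu : u₀ ∈ ball u₀ (2 * r) := mem_ball_self (by linarith [h.rpos])
  refine Tendsto.mono_left ?_ (h.nhds u₀ hu)
  rw [tendsto_map'_iff]
  have hj : ∀ u ∈ ball u₀ (2 * r), (jac φ u : ℂ) ≠ 0 := fun u hu => by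
    exact_mod_cast (jac_pos (h.imm _ hu)).ne'
  have he : ∀ u ∈ ball u₀ (2 * r), (Matrix.of fun i j => L i (φ u) (tang φ u j)).det /
      (jac φ u : ℂ) = (FD e L ∘ φ) u := fun u hu => by
    rw [h.det_eq L hu, mul_div_cancel_left₀ _ (hj u hu)]
    rfl
  have hc : ContinuousAt (fun u => (Matrix.of fun i j => L i (φ u) (tang φ u j)).det /
      (jac φ u : ℂ)) u₀ := by
    refine ContinuousAt.div (Continuous.continuousAt (Continuous.matrix_det ?_))
      (Complex.continuous_ofReal.comp (jac_continuous h.c1)).continuousAt (hj _ hu)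
    exact continuous_matrix fun i j =>
      ((hL i).comp h.smooth.continuous).clm_apply (tang_continuous h.c1 j)
  exact (hc.congr (eventually_of_mem (isOpen_ball.mem_nhds hu) he)).tendsto

lemma integrable_vol (hM : IsOrientedClosedSubmanifold m M e) {f : E n → ℂ}
    (hf : ContinuousOn f M) : Integrable f (vol m M) := by
  have := vol_finite hM
  have h := hf.integrableOn_compact (μ := vol m M) hM.1
  rwa [IntegrableOn, Measure.restrict_eq_self_of_ae_mem (ae_mem_vol hM.1)] at h

lemma GC.stokes (h : GC M e φ u₀ r W γ) (f : Fin m → E n → ℂ) (l : Fin m)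
    (hl : ContDiff ℝ 1 (f l)) (hs : tsupport (f l) ⊆ W) (hf : ∀ i, i ≠ l → ContDiff ℝ 2 (f i)) :
    ∫ x, FD e (fun i => fderiv ℝ (f i)) x ∂(vol m M) = 0 := by
  let g : Fin m → E m → ℂ := Function.update (fun i u => f i (φ u)) l fun u => γ u • f l (φ u)
  have hgl : g l = fun u => γ u • f l (φ u) := Function.update_self _ _ _
  have hgi : ∀ i, i ≠ l → g i = fun u => f i (φ u) := fun i hi => Function.update_of_ne hi _ _
  have hz : ∀ u, u ∉ ball u₀ r → g l u = 0 := by
    intro u hu
    rw [hgl]
    by_contra h0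
    exact hu (h.mem_ball (left_ne_zero_of_smul h0)
      (hs (subset_tsupport _ (right_ne_zero_of_smul h0))))
  have hd : ∀ i, Differentiable ℝ (f i) := fun i => by
    by_cases hi : i = l
    · exact hi ▸ hl.differentiable one_ne_zero
    · exact (hf i hi).differentiable two_ne_zero
  rw [← stokes_flat (fun j => EuclideanSpace.single j 1) g l
    (by rw [hgl]; exact (h.gsmooth.of_le (by simp)).smul (hl.comp h.c1))
    (HasCompactSupport.intro (isCompact_closedBall u₀ r)
      fun u hu => hz u fun h' => hu (ball_subset_closedBall h'))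
    (fun i hi => by rw [hgi i hi]; exact (hf i hi).comp (h.smooth.of_le (by norm_cast)))]
  refine h.integral1 (fun x hx => hs ?_) (fun u hu => ?_) (fun u hu => ?_)
  · by_contra hx'
    apply hx
    refine Matrix.det_eq_zero_of_row_eq_zero l fun j => ?_
    have : fderiv ℝ (f l) x = 0 := by
      rw [(notMem_tsupport_iff_eventuallyEq.mp hx').fderiv_eq]
      simp
    simp [this]
  · rw [← h.det_eq _ (h.bsub hu)]
    congr 1
    ext i j
    have e1 : g i =ᶠ[𝓝 u] fun v => f i (φ v) := by
      by_cases hi : i = l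
      · subst hi
        filter_upwards [isOpen_ball.mem_nhds hu] with v hv
        rw [hgl]
        simp only [h.gone v (ball_subset_closedBall hv), one_smul]
      · rw [hgi i hi]
    simp only [Matrix.of_apply, tang]
    rw [e1.fderiv_eq, fderiv_fun_comp u (hd i _) (h.c1.differentiable one_ne_zero u)]
    rfl
  · by_contra hu'
    apply hu
    refine Matrix.det_eq_zero_of_row_eq_zero l fun j => ?_
    have e1 : g l =ᶠ[𝓝 u] 0 := by
      by_cases h2 : u ∈ ball u₀ (2 * r)
      · have h3 : φ u ∉ tsupport (f l) := by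
          intro h3
          obtain ⟨v, hv, hvu⟩ : φ u ∈ φ '' ball u₀ r := h.img ▸ ⟨h.sub u h2, hs h3⟩
          rw [← h.inj (h.bsub hv) h2 hvu] at hu'
          exact hu' hv
        filter_upwards [h.smooth.continuous.continuousAt.eventually
          (notMem_tsupport_iff_eventuallyEq.mp h3)] with v hv
        rw [hgl]
        simp only [hv, Pi.zero_apply, smul_zero]
      · have h3 : u ∈ (closedBall u₀ r)ᶜ := fun h3 =>
          h2 (closedBall_subset_ball (by linarith [h.rpos]) h3)
        filter_upwards [isClosed_closedBall.isOpen_compl.mem_nhds h3] with v hv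
        exact hz v fun h' => hv (ball_subset_closedBall h')
    have : fderiv ℝ (g l) u = 0 := by
      rw [e1.fderiv_eq]
      simp
    simp [this]

lemma FD_update (L : Fin m → E n → E n →L[ℝ] ℂ) (l : Fin m) (K : E n → E n →L[ℝ] ℂ) (x : E n) :
    FD e (Function.update L l K) x =
      ((Matrix.of fun i j => L i x (e x j)).updateRow l fun j => K x (e x j)).det := by
  rw [FD]
  congr 1
  ext i j
  by_cases hi : i = l
  · subst hi
    simp
  · simp [hi]

theorem stokesM (hM : IsOrientedClosedSubmanifold m M e) (f : Fin m → E n → ℂ) (l : Fin m)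
    (hl : ContDiff ℝ 1 (f l)) (hf : ∀ i, i ≠ l → ContDiff ℝ 2 (f i)) :
    ∫ x, FD e (fun i => fderiv ℝ (f i)) x ∂(vol m M) = 0 := by
  obtain ⟨ι, _, ρ, hρ, hsub, hsum⟩ := exists_pou hM.1
    (fun U => ∃ φ u₀ r γ, GC M e φ u₀ r U γ) (fun x hx => by
      obtain ⟨φ, u₀, r, W, γ, h, hW, -⟩ := exists_GC hM hx
      exact ⟨W, h.Wopen, hW, φ, u₀, r, γ, h⟩)
  let g : ι → Fin m → E n → ℂ := fun k => Function.update f l fun x => ρ k x • f l x
  have hk1 : ∀ k, ContDiff ℝ 1 fun x => ρ k x • f l x := fun k =>
    ((hρ k).of_le (by simp)).smul hl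
  have hg : ∀ k, (fun i => fderiv ℝ (g k i)) = Function.update (fun i => fderiv ℝ (f i)) l
      (fderiv ℝ fun x => ρ k x • f l x) := fun k =>
    Function.comp_update (fderiv ℝ) f l _
  have hc : ∀ k i, Continuous (fderiv ℝ (g k i)) := fun k i => by
    by_cases hi : i = l
    · subst hi
      simp only [g, Function.update_self]
      exact (hk1 k).continuous_fderiv one_ne_zero
    · simp only [g, Function.update_of_ne hi]
      exact (hf i hi).continuous_fderiv two_ne_zero
  have e1 : FD e (fun i => fderiv ℝ (f i)) =ᵐ[vol m M]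
      fun x => ∑ k, FD e (fun i => fderiv ℝ (g k i)) x := by
    filter_upwards [ae_mem_vol (m := m) hM.1] with x hx
    have e2 : fderiv ℝ (f l) x = ∑ k, fderiv ℝ (fun x => ρ k x • f l x) x := by
      rw [← fderiv_fun_sum fun k _ => (hk1 k).differentiable one_ne_zero x]
      refine Filter.EventuallyEq.fderiv_eq ?_
      filter_upwards [hsum x hx] with y hy
      rw [← Finset.sum_smul, hy, one_smul]
    simp only [hg, FD_update]
    have e3 := (Matrix.detRowAlternating (n := Fin m) (R := ℂ)).toMultilinearMap.map_update_sum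
      Finset.univ l (fun k j => fderiv ℝ (fun x => ρ k x • f l x) x (e x j))
      (Matrix.of fun i j => fderiv ℝ (f i) x (e x j))
    refine Eq.trans ?_ e3
    rw [FD]
    show _ = Matrix.det ((Matrix.of fun i j => fderiv ℝ (f i) x (e x j)).updateRow l
      (∑ k, fun j => fderiv ℝ (fun x => ρ k x • f l x) x (e x j)))
    congr 1
    ext i j
    by_cases hi : i = l
    · subst hi
      simp [e2]
    · simp [hi]
  rw [integral_congr_ae e1, integral_finsetSum _ fun k _ => integrable_vol hM (FD_cont hM (hc k))]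
  refine Finset.sum_eq_zero fun k _ => ?_
  obtain ⟨U, ⟨φ, u₀, r, γ, h⟩, hU⟩ := hsub k
  refine h.stokes (g k) l ?_ ?_ fun i hi => ?_
  · simp only [g, Function.update_self]
    exact hk1 k
  · simp only [g, Function.update_self]
    exact (tsupport_smul_subset_left _ _).trans hU
  · simp only [g, Function.update_of_ne hi]
    exact hf i hi

theorem row_lemma (hM : IsOrientedClosedSubmanifold m M e) {h : ℝ → ℂ} (hh : Continuous h)
    {K : E n → ℝ} (hK : ContDiff ℝ 2 K) (p : Fin m → E n → ℂ) (hp : ∀ i, ContDiff ℝ 2 (p i))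
    (a : Fin m → ℂ) :
    ∫ x, h (K x) * FD e (fun i => fderiv ℝ fun y => p i y + a i * (K y : ℂ)) x ∂(vol m M) =
      ∫ x, h (K x) * FD e (fun i => fderiv ℝ (p i)) x ∂(vol m M) := by
  have hKc : ContDiff ℝ 2 fun y => (K y : ℂ) := Complex.ofRealCLM.contDiff.comp hK
  let q : Finset (Fin m) → Fin m → E n → ℂ := fun S i y =>
    p i y + (if i ∈ S then a i else 0) * (K y : ℂ)
  have hq : ∀ S i, ContDiff ℝ 2 (q S i) := fun S i => (hp i).add (contDiff_const.mul hKc)
  let g : ℝ → ℂ := fun s => ∫ t in (0 : ℝ)..s, h t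
  have hg : ∀ s, HasDerivAt g (h s) s := fun s => (hh.integral_hasStrictDerivAt 0 s).hasDerivAt
  have hg1 : ContDiff ℝ 1 g := by
    rw [contDiff_one_iff_deriv]
    refine ⟨fun s => (hg s).differentiableAt, ?_⟩
    rwa [show deriv g = h from funext fun s => (hg s).deriv]
  have hint : ∀ f : Fin m → E n → ℂ, (∀ i, ContDiff ℝ 2 (f i)) →
      Integrable (fun x => h (K x) * FD e (fun i => fderiv ℝ (f i)) x) (vol m M) := fun f hf =>
    integrable_vol hM ((hh.comp hK.continuous).continuousOn.mul
      (FD_cont hM fun i => (hf i).continuous_fderiv two_ne_zero))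
  have key : ∀ S : Finset (Fin m), ∫ x, h (K x) * FD e (fun i => fderiv ℝ (q S i)) x ∂(vol m M) =
      ∫ x, h (K x) * FD e (fun i => fderiv ℝ (p i)) x ∂(vol m M) := by
    intro S
    induction S using Finset.induction_on with
    | empty => simp [q]
    | insert l S hl ih =>
      rw [← ih]
      let f : Fin m → E n → ℂ := Function.update (q S) l fun y => g (K y)
      have hfl : ContDiff ℝ 1 (f l) := by
        simp only [f, Function.update_self]
        exact hg1.comp (hK.of_le (by norm_num))
      have hfi : ∀ i, i ≠ l → ContDiff ℝ 2 (f i) := fun i hi => by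
        simp only [f, Function.update_of_ne hi]
        exact hq S i
      have hst := stokesM hM f l hfl hfi
      have e1 : ∀ x, h (K x) * FD e (fun i => fderiv ℝ (q (insert l S) i)) x =
          h (K x) * FD e (fun i => fderiv ℝ (q S i)) x +
            a l * FD e (fun i => fderiv ℝ (f i)) x := by
        intro x
        have d0 : HasFDerivAt K (fderiv ℝ K x) x := (hK.differentiable two_ne_zero x).hasFDerivAt
        have d1 : ∀ v, fderiv ℝ (fun y => g (K y)) x v = h (K x) * (fderiv ℝ K x v : ℝ) := by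
          intro v
          rw [show (fun y => g (K y)) = g ∘ K from rfl, ((hg (K x)).hasFDerivAt.comp x d0).fderiv]
          simp [mul_comm]
        have d2 : ∀ v, fderiv ℝ (q (insert l S) l) x v =
            fderiv ℝ (q S l) x v + a l * (fderiv ℝ K x v : ℝ) := by
          intro v
          have e2 : q (insert l S) l = fun y => q S l y + a l * (K y : ℂ) := by
            funext y
            simp [q, hl]
          have d3 := ((hq S l).differentiable two_ne_zero x).hasFDerivAt.add
            ((Complex.ofRealCLM.hasFDerivAt.comp x d0).const_mul (a l))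
          rw [e2]
          erw [d3.fderiv]
          simp
        have e3 : (fun i => fderiv ℝ (q (insert l S) i)) = Function.update
            (fun i => fderiv ℝ (q S i)) l (fderiv ℝ (q (insert l S) l)) := by
          funext i
          by_cases hi : i = l
          · subst hi
            simp
          · simp [hi, q]
        have e4 : (fun i => fderiv ℝ (f i)) = Function.update
            (fun i => fderiv ℝ (q S i)) l (fderiv ℝ fun y => g (K y)) :=
          Function.comp_update (fderiv ℝ) (q S) l _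
        rw [e3, e4, FD_update, FD_update]
        have e5 : (fun j => fderiv ℝ (q (insert l S) l) x (e x j)) =
            (Matrix.of fun i j => fderiv ℝ (q S i) x (e x j)) l +
              a l • fun j => ((fderiv ℝ K x (e x j) : ℝ) : ℂ) := by
          funext j
          simp [d2]
        have e6 : (fun j => fderiv ℝ (fun y => g (K y)) x (e x j)) =
            h (K x) • fun j => ((fderiv ℝ K x (e x j) : ℝ) : ℂ) := by
          funext j
          simp [d1]
        rw [e5, e6, Matrix.det_updateRow_add, Matrix.det_updateRow_smul, Matrix.det_updateRow_smul,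
          Matrix.updateRow_eq_self, FD]
        ring
      simp only [e1]
      rw [integral_add (hint _ (hq S)), integral_const_mul, hst, mul_zero, add_zero]
      refine (integrable_vol hM (FD_cont hM fun i => ?_)).const_mul _
      by_cases hi : i = l
      · exact hi ▸ hfl.continuous_fderiv one_ne_zero
      · exact (hfi i hi).continuous_fderiv two_ne_zero
  have := key Finset.univ
  simpa [q] using this

end

end Pool.Agent.Lib.MP_34b615_gt
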