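import Mathlib
import Pool.Agent.Lib.MP_34b615_gt.Stokes

set_option autoImplicit false
set_option linter.unusedSectionVars false
set_option linter.unusedVariables false

open MeasureTheory Filter Topology Metric Set
open scoped ENNReal NNReal

namespace Pool.Agent.Lib.MP_34b615_gt

variable {m n : ℕ}

/-- A smooth map which rescales distances by a product near `M`. -/
structure Conf (M : Set (E n)) (t : E n → E n) (l : E n → ℝ) (O : Set (E n)) : Prop where
  op : IsOpen O
  sub : M ⊆ O
  ts : ContDiff ℝ (⊤ : ℕ∞) t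
  ls : ContDiff ℝ (⊤ : ℕ∞) l
  dist : ∀ x ∈ O, ∀ y ∈ O, ‖t x - t y‖ ^ 2 = Real.exp (l x) * Real.exp (l y) * ‖x - y‖ ^ 2

variable {M : Set (E n)} {e : E n → Fin m → E n} {t : E n → E n} {l : E n → ℝ} {O : Set (E n)}

lemma Conf.dt (h : Conf M t l O) (x : E n) : HasFDerivAt t (fderiv ℝ t x) x :=
  (h.ts.differentiable (by simp) x).hasFDerivAt

lemma Conf.dl (h : Conf M t l O) (x : E n) : HasFDerivAt l (fderiv ℝ l x) x :=
  (h.ls.differentiable (by simp) x).hasFDerivAt

lemma Conf.inj (h : Conf M t l O) : InjOn t O := by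
  intro x hx y hy hxy
  have h1 := h.dist x hx y hy
  rw [hxy, sub_self, norm_zero] at h1
  have h2 : 0 < Real.exp (l x) * Real.exp (l y) := by positivity
  have h3 : ‖x - y‖ ^ 2 = 0 := by nlinarith [sq_nonneg ‖x - y‖]
  exact sub_eq_zero.mp (norm_eq_zero.mp (pow_eq_zero_iff two_ne_zero |>.mp h3))

lemma Conf.norm_eq (h : Conf M t l O) {x y : E n} (hx : x ∈ O) (hy : y ∈ O) :
    ‖t x - t y‖ = Real.exp ((l x + l y) / 2) * ‖x - y‖ := by
  rw [← sq_eq_sq₀ (norm_nonneg _) (by positivity), h.dist x hx y hy, mul_pow, ← Real.exp_add,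
    sq (Real.exp _), ← Real.exp_add, add_halves]

lemma Conf.d1 (h : Conf M t l O) {x y : E n} (hx : x ∈ O) (hy : y ∈ O) (w : E n) :
    inner ℝ (t x - t y) (fderiv ℝ t y w) = Real.exp (l y) * (Real.exp (l x) * inner ℝ (x - y) w +
      (-(1 / 2) * fderiv ℝ l y w) * (Real.exp (l x) * ‖x - y‖ ^ 2)) := by
  have a1 := ((h.dt y).const_sub (t x)).norm_sq
  have a2 := (((h.dl y).exp).const_mul (Real.exp (l x))).mul
    (((hasFDerivAt_id y).const_sub x).norm_sq)
  have a3 := a1.unique (a2.congr_of_eventuallyEq (by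
    filter_upwards [h.op.mem_nhds hy] with y' hy'
    exact h.dist x hx y' hy'))
  have a4 := congrArg (fun L : E n →L[ℝ] ℝ => L w) a3
  simp at a4
  simp only [inner_sub_left]
  linarith

lemma Conf.d2 (h : Conf M t l O) {x y : E n} (hx : x ∈ O) (hy : y ∈ O) (v w : E n) :
    inner ℝ (fderiv ℝ t x v) (fderiv ℝ t y w) = Real.exp (l y) * (Real.exp (l x) *
      (inner ℝ v w + fderiv ℝ l x v * inner ℝ (x - y) w) + (-(1 / 2) * fderiv ℝ l y w) *
        (Real.exp (l x) * (fderiv ℝ l x v * ‖x - y‖ ^ 2 + 2 * inner ℝ (x - y) v))) := by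
  have a1 := ((h.dt x).sub_const (t y)).inner ℝ (hasFDerivAt_const (fderiv ℝ t y w) x)
  have b1 := (h.dl x).exp
  have b2 := (hasFDerivAt_id (𝕜 := ℝ) x).sub_const y
  have a2 := ((b1.mul (b2.inner ℝ (hasFDerivAt_const w x))).add
    ((b1.mul b2.norm_sq).const_mul (-(1 / 2) * fderiv ℝ l y w))).const_mul (Real.exp (l y))
  have a3 := a1.unique (a2.congr_of_eventuallyEq (by
    filter_upwards [h.op.mem_nhds hx] with x' hx'
    exact h.d1 hx' hy w))
  have a4 := congrArg (fun L : E n →L[ℝ] ℝ => L v) a3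
  simp [fderivInnerCLM_apply] at a4
  rw [a4, inner_sub_left x y v]
  ring

lemma Conf.conf (h : Conf M t l O) {x : E n} (hx : x ∈ O) (v w : E n) :
    inner ℝ (fderiv ℝ t x v) (fderiv ℝ t x w) = Real.exp (l x) ^ 2 * inner ℝ v w := by
  rw [h.d2 hx hx]
  simp
  ring

lemma Conf.sqrt_pairing (h : Conf M t l O) {x : E n} (hx : x ∈ O) (v : Fin m → E n) :
    Real.sqrt (pairing (fun j => fderiv ℝ t x (v j)) fun j => fderiv ℝ t x (v j)) =
      Real.exp (l x) ^ m * Real.sqrt (pairing v v) := by
  have e1 : pairing (fun j => fderiv ℝ t x (v j)) (fun j => fderiv ℝ t x (v j)) =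
      (Real.exp (l x) ^ m) ^ 2 * pairing v v := by
    have := Matrix.det_smul (Matrix.of fun i j => inner ℝ (v i) (v j)) (Real.exp (l x) ^ 2)
    rw [Fintype.card_fin, ← pow_mul, mul_comm 2 m, pow_mul] at this
    rw [pairing, pairing, ← this]
    congr 1
    ext i j
    simp [h.conf hx]
  rw [e1, Real.sqrt_mul (sq_nonneg _), Real.sqrt_sq (by positivity)]

lemma Conf.imm (h : Conf M t l O) {x : E n} (hx : x ∈ O) :
    Function.Injective (fderiv ℝ t x) := by
  rw [injective_iff_map_eq_zero]
  intro v hv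
  have h1 := h.conf hx v v
  rw [hv, inner_zero_left] at h1
  have h2 : 0 < Real.exp (l x) ^ 2 := by positivity
  exact inner_self_eq_zero.mp ((mul_eq_zero.mp h1.symm).resolve_left h2.ne')

theorem Conf.vol_image (h : Conf M t l O) (hM : IsOrientedClosedSubmanifold m M e) :
    vol m (t '' M) = Measure.map t
      ((vol m M).withDensity fun x => ENNReal.ofReal (Real.exp (l x) ^ m)) := by
  have hj : Measurable fun x => ENNReal.ofReal (Real.exp (l x) ^ m) :=
    (Continuous.measurable (by have := h.ls.continuous; fun_prop)).ennreal_ofReal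
  have hMm := hM.1.measurableSet
  obtain ⟨D, hDm, hDd, hcov, hP⟩ := exists_piece (U := M) (fun N => ∀ B ⊆ N, MeasurableSet B →
      Measure.euclideanHausdorffMeasure m (t '' (B ∩ M)) =
        ∫⁻ x in B, ENNReal.ofReal (Real.exp (l x) ^ m) ∂(vol m M))
    (fun N N' hN h B hB => h B (hB.trans hN))
    (fun B hB _ => by rw [subset_empty_iff.mp hB]; simp) (by
      intro x hx
      obtain ⟨φ, u₀, r, W, γ, hc, hW, -⟩ := exists_GC hM hx
      refine ⟨W, hc.Wopen.mem_nhds hW, fun B hB hBm => ?_⟩
      have hφm := hc.smooth.continuous.measurable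
      have hO : ∀ u ∈ ball u₀ r, φ u ∈ O := fun u hu => h.sub (hc.sub u (hc.bsub hu))
      have hD : ∀ u, fderiv ℝ (t ∘ φ) u = (fderiv ℝ t (φ u)).comp (fderiv ℝ φ u) := fun u =>
        fderiv_comp u (h.dt _).differentiableAt (hc.c1.differentiable one_ne_zero u)
      have e1 : B ∩ M = φ '' (φ ⁻¹' B ∩ ball u₀ r) := by
        rw [image_preimage_inter, hc.img, inter_comm M W, ← inter_assoc, inter_eq_left.mpr hB]
      have e2 : (vol m M).restrict B = ((vol m M).restrict W).restrict B := by
        rw [Measure.restrict_restrict hBm, inter_eq_left.mpr hB]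
      have hA : MeasurableSet (φ ⁻¹' B ∩ ball u₀ r) := (hφm hBm).inter measurableSet_ball
      rw [e1, ← image_comp, area_formula ((h.ts.of_le (by simp)).comp hc.c1) hA
        (h.inj.comp (hc.inj.mono (inter_subset_right.trans hc.bsub)) fun u hu => hO u hu.2)
        (fun u hu => by
          rw [hD]
          exact (h.imm (hO u hu.2)).comp (hc.imm u (hc.bsub hu.2))),
        e2, hc.vol_restrict, setLIntegral_map hBm hj hφm,
        setLIntegral_withDensity_eq_setLIntegral_mul _
          (jac_continuous hc.c1).measurable.ennreal_ofReal (hj.fun_comp hφm) (hφm hBm),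
        Measure.restrict_restrict (hφm hBm)]
      refine setLIntegral_congr_fun hA fun u hu => ?_
      have e3 : tang (t ∘ φ) u = fun j => fderiv ℝ t (φ u) (tang φ u j) := by
        funext j
        simp only [tang, hD]
        rfl
      simp only [Pi.mul_apply]
      rw [jac, e3, h.sqrt_pairing (hO u hu.2), ENNReal.ofReal_mul (by positivity), mul_comm, jac])
  ext S hS
  have htm := h.ts.continuous.measurable
  have hB := htm hS
  rw [vol, Measure.restrict_apply hS, Measure.map_apply htm hS, withDensity_apply _ hB,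
    ← image_preimage_inter]
  have hm : ∀ i, MeasurableSet (t ⁻¹' S ∩ D i) := fun i => hB.inter (hDm i)
  have hd : Pairwise (Function.onFun Disjoint fun i => t ⁻¹' S ∩ D i) := fun i j hij =>
    (hDd hij).mono inter_subset_right inter_subset_right
  have e1 : t ⁻¹' S ∩ M = ⋃ i, (t ⁻¹' S ∩ D i) ∩ M := by
    rw [← iUnion_inter, ← inter_iUnion, inter_assoc, inter_eq_right.mpr hcov]
  have e2 : (vol m M).restrict (t ⁻¹' S) = (vol m M).restrict (⋃ i, t ⁻¹' S ∩ D i) := by
    rw [vol, Measure.restrict_restrict hB, Measure.restrict_restrict (MeasurableSet.iUnion hm), e1,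
      iUnion_inter]
  rw [e2, lintegral_iUnion hm hd, e1, image_iUnion, measure_iUnion]
  · exact tsum_congr fun i => hP i _ inter_subset_right (hm i)
  · intro i j hij
    exact ((hd hij).mono inter_subset_left inter_subset_left).image (h.inj.mono h.sub)
      inter_subset_right inter_subset_right
  · intro i
    exact ((hm i).inter hMm).image_of_continuousOn_injOn h.ts.continuous.continuousOn
      (h.inj.mono (inter_subset_right.trans h.sub))

/-- The three fields of forms. -/
noncomputable def A0 (p : E n × E n) (v w : E n) : ℂ := ((inner ℝ v w : ℝ) : ℂ)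

/-- The three fields of forms. -/
noncomputable def A1 (l : E n → ℝ) (p : E n × E n) (v w : E n) : ℂ :=
  ((Real.exp (l p.1) * (inner ℝ v w + fderiv ℝ l p.1 v * inner ℝ (p.1 - p.2) w) : ℝ) : ℂ)

/-- The three fields of forms. -/
noncomputable def A2 (t : E n → E n) (p : E n × E n) (v w : E n) : ℂ :=
  ((inner ℝ (fderiv ℝ t p.1 v) (fderiv ℝ t p.2 w) : ℝ) : ℂ)

lemma bil0 : Bil (A0 (n := n)) :=
  ⟨fun _ => inner_lin1, fun _ => inner_lin2, Complex.ofRealCLM.contDiff.comp
    (contDiff_snd.fst.inner ℝ contDiff_snd.snd)⟩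

lemma Conf.bil1 (h : Conf M t l O) : Bil (A1 l) := by
  refine ⟨fun p w => ⟨fun a b => ?_, fun c a => ?_⟩, fun p v => ⟨fun a b => ?_, fun c a => ?_⟩, ?_⟩
  · simp only [A1, inner_add_left, map_add]
    push_cast
    ring
  · simp only [A1, inner_smul_left, map_smul, Complex.real_smul, smul_eq_mul, conj_trivial]
    push_cast
    ring
  · simp only [A1, inner_add_right]
    push_cast
    ring
  · simp only [A1, inner_smul_right, Complex.real_smul]
    push_cast
    ring
  · refine Complex.ofRealCLM.contDiff.comp ((h.ls.comp contDiff_fst.fst).exp.mul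
      ((contDiff_snd.fst.inner ℝ contDiff_snd.snd).add (ContDiff.mul ?_
        ((contDiff_fst.fst.sub contDiff_fst.snd).inner ℝ contDiff_snd.snd))))
    exact ((h.ls.fderiv_right (m := (⊤ : ℕ∞)) (by simp)).comp contDiff_fst.fst).clm_apply
      contDiff_snd.fst

lemma Conf.bil2 (h : Conf M t l O) : Bil (A2 t) := by
  refine ⟨fun p w => ⟨fun a b => ?_, fun c a => ?_⟩, fun p v => ⟨fun a b => ?_, fun c a => ?_⟩, ?_⟩
  · simp [A2, inner_add_left]
  · simp [A2, inner_smul_left]
  · simp [A2, inner_add_right]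
  · simp [A2, inner_smul_right]
  · have hd := h.ts.fderiv_right (m := (⊤ : ℕ∞)) (by simp)
    exact Complex.ofRealCLM.contDiff.comp
      (((hd.comp contDiff_fst.fst).clm_apply contDiff_snd.fst).inner ℝ
        ((hd.comp contDiff_fst.snd).clm_apply contDiff_snd.snd))

lemma energy_eq (z : ℂ) : energy m M e z =
    ∫ p, itg e (fun _ _ => 1) A0 z p ∂((vol m M).prod (vol m M)) := by
  refine integral_congr_ae (Eventually.of_forall fun p => ?_)
  simp only [itg, DD, one_mul, pairing_cast]
  rw [mul_comm]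
  rfl

lemma exp_cpow (s : ℝ) (z : ℂ) : ((Real.exp s : ℝ) : ℂ) ^ z = Complex.exp (z * s) := by
  rw [Complex.cpow_def_of_ne_zero (by exact_mod_cast (Real.exp_pos s).ne'),
    ← Complex.ofReal_log (Real.exp_pos s).le, Real.log_exp, mul_comm]

theorem Conf.energy_image (h : Conf M t l O) (hM : IsOrientedClosedSubmanifold m M e)
    {e' : E n → Fin m → E n} (he' : IsTransported m M e t e') (z : ℂ) :
    energy m (t '' M) e' z = ∫ p, itg e
      (fun z p => Complex.exp (z / 2 * l p.1) * Complex.exp (z / 2 * l p.2)) (A2 t) z p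
      ∂((vol m M).prod (vol m M)) := by
  have := vol_finite hM
  have hj : Measurable fun x => ENNReal.ofReal (Real.exp (l x) ^ m) :=
    (Continuous.measurable (by have := h.ls.continuous; fun_prop)).ennreal_ofReal
  have htm := h.ts.continuous.measurable
  have hae := ae_mem_vol2 (m := m) hM.1
  have hP : ∀ x ∈ M, pairing (e' (t x)) (fun j => fderiv ℝ t x (e x j)) = Real.exp (l x) ^ m ∧
      ∀ j, fderiv ℝ t x (e x j) ∈ Submodule.span ℝ (range (e' (t x))) := by
    intro x hx
    obtain ⟨h1, h2, h3⟩ := he' x hx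
    have h4 : ∀ j, fderiv ℝ t x (e x j) ∈ Submodule.span ℝ (range (e' (t x))) := by
      intro j
      rw [span_eq_of_le h1 ((finrank_range_le_card _).trans (by simp)) h2]
      exact Submodule.subset_span ⟨j, rfl⟩
    refine ⟨?_, h4⟩
    rw [← Pool.Agent.Lib.MP_34b615_gt.sqrt_pairing h1 h4 h3, h.sqrt_pairing (h.sub hx),
      pairing_self (hM.2 x hx).1, Real.sqrt_one, mul_one]
  rw [energy, h.vol_image hM, Measure.map_prod_map _ _ htm htm, prod_withDensity hj hj,
    (integral_map_injOn (h.ts.continuous.prodMap h.ts.continuous)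
      (hM.1.measurableSet.prod hM.1.measurableSet)
      ((h.inj.mono h.sub).prodMap (h.inj.mono h.sub))
      ((withDensity_absolutelyContinuous _ _).ae_le hae) _).2,
    integral_withDensity_eq_integral_toReal_smul
      (f := fun p : E n × E n => ENNReal.ofReal (Real.exp (l p.1) ^ m) *
        ENNReal.ofReal (Real.exp (l p.2) ^ m))
      ((hj.comp measurable_fst).mul (hj.comp measurable_snd))
      (Eventually.of_forall fun p => ENNReal.mul_lt_top ENNReal.ofReal_lt_top
        ENNReal.ofReal_lt_top)]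
  refine integral_congr_ae ?_
  filter_upwards [hae] with p hp
  obtain ⟨x, y⟩ := p
  have e1 := bdet_frame inner_lin1 inner_lin2 (he' x hp.1).1 (he' y hp.2).1 (hP x hp.1).2
    (hP y hp.2).2
  rw [(hP x hp.1).1, (hP y hp.2).1, ← pairing_cast (e' (t x))] at e1
  have e2 : DD (A2 t) e (x, y) = bdet (fun a b => ((inner ℝ a b : ℝ) : ℂ))
      (fun j => fderiv ℝ t x (e x j)) fun j => fderiv ℝ t y (e y j) := rfl
  simp only [itg, Prod.map_fst, Prod.map_snd]
  rw [e2, e1, h.norm_eq (h.sub hp.1) (h.sub hp.2), Complex.ofReal_mul,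
    Complex.mul_cpow_ofReal_nonneg (Real.exp_pos _).le (norm_nonneg _), exp_cpow,
    ENNReal.toReal_mul, ENNReal.toReal_ofReal (by positivity),
    ENNReal.toReal_ofReal (by positivity), Complex.real_smul, ← Complex.exp_add]
  have e3 : z * (((l x + l y) / 2 : ℝ) : ℂ) = z / 2 * l x + z / 2 * l y := by
    push_cast
    ring
  rw [e3]
  push_cast
  ring

end Pool.Agent.Lib.MP_34b615_gt
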