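import Mathlib
import Pool.Agent.Lib.MP_34b615_gt.Transport

set_option autoImplicit false
set_option linter.unusedSectionVars false
set_option linter.unusedVariables false

open MeasureTheory Filter Topology Metric Set
open scoped ENNReal NNReal

namespace Pool.Agent.Lib.MP_34b615_gt

variable {m n : ℕ}
variable {M : Set (E n)} {e : E n → Fin m → E n} {t : E n → E n} {l : E n → ℝ} {O : Set (E n)}

lemma sq_cpow {d : ℝ} (hd : 0 ≤ d) (z : ℂ) : ((d ^ 2 : ℝ) : ℂ) ^ (z / 2) = (d : ℂ) ^ z := by
  rcases hd.eq_or_lt with rfl | hd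
  · by_cases hz : z = 0
    · simp [hz]
    · have : z / 2 ≠ 0 := by simpa using hz
      simp [hz, this]
  · rw [← Real.exp_log hd, ← Real.exp_nat_mul, exp_cpow, exp_cpow]
    congr 1
    push_cast
    ring

lemma fderiv_cast {f : E n → ℝ} {x : E n} {f' : E n →L[ℝ] ℝ} (h : HasFDerivAt f f' x) (v : E n) :
    fderiv ℝ (fun y => (f y : ℂ)) x v = (f' v : ℝ) := by
  have := (Complex.ofRealCLM.hasFDerivAt.comp x h).fderiv
  exact congrArg (fun L : E n →L[ℝ] ℂ => L v) this

lemma exp_sigma (z : ℂ) (s : ℝ) : Complex.exp ((z + 2 * m) / 2 * s) =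
    Complex.exp (z / 2 * s) * (Real.exp s : ℂ) ^ m := by
  rw [Complex.ofReal_exp, ← Complex.exp_nat_mul, ← Complex.exp_add]
  congr 1
  ring

lemma det_smul_fin (c : ℂ) (A : Matrix (Fin m) (Fin m) ℂ) : (c • A).det = c ^ m * A.det := by
  simp

lemma step1 (h : Conf M t l O) (hM : IsOrientedClosedSubmanifold m M e) {z : ℂ} (hz : 0 < z.re)
    (x : E n) :
    ∫ y, itg e (fun z p => Complex.exp (z / 2 * l p.1)) (A1 l) z (x, y) ∂(vol m M) =
      ∫ y, itg e (fun z p => Complex.exp ((z + 2 * m) / 2 * l p.1)) A0 z (x, y) ∂(vol m M) := by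
  have hh : Continuous fun s : ℝ => (s : ℂ) ^ (z / 2) :=
    Complex.continuous_ofReal_cpow_const (by simp; linarith)
  have key := row_lemma hM hh (K := fun y => ‖x - y‖ ^ 2)
    ((contDiff_const.sub contDiff_id).norm_sq ℝ)
    (fun i y => ((inner ℝ (y - x) (e x i) : ℝ) : ℂ))
    (fun i => Complex.ofRealCLM.contDiff.comp
      ((contDiff_id.sub contDiff_const).inner ℝ contDiff_const))
    (fun i => ((-(1 / 2) * fderiv ℝ l x (e x i) : ℝ) : ℂ))
  have key2 := congrArg (fun s => Complex.exp ((z + 2 * m) / 2 * l x) * s) key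
  simp only [← integral_const_mul] at key2
  have b2 : ∀ y, HasFDerivAt (fun y => y - x) (ContinuousLinearMap.id ℝ (E n)) y := fun y =>
    (hasFDerivAt_id (𝕜 := ℝ) y).sub_const x
  have b3 : ∀ y, HasFDerivAt (fun y => x - y) (-ContinuousLinearMap.id ℝ (E n)) y := fun y =>
    (hasFDerivAt_id (𝕜 := ℝ) y).const_sub x
  refine Eq.trans ?_ (key2.trans ?_)
  · refine integral_congr_ae (Eventually.of_forall fun y => ?_)
    have e1 : DD (A1 l) e (x, y) = (Real.exp (l x) : ℂ) ^ m * FD e (fun i => fderiv ℝ fun y =>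
        ((inner ℝ (y - x) (e x i) : ℝ) : ℂ) + ((-(1 / 2) * fderiv ℝ l x (e x i) : ℝ) : ℂ) *
          ((‖x - y‖ ^ 2 : ℝ) : ℂ)) y := by
      rw [DD, bdet, FD]
      rw [← det_smul_fin]
      congr 1
      ext i j
      have d := fderiv_cast (((b2 y).inner ℝ (hasFDerivAt_const (e x i) y)).add
        ((b3 y).norm_sq.const_mul (-(1 / 2) * fderiv ℝ l x (e x i)))) (e y j)
      simp only [Matrix.of_apply, Matrix.smul_apply, smul_eq_mul, A1, ← Complex.ofReal_mul,
        ← Complex.ofReal_add]
      erw [d]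
      rw [← Complex.ofReal_mul]
      congr 1
      simp [fderivInnerCLM_apply, inner_sub_left, real_inner_comm]
      ring
    simp only [itg]
    rw [e1, sq_cpow (norm_nonneg _), exp_sigma]
    ring
  · refine integral_congr_ae (Eventually.of_forall fun y => ?_)
    have e1 : DD A0 e (x, y) = FD e (fun i => fderiv ℝ fun y =>
        ((inner ℝ (y - x) (e x i) : ℝ) : ℂ)) y := by
      rw [DD, bdet, FD]
      congr 1
      ext i j
      have d := fderiv_cast ((b2 y).inner ℝ (hasFDerivAt_const (e x i) y)) (e y j)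
      simp only [Matrix.of_apply, A0]
      rw [d]
      congr 1
      simp [fderivInnerCLM_apply, real_inner_comm]
    simp only [itg]
    rw [e1, sq_cpow (norm_nonneg _)]
    ring

lemma step2 (h : Conf M t l O) (hM : IsOrientedClosedSubmanifold m M e) {z : ℂ} (hz : 0 < z.re)
    {y : E n} (hy : y ∈ M) :
    ∫ x, itg e (fun z p => Complex.exp (z / 2 * l p.1) * Complex.exp (z / 2 * l p.2)) (A2 t) z
        (x, y) ∂(vol m M) =
      ∫ x, itg e (fun z p => Complex.exp (z / 2 * l p.1) * Complex.exp ((z + 2 * m) / 2 * l p.2))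
        (A1 l) z (x, y) ∂(vol m M) := by
  have hh : Continuous fun s : ℝ => (s : ℂ) ^ (z / 2) :=
    Complex.continuous_ofReal_cpow_const (by simp; linarith)
  have hl2 : ContDiff ℝ 2 fun x => Real.exp (l x) := (h.ls.of_le (by norm_cast)).exp
  have key := row_lemma hM hh (K := fun x => Real.exp (l x) * ‖x - y‖ ^ 2)
    (hl2.mul ((contDiff_id.sub contDiff_const).norm_sq ℝ))
    (fun i x => ((Real.exp (l x) * inner ℝ (x - y) (e y i) : ℝ) : ℂ))
    (fun i => Complex.ofRealCLM.contDiff.comp
      (hl2.mul ((contDiff_id.sub contDiff_const).inner ℝ contDiff_const)))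
    (fun i => ((-(1 / 2) * fderiv ℝ l y (e y i) : ℝ) : ℂ))
  have key2 := congrArg (fun s => Complex.exp ((z + 2 * m) / 2 * l y) * s) key
  simp only [← integral_const_mul] at key2
  have b2 : ∀ x, HasFDerivAt (fun x => x - y) (ContinuousLinearMap.id ℝ (E n)) x := fun x =>
    (hasFDerivAt_id (𝕜 := ℝ) x).sub_const y
  have e0 : ∀ x, ((Real.exp (l x) * ‖x - y‖ ^ 2 : ℝ) : ℂ) ^ (z / 2) =
      Complex.exp (z / 2 * l x) * ((‖x - y‖ : ℝ) : ℂ) ^ z := fun x => by
    rw [Complex.ofReal_mul, Complex.mul_cpow_ofReal_nonneg (Real.exp_pos _).le (by positivity),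
      exp_cpow, sq_cpow (norm_nonneg _)]
  refine Eq.trans ?_ (key2.trans ?_)
  · refine integral_congr_ae ?_
    filter_upwards [ae_mem_vol (m := m) hM.1] with x hx
    have e1 : DD (A2 t) e (x, y) = (Real.exp (l y) : ℂ) ^ m * FD e (fun i => fderiv ℝ fun x =>
        ((Real.exp (l x) * inner ℝ (x - y) (e y i) : ℝ) : ℂ) +
          ((-(1 / 2) * fderiv ℝ l y (e y i) : ℝ) : ℂ) *
          ((Real.exp (l x) * ‖x - y‖ ^ 2 : ℝ) : ℂ)) x := by
      rw [DD, bdet, FD, ← Matrix.det_transpose]
      rw [← det_smul_fin]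
      congr 1
      ext i j
      have d := fderiv_cast (((h.dl x).exp.mul ((b2 x).inner ℝ (hasFDerivAt_const (e y i) x))).add
        (((h.dl x).exp.mul (b2 x).norm_sq).const_mul (-(1 / 2) * fderiv ℝ l y (e y i)))) (e x j)
      simp only [Matrix.of_apply, Matrix.smul_apply, smul_eq_mul, A2, ← Complex.ofReal_mul,
        ← Complex.ofReal_add, Matrix.transpose_apply]
      erw [d]
      rw [← Complex.ofReal_mul, h.d2 (h.sub hx) (h.sub hy)]
      congr 2
      simp [fderivInnerCLM_apply, inner_sub_left]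
      ring
    simp only [itg]
    rw [e1, e0, exp_sigma]
    ring
  · refine integral_congr_ae (Eventually.of_forall fun x => ?_)
    have e1 : DD (A1 l) e (x, y) = FD e (fun i => fderiv ℝ fun x =>
        ((Real.exp (l x) * inner ℝ (x - y) (e y i) : ℝ) : ℂ)) x := by
      rw [DD, bdet, FD, ← Matrix.det_transpose]
      congr 1
      ext i j
      have d := fderiv_cast ((h.dl x).exp.mul ((b2 x).inner ℝ (hasFDerivAt_const (e y i) x)))
        (e x j)
      simp only [Matrix.of_apply, A1, Matrix.transpose_apply]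
      erw [d]
      congr 1
      simp [fderivInnerCLM_apply, inner_sub_left]
      ring
    simp only [itg]
    rw [e1, e0]
    ring

lemma exp_eq_dslope (s : ℂ) : Complex.exp s = 1 + s * dslope Complex.exp 0 s := by
  have := sub_smul_dslope Complex.exp 0 s
  rw [sub_zero, smul_eq_mul, Complex.exp_zero] at this
  rw [this]
  ring

theorem Conf.main (h : Conf M t l O) (hm : 1 ≤ m) (hM : IsOrientedClosedSubmanifold m M e) :
    ∃ f f' g : ℂ → ℂ, Cont M e (fun _ _ => 1) A0 f ∧
      Cont M e (fun z p => Complex.exp (z / 2 * l p.1) * Complex.exp (z / 2 * l p.2)) (A2 t) f' ∧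
      Differentiable ℂ g ∧ ∀ z, f' z = f z + (z + 2 * m) * g z := by
  have := vol_finite hM
  have hE : Differentiable ℂ (dslope Complex.exp 0) := differentiableOn_univ.mp
    ((Complex.differentiableOn_dslope univ_mem).mpr Complex.differentiable_exp.differentiableOn)
  have l1 : GAmp m fun (_ : ℂ) (p : E n × E n) => (l p.1 : ℂ) :=
    gamp_smooth (Complex.ofRealCLM.contDiff.comp (h.ls.comp contDiff_fst))
  have l2 : GAmp m fun (_ : ℂ) (p : E n × E n) => (l p.2 : ℂ) :=
    gamp_smooth (Complex.ofRealCLM.contDiff.comp (h.ls.comp contDiff_snd))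
  have w : GAmp m fun (z : ℂ) (_ : E n × E n) => z / 2 := gamp_entire (by fun_prop)
  have s : GAmp m fun (z : ℂ) (_ : E n × E n) => (z + 2 * m) / 2 := gamp_entire (by fun_prop)
  have x1 := (w.mul l1).comp Complex.differentiable_exp
  obtain ⟨f, hf⟩ := glob_cont hm hM bil0 (gamp_entire (differentiable_const (1 : ℂ)))
  obtain ⟨f', hf'⟩ := glob_cont hm hM h.bil2 (x1.mul ((w.mul l2).comp Complex.differentiable_exp))
  obtain ⟨f1, hf1⟩ := glob_cont hm hM h.bil1 x1
  obtain ⟨g0, hg0⟩ := glob_cont hm hM bil0 (l1.mul ((s.mul l1).comp hE))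
  obtain ⟨g1, hg1⟩ := glob_cont hm hM h.bil1 (x1.mul (l2.mul ((s.mul l2).comp hE)))
  have hg : Differentiable ℂ fun z => (g0 z + g1 z) / 2 := (hg0.1.add hg1.1).div_const 2
  refine ⟨f, f', _, hf, hf', hg, ?_⟩
  have key : ∀ z : ℂ, 0 < z.re → f' z = f z + (z + 2 * m) * ((g0 z + g1 z) / 2) := by
    intro z hz
    have hz' : -(m : ℝ) < z.re := lt_of_le_of_lt (by simp) hz
    have s0 : itg e (fun z p => Complex.exp ((z + 2 * m) / 2 * l p.1)) A0 z = fun p =>
        itg e (fun _ _ => 1) A0 z p + (z + 2 * m) / 2 * itg e (fun z p => (l p.1 : ℂ) *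
          dslope Complex.exp 0 ((z + 2 * m) / 2 * l p.1)) A0 z p := by
      funext p
      simp only [itg]
      rw [exp_eq_dslope ((z + 2 * m) / 2 * l p.1)]
      ring
    have s1 : itg e (fun z p => Complex.exp (z / 2 * l p.1) *
        Complex.exp ((z + 2 * m) / 2 * l p.2)) (A1 l) z = fun p =>
        itg e (fun z p => Complex.exp (z / 2 * l p.1)) (A1 l) z p + (z + 2 * m) / 2 *
          itg e (fun z p => Complex.exp (z / 2 * l p.1) * ((l p.2 : ℂ) *
          dslope Complex.exp 0 ((z + 2 * m) / 2 * l p.2))) (A1 l) z p := by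
      funext p
      simp only [itg]
      rw [exp_eq_dslope ((z + 2 * m) / 2 * l p.2)]
      ring
    have i0 := (hf.2 z hz').1.add ((hg0.2 z hz').1.const_mul ((z + 2 * m) / 2))
    have i1 := (hf1.2 z hz').1.add ((hg1.2 z hz').1.const_mul ((z + 2 * m) / 2))
    have q1 : ∫ p, itg e (fun z p => Complex.exp (z / 2 * l p.1)) (A1 l) z p
        ∂((vol m M).prod (vol m M)) = ∫ p, itg e (fun z p =>
          Complex.exp ((z + 2 * m) / 2 * l p.1)) A0 z p ∂((vol m M).prod (vol m M)) := by
      rw [integral_prod _ (hf1.2 z hz').1, integral_prod _ (by rw [s0]; exact i0)]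
      exact integral_congr_ae (Eventually.of_forall fun x => step1 h hM hz x)
    have q2 : ∫ p, itg e (fun z p => Complex.exp (z / 2 * l p.1) * Complex.exp (z / 2 * l p.2))
        (A2 t) z p ∂((vol m M).prod (vol m M)) = ∫ p, itg e (fun z p =>
          Complex.exp (z / 2 * l p.1) * Complex.exp ((z + 2 * m) / 2 * l p.2)) (A1 l) z p
          ∂((vol m M).prod (vol m M)) := by
      rw [integral_prod_symm _ (hf'.2 z hz').1, integral_prod_symm _ (by rw [s1]; exact i1)]
      refine integral_congr_ae ?_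
      filter_upwards [ae_mem_vol (m := m) hM.1] with y hy using step2 h hM hz hy
    rw [s0, integral_add (hf.2 z hz').1 ((hg0.2 z hz').1.const_mul _), integral_const_mul,
      (hf.2 z hz').2, (hg0.2 z hz').2] at q1
    rw [s1, integral_add (hf1.2 z hz').1 ((hg1.2 z hz').1.const_mul _), integral_const_mul,
      q1, (hf'.2 z hz').2, (hg1.2 z hz').2] at q2
    have ha : 0 < ((z + m) / 2).re := by
      simp
      linarith
    apply mul_left_cancel₀ (Complex.Gamma_ne_zero_of_re_pos ha)
    rw [q2]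
    ring
  have a1 : AnalyticOnNhd ℂ f' univ := hf'.1.differentiableOn.analyticOnNhd isOpen_univ
  have a2 : AnalyticOnNhd ℂ (fun z => f z + (z + 2 * m) * ((g0 z + g1 z) / 2)) univ :=
    (hf.1.add (Differentiable.mul (by fun_prop) hg)).differentiableOn.analyticOnNhd isOpen_univ
  have := a1.eq_of_eventuallyEq a2 (z₀ := 1) (eventually_of_mem
    ((isOpen_lt continuous_const Complex.continuous_re).mem_nhds (by simp)) key)
  exact fun z => congrFun this z

end Pool.Agent.Lib.MP_34b615_gt
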