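import Mathlib
import Pool.Agent.Lib.MP_34b615_gt.Steps
import Pool.Agent.Lib.MP_34b615_gt.Moebius

set_option autoImplicit false
set_option linter.unusedSectionVars false
set_option linter.unusedVariables false

open MeasureTheory Filter Topology Metric Set
open scoped ENNReal NNReal

namespace Pool.Agent.Lib.MP_34b615_gt

variable {m n : ℕ}

lemma mero_gamma_mul {f : ℂ → ℂ} (hf : Differentiable ℂ f) :
    MeromorphicOn (fun z => Complex.Gamma ((z + m) / 2) * f z) univ := by
  intro z _
  refine MeromorphicAt.mul (f := fun z => Complex.Gamma ((z + m) / 2)) ?_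
    (hf.analyticAt z).meromorphicAt
  exact (Meromorphic.Gamma _).comp_analyticAt (g := fun z : ℂ => (z + m) / 2) (by fun_prop)

lemma mero_unique {B B' : ℂ → ℂ} (hB : MeromorphicOn B univ) (hB' : MeromorphicOn B' univ)
    (h : ∀ z : ℂ, -(m : ℝ) < z.re → B z = B' z) (z₀ : ℂ) : B =ᶠ[𝓝[≠] z₀] B' := by
  have h1 : meromorphicOrderAt (B - B') z₀ = ⊤ := by
    by_contra h0
    refine (hB.sub hB').meromorphicOrderAt_ne_top_of_isPreconnected isPreconnected_univ
      (mem_univ z₀) (mem_univ 1) h0 ?_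
    rw [meromorphicOrderAt_eq_top_iff]
    apply Eventually.filter_mono nhdsWithin_le_nhds
    have h2 : (1 : ℂ) ∈ {z : ℂ | -(m : ℝ) < z.re} := by
      have : (0 : ℝ) ≤ m := Nat.cast_nonneg m
      simp only [mem_ofPred_eq, Complex.one_re]
      linarith
    filter_upwards [(isOpen_lt continuous_const Complex.continuous_re).mem_nhds h2] with z hz
    rw [Pi.sub_apply, h z hz, sub_self]
  rw [meromorphicOrderAt_eq_top_iff] at h1
  filter_upwards [h1] with z hz using sub_eq_zero.mp hz

lemma gamma_pole (k : ℕ) :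
    ∃ c : ℂ, Tendsto (fun s => (s + k) * Complex.Gamma s) (𝓝[≠] (-(k : ℂ))) (𝓝 c) := by
  induction k with
  | zero => exact ⟨1, by simpa using Complex.tendsto_self_mul_Gamma_nhds_zero⟩
  | succ k ih =>
    obtain ⟨c, hc⟩ := ih
    have hk : (-((k + 1 : ℕ) : ℂ)) ≠ 0 := neg_ne_zero.mpr (Nat.cast_ne_zero.mpr k.succ_ne_zero)
    have h1 : Tendsto (fun s : ℂ => s + 1) (𝓝[≠] (-((k + 1 : ℕ) : ℂ))) (𝓝[≠] (-(k : ℂ))) := by
      refine tendsto_nhdsWithin_iff.mpr ⟨?_, eventually_nhdsWithin_of_forall fun s hs h => hs ?_⟩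
      · refine Tendsto.mono_left (Continuous.tendsto' (by fun_prop) _ _ ?_) nhdsWithin_le_nhds
        push_cast
        ring
      · rw [mem_singleton_iff] at h ⊢
        push_cast
        linear_combination h
    refine ⟨c / (-((k + 1 : ℕ) : ℂ)), ((hc.comp h1).div
      (tendsto_id.mono_left nhdsWithin_le_nhds) hk).congr' ?_⟩
    filter_upwards [mem_nhdsWithin_of_mem_nhds (isOpen_ne.mem_nhds hk)] with s hs
    simp only [Pi.div_apply, Function.comp_apply, id, Complex.Gamma_add_one s hs]
    push_cast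
    field_simp
    ring

lemma hasW_gamma (m : ℕ) : ∃ c : ℂ, ∀ f : ℂ → ℂ, Continuous f →
    HasW m (fun z => Complex.Gamma ((z + m) / 2) * f z) (c * f (-2 * m)) := by
  rcases Nat.even_or_odd m with he | ho
  · obtain ⟨k, rfl⟩ := he
    obtain ⟨c, hc⟩ := gamma_pole k
    refine ⟨2 * c, fun f hf => ⟨fun ho => absurd ho (by simp), fun _ => ?_⟩⟩
    have h1 : Tendsto (fun z : ℂ => (z + ((k + k : ℕ) : ℂ)) / 2) (𝓝[≠] (-2 * ((k + k : ℕ) : ℂ)))
        (𝓝[≠] (-(k : ℂ))) := by
      refine tendsto_nhdsWithin_iff.mpr ⟨?_, eventually_nhdsWithin_of_forall fun s hs h => hs ?_⟩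
      · refine Tendsto.mono_left (Continuous.tendsto' (by fun_prop) _ _ ?_) nhdsWithin_le_nhds
        push_cast
        ring
      · rw [mem_singleton_iff] at h ⊢
        push_cast at h ⊢
        linear_combination 2 * h
    refine (((hc.comp h1).const_mul 2).mul
      ((hf.tendsto _).mono_left nhdsWithin_le_nhds)).congr fun z => ?_
    simp only [Function.comp_apply]
    push_cast
    ring
  · refine ⟨Complex.Gamma ((-2 * m + m) / 2), fun f hf =>
      ⟨fun _ => ?_, fun he => absurd he (Nat.not_even_iff_odd.mpr ho)⟩⟩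
    refine Tendsto.mono_left (ContinuousAt.mul ?_ hf.continuousAt) nhdsWithin_le_nhds
    refine ContinuousAt.comp' (g := Complex.Gamma) (Complex.continuousAt_Gamma _ fun k hk => ?_)
      (by fun_prop)
    have : (m : ℂ) = ((2 * k : ℕ) : ℂ) := by
      push_cast
      linear_combination (-2) * hk
    have h2 : m = 2 * k := by exact_mod_cast this
    exact absurd ho (by simp [h2])

lemma HasW.congr {B B' : ℂ → ℂ} {W : ℂ} (h : HasW m B W) (e : B =ᶠ[𝓝[≠] (-2 * (m : ℂ))] B') :
    HasW m B' W :=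
  ⟨fun ho => (h.1 ho).congr' e, fun he => (h.2 he).congr' (by
    filter_upwards [e] with z hz
    rw [hz])⟩

theorem moebius_invariance (hm : 1 ≤ m) {M : Set (E n)} {e : E n → Fin m → E n}
    (hM : IsOrientedClosedSubmanifold m M e) {T : OnePoint (E n) → OnePoint (E n)}
    (hT : IsMoebius T) (hTM : ∀ x ∈ M, T x ≠ OnePoint.infty) :
    (∃ e', IsTransported m M e (finitePart T) e') ∧
    ∀ e', IsTransported m M e (finitePart T) e' →
      (∃ B, IsContinuation m M e B) ∧ (∃ B', IsContinuation m (finitePart T '' M) e' B') ∧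
      ∀ B B', IsContinuation m M e B → IsContinuation m (finitePart T '' M) e' B' →
        ∃ W, HasW m B W ∧ HasW m B' W := by
  obtain ⟨t, l, O, h1, h2, h3, h4, h5, h6⟩ := moebius_model hT hM.1 hTM
  have h : Conf M t l O := ⟨h1, h2, h3, h4, h6⟩
  have him : finitePart T '' M = t '' M := image_congr fun x hx => (h5 x (h2 hx)).symm
  have hD : ∀ x ∈ M, fderiv ℝ (finitePart T) x = fderiv ℝ t x := fun x hx =>
    (Filter.EventuallyEq.fderiv_eq (eventually_of_mem (h1.mem_nhds (h2 hx)) h5)).symm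
  have htr : ∀ e', IsTransported m M e (finitePart T) e' ↔ IsTransported m M e t e' := by
    intro e'
    refine forall₂_congr fun x hx => ?_
    rw [hD x hx, h5 x (h2 hx)]
  constructor
  · let e' : E n → Fin m → E n := fun y j => (Real.exp (l (Function.invFunOn t M y)))⁻¹ •
      fderiv ℝ t (Function.invFunOn t M y) (e (Function.invFunOn t M y) j)
    refine ⟨e', (htr e').mpr fun x hx => ?_⟩
    have e1 : e' (t x) = fun j => (Real.exp (l x))⁻¹ • fderiv ℝ t x (e x j) := by
      funext j
      simp only [e', (h.inj.mono h2).leftInvOn_invFunOn hx]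
    have ho := orthonormal_iff_ite.mp (hM.2 x hx).1
    have hp := Real.exp_pos (l x)
    rw [e1]
    refine ⟨orthonormal_iff_ite.mpr fun i j => ?_, fun i => Submodule.smul_mem _ _
      (Submodule.subset_span ⟨i, rfl⟩), ?_⟩
    · rw [inner_smul_left, inner_smul_right, h.conf (h2 hx), ho]
      simp only [conj_trivial]
      field_simp
    · have e2 : (Matrix.of fun i j => inner ℝ ((Real.exp (l x))⁻¹ • fderiv ℝ t x (e x i))
          (fderiv ℝ t x (e x j))) = Real.exp (l x) • (1 : Matrix (Fin m) (Fin m) ℝ) := by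
        ext i j
        rw [Matrix.of_apply, inner_smul_left, h.conf (h2 hx), ho, Matrix.smul_apply,
          Matrix.one_apply, smul_eq_mul]
        simp only [conj_trivial]
        field_simp
      rw [pairing, e2, Matrix.det_smul, Matrix.det_one, mul_one]
      positivity
  intro e' he'
  obtain ⟨f, f', g, hf, hf', hg, hfg⟩ := h.main hm hM
  have c1 : IsContinuation m M e fun z => Complex.Gamma ((z + m) / 2) * f z :=
    ⟨mero_gamma_mul hf.1, fun z hz => by rw [energy_eq, (hf.2 z hz).2]⟩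
  have c2 : IsContinuation m (finitePart T '' M) e' fun z => Complex.Gamma ((z + m) / 2) * f' z :=
    ⟨mero_gamma_mul hf'.1, fun z hz => by
      rw [him, h.energy_image hM ((htr e').mp he'), (hf'.2 z hz).2]⟩
  refine ⟨⟨_, c1⟩, ⟨_, c2⟩, fun B B' hB hB' => ?_⟩
  obtain ⟨c, hc⟩ := hasW_gamma m
  have e1 : f' (-2 * m) = f (-2 * m) := by
    rw [hfg]
    ring
  refine ⟨c * f (-2 * m), (hc f hf.1.continuous).congr
    (mero_unique (m := m) c1.1 hB.1 (fun z hz => (c1.2 z hz).trans (hB.2 z hz).symm) _), ?_⟩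
  rw [← e1]
  exact (hc f' hf'.1.continuous).congr
    (mero_unique (m := m) c2.1 hB'.1 (fun z hz => (c2.2 z hz).trans (hB'.2 z hz).symm) _)

end Pool.Agent.Lib.MP_34b615_gt
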